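import Pool.Statements.S00566
import Pool.Agent.Results.MP_fa7d23_ag.NefNotB

set_option autoImplicit false
open Pool Pool.MP_fa7d23_ag

namespace Pool.Agent.S00566

open MvPolynomial in
/-- The class `4H - E` is nef, with lower bounds instead of exact multiplicities. -/
lemma nef_weak {t : Fin 12 → ℂ} {u : Fin 3 → ℂ}
    (hinj : Function.Injective (Fin.append t u : Fin (12 + 3) → ℂ))
    {n : ℕ} {F : MvPolynomial (Fin 3) ℂ} {c : Fin 15 → ℕ} (hF : F.IsHomogeneous n)
    (hirr : Irreducible F) (hc : ∀ i, F ∈ Pool.Agent.Results.MP_fa7d23_ag.NefNotB.pointIdeal (Pool.Agent.Results.MP_fa7d23_ag.NefNotB.cfg t u i) ^ c i) :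
    ∑ i, (fun _ => 1 : Fin 15 → ℕ) i * c i ≤ 4 * n := by
  simp only [one_mul]
  by_cases hd : Pool.Agent.Results.MP_fa7d23_ag.NefNotB.Q4 ∣ F
  · have hassoc : Associated (Pool.Agent.Results.MP_fa7d23_ag.NefNotB.Q4 : MvPolynomial (Fin 3) ℂ) F :=
      Pool.Agent.Results.MP_fa7d23_ag.NefNotB.Q4_prime.irreducible.associated_of_dvd hirr hd
    obtain ⟨v, hv⟩ := hassoc
    have hvu := v.isUnit
    rw [MvPolynomial.isUnit_iff_totalDegree_of_isReduced] at hvu
    have hvC : (v : MvPolynomial (Fin 3) ℂ) = C (coeff 0 (v : MvPolynomial (Fin 3) ℂ)) :=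
      totalDegree_eq_zero_iff_eq_C.1 hvu.2
    have ha : coeff 0 (v : MvPolynomial (Fin 3) ℂ) ≠ 0 := hvu.1.ne_zero
    have hFe : F = C (coeff 0 (v : MvPolynomial (Fin 3) ℂ)) * Pool.Agent.Results.MP_fa7d23_ag.NefNotB.Q4 := by
      rw [← hv, mul_comm, ← hvC]
    have hn : n = 4 := by
      have h2 : F.IsHomogeneous 4 := by
        rw [hFe]; exact Pool.Agent.Results.MP_fa7d23_ag.NefNotB.Q4_hom.C_mul _
      exact hF.inj_right h2 hirr.ne_zero
    have hc1 : ∀ i, c i ≤ 1 := by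
      intro i
      have := hc i
      rw [hFe] at this
      exact Pool.Agent.Results.MP_fa7d23_ag.NefNotB.le_one_of_mem ha this
    have : ∑ i, c i ≤ ∑ _i : Fin 15, 1 := Finset.sum_le_sum fun i _ => hc1 i
    simp at this
    omega
  · have hp0 : Pool.Agent.Results.MP_fa7d23_ag.NefNotB.par F ≠ 0 := fun h => hd (Pool.Agent.Results.MP_fa7d23_ag.NefNotB.Q4_dvd_of_par hF h)
    have hdvd : (∏ i, (Polynomial.X -
        Polynomial.C ((Fin.append t u : Fin (12 + 3) → ℂ) i)) ^ (c i)) ∣ Pool.Agent.Results.MP_fa7d23_ag.NefNotB.par F := by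
      apply Finset.prod_dvd_of_coprime
      · intro i _ j _ hij
        exact (Polynomial.pairwise_coprime_X_sub_C hinj hij).pow
      · intro i _
        exact Pool.Agent.Results.MP_fa7d23_ag.NefNotB.par_mem _ (hc i)
    have h1 := Polynomial.natDegree_le_of_dvd hdvd hp0
    have h2 : (∏ i, (Polynomial.X -
        Polynomial.C ((Fin.append t u : Fin (12 + 3) → ℂ) i)) ^ (c i)).natDegree = ∑ i, c i := by
      rw [Polynomial.natDegree_prod_of_monic]
      · apply Finset.sum_congr rfl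
        intro i _
        rw [Polynomial.natDegree_pow, Polynomial.natDegree_X_sub_C, mul_one]
      · intro i _
        exact (Polynomial.monic_X_sub_C _).pow _
    have h3 := Pool.Agent.Results.MP_fa7d23_ag.NefNotB.par_deg hF
    rw [h2] at h1
    exact h1.trans h3

/-- The class `4H - E` has no proper effective decomposition orthogonal to it. -/
lemma notB' {b : Fin 3 → ℂ} {t : Fin 12 → ℂ} {u : Fin 3 → ℂ}
    (hP : Pool.Agent.Results.MP_fa7d23_ag.NefNotB.P12 b = ∏ i, (Polynomial.X - Polynomial.C (t i)))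
    (hinj : Function.Injective (Fin.append t u : Fin (12 + 3) → ℂ))
    (hu : (u 0 + u 1 + u 2) ^ 2 ≠ u 0 * u 1 + u 0 * u 2 + u 1 * u 2)
    {E : Pool.Agent.Results.MP_fa7d23_ag.NefNotB.Cls 15} (hE : E ≠ 0) (h1 : Pool.Agent.Results.MP_fa7d23_ag.NefNotB.Effective (Pool.Agent.Results.MP_fa7d23_ag.NefNotB.cfg t u) E)
    (h2 : Pool.Agent.Results.MP_fa7d23_ag.NefNotB.Effective (Pool.Agent.Results.MP_fa7d23_ag.NefNotB.cfg t u) ((4, fun _ => 1) - E)) (h3 : 0 < Pool.Agent.Results.MP_fa7d23_ag.NefNotB.pa E)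
    (h4 : Pool.Agent.Results.MP_fa7d23_ag.NefNotB.inter (4, fun _ => 1) E = 0) : False :=
  Pool.Agent.Results.MP_fa7d23_ag.NefNotB.cfg_notB hP hinj hu ⟨E, hE, h1, h2, h3, h4⟩

/-- The negation of the preceding statement: For any r≥1 distinct points of the plane over an algebraically closed field and any effective nef L on the blow-up failing (B), some multiple mL has h^0(mL) equal to its Riemann–Roch value, i.e. h^1(mL)=0. -/
theorem result :
    ¬ (∀ (k : Type) [Field k] [IsAlgClosed k] (r : ℕ), 1 ≤ r →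
  ∀ (p : Fin r → Fin 3 → k),
    (∀ i, p i ≠ 0) →
    (∀ i j, i ≠ j → ∀ c : k, p i ≠ c • p j) →
  ∀ (d : ℕ) (a : Fin r → ℕ),
    (∃ f : MvPolynomial (Fin 3) k, f ≠ 0 ∧ f.IsHomogeneous d ∧
        ∀ i, f ∈ (Ideal.span (Set.range fun ab : Fin 3 × Fin 3 =>
            MvPolynomial.C (p i ab.1) * MvPolynomial.X ab.2
              - MvPolynomial.C (p i ab.2) * MvPolynomial.X ab.1) :
              Ideal (MvPolynomial (Fin 3) k)) ^ a i) →
    (∀ (e : ℕ) (g : MvPolynomial (Fin 3) k), g.IsHomogeneous e → Irreducible g →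
        ∀ μ : Fin r → ℕ,
          (∀ i, g ∈ (Ideal.span (Set.range fun ab : Fin 3 × Fin 3 =>
            MvPolynomial.C (p i ab.1) * MvPolynomial.X ab.2
              - MvPolynomial.C (p i ab.2) * MvPolynomial.X ab.1) :
              Ideal (MvPolynomial (Fin 3) k)) ^ μ i) →
          ∑ i, a i * μ i ≤ d * e) →
    (¬ ∃ (e : ℕ) (γ : Fin r → ℤ), (e ≠ 0 ∨ γ ≠ 0) ∧
        (∃ f : MvPolynomial (Fin 3) k, f ≠ 0 ∧ f.IsHomogeneous e ∧
          ∀ i, f ∈ (Ideal.span (Set.range fun ab : Fin 3 × Fin 3 =>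
            MvPolynomial.C (p i ab.1) * MvPolynomial.X ab.2
              - MvPolynomial.C (p i ab.2) * MvPolynomial.X ab.1) :
              Ideal (MvPolynomial (Fin 3) k)) ^ (γ i).toNat) ∧
        e ≤ d ∧
        (∃ f : MvPolynomial (Fin 3) k, f ≠ 0 ∧ f.IsHomogeneous (d - e) ∧
          ∀ i, f ∈ (Ideal.span (Set.range fun ab : Fin 3 × Fin 3 =>
            MvPolynomial.C (p i ab.1) * MvPolynomial.X ab.2
              - MvPolynomial.C (p i ab.2) * MvPolynomial.X ab.1) :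
              Ideal (MvPolynomial (Fin 3) k)) ^ ((a i : ℤ) - γ i).toNat) ∧
        (e : ℤ) ^ 2 - ∑ i, (γ i) ^ 2 - 3 * (e : ℤ) + ∑ i, γ i > -2 ∧
        (d : ℤ) * (e : ℤ) - ∑ i, (a i : ℤ) * γ i = 0) →
    ∃ m : ℕ, 1 ≤ m ∧
      2 * (Module.finrank k
        ↥(MvPolynomial.homogeneousSubmodule (Fin 3) k (m * d) ⊓
          ⨅ i, Submodule.restrictScalars k
            ((Ideal.span (Set.range fun ab : Fin 3 × Fin 3 =>
              MvPolynomial.C (p i ab.1) * MvPolynomial.X ab.2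
                - MvPolynomial.C (p i ab.2) * MvPolynomial.X ab.1) :
                Ideal (MvPolynomial (Fin 3) k)) ^ (m * a i))) : ℤ)
        = 2 + ((m * d : ℕ) : ℤ) ^ 2 - ∑ i, ((m * a i : ℕ) : ℤ) ^ 2
            + 3 * ((m * d : ℕ) : ℤ) - ∑ i, ((m * a i : ℕ) : ℤ)) := by
  intro H
  obtain ⟨b, t, u, hP, hinj, hu⟩ := Pool.Agent.Results.MP_fa7d23_ag.NefNotB.exists_config ℂ
  have hdist := Pool.Agent.Results.MP_fa7d23_ag.NefNotB.cfg_distinct hinj
  have hmem : ∀ i, (Pool.Agent.Results.MP_fa7d23_ag.NefNotB.Q4 : MvPolynomial (Fin 3) ℂ) ∈ Pool.Agent.Results.MP_fa7d23_ag.NefNotB.pointIdeal (Pool.Agent.Results.MP_fa7d23_ag.NefNotB.cfg t u i) := by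
    intro i
    simpa [Pool.Agent.Results.MP_fa7d23_ag.NefNotB.cfg] using Pool.Agent.Results.MP_fa7d23_ag.NefNotB.Q4_mem _
  obtain ⟨m, hm, h⟩ := H ℂ 15 (by norm_num) (Pool.Agent.Results.MP_fa7d23_ag.NefNotB.cfg t u) hdist.1 hdist.2 4 (fun _ => 1)
    ⟨Pool.Agent.Results.MP_fa7d23_ag.NefNotB.Q4, Pool.Agent.Results.MP_fa7d23_ag.NefNotB.Q4_ne_zero, Pool.Agent.Results.MP_fa7d23_ag.NefNotB.Q4_hom, fun i => by
      rw [pow_one]; exact hmem i⟩
    (by
      intro e g hg hirr μ hμ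
      exact nef_weak hinj hg hirr hμ)
    (by
      rintro ⟨e, γ, hne, ⟨f, hf0, hfh, hfm⟩, he4, ⟨f', hf0', hfh', hfm'⟩, hpa, hint⟩
      refine notB' hP hinj hu (E := ((e : ℤ), γ)) ?_ ?_ ?_ ?_ ?_
      · intro h0
        rw [Prod.mk_eq_zero] at h0
        rcases hne with h1 | h1
        · exact h1 (by exact_mod_cast h0.1)
        · exact h1 h0.2
      · intro hb
        have : f ∈ Pool.Agent.Results.MP_fa7d23_ag.NefNotB.H0 (Pool.Agent.Results.MP_fa7d23_ag.NefNotB.cfg t u) ((e : ℤ), γ) := by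
          rw [Pool.Agent.Results.MP_fa7d23_ag.NefNotB.mem_H0 _ _ _ hf0]
          exact ⟨by positivity, by simpa using hfh, hfm⟩
        rw [hb, Submodule.mem_bot] at this
        exact hf0 this
      · intro hb
        have : f' ∈ Pool.Agent.Results.MP_fa7d23_ag.NefNotB.H0 (Pool.Agent.Results.MP_fa7d23_ag.NefNotB.cfg t u) ((4, fun _ => 1) - ((e : ℤ), γ)) := by
          rw [Pool.Agent.Results.MP_fa7d23_ag.NefNotB.mem_H0 _ _ _ hf0']
          refine ⟨?_, ?_, ?_⟩
          · simp only [Prod.fst_sub]; omega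
          · have : ((4, fun _ => 1) - ((e : ℤ), γ) : Pool.Agent.Results.MP_fa7d23_ag.NefNotB.Cls 15).1.toNat = 4 - e := by
              simp only [Prod.fst_sub]; omega
            rw [this]; exact hfh'
          · intro i
            have := hfm' i
            simpa [Pool.Agent.Results.MP_fa7d23_ag.NefNotB.pointIdeal] using this
        rw [hb, Submodule.mem_bot] at this
        exact hf0' this
      · have hev : (2 : ℤ) ∣ Pool.Agent.Results.MP_fa7d23_ag.NefNotB.inter ((e : ℤ), γ) ((e : ℤ), γ) +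
            Pool.Agent.Results.MP_fa7d23_ag.NefNotB.inter (Pool.Agent.Results.MP_fa7d23_ag.NefNotB.canon 15) ((e : ℤ), γ) := by
          have e1 : Pool.Agent.Results.MP_fa7d23_ag.NefNotB.inter ((e : ℤ), γ) ((e : ℤ), γ) +
            Pool.Agent.Results.MP_fa7d23_ag.NefNotB.inter (Pool.Agent.Results.MP_fa7d23_ag.NefNotB.canon 15) ((e : ℤ), γ) = e * (e - 1) - 2 * e - ∑ i, γ i * (γ i - 1) := by
            simp only [Pool.Agent.Results.MP_fa7d23_ag.NefNotB.inter, Pool.Agent.Results.MP_fa7d23_ag.NefNotB.canon, neg_mul, one_mul, Finset.sum_neg_distrib, mul_sub,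
              mul_one, Finset.sum_sub_distrib]
            ring
          rw [e1]
          refine dvd_sub (dvd_sub (Int.even_mul_pred_self _).two_dvd (Dvd.intro _ rfl))
            (Finset.dvd_sum fun i _ => (Int.even_mul_pred_self _).two_dvd)
        have hgt : -2 < Pool.Agent.Results.MP_fa7d23_ag.NefNotB.inter ((e : ℤ), γ) ((e : ℤ), γ) +
            Pool.Agent.Results.MP_fa7d23_ag.NefNotB.inter (Pool.Agent.Results.MP_fa7d23_ag.NefNotB.canon 15) ((e : ℤ), γ) := by
          have e1 : Pool.Agent.Results.MP_fa7d23_ag.NefNotB.inter ((e : ℤ), γ) ((e : ℤ), γ) +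
            Pool.Agent.Results.MP_fa7d23_ag.NefNotB.inter (Pool.Agent.Results.MP_fa7d23_ag.NefNotB.canon 15) ((e : ℤ), γ) =
              (e : ℤ) ^ 2 - ∑ i, (γ i) ^ 2 - 3 * (e : ℤ) + ∑ i, γ i := by
            simp only [Pool.Agent.Results.MP_fa7d23_ag.NefNotB.inter, Pool.Agent.Results.MP_fa7d23_ag.NefNotB.canon, neg_mul, one_mul, Finset.sum_neg_distrib, ← pow_two]
            ring
          rw [e1]; exact hpa
        unfold Pool.Agent.Results.MP_fa7d23_ag.NefNotB.pa
        omega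
      · simp only [Pool.Agent.Results.MP_fa7d23_ag.NefNotB.inter]
        simpa using hint)
  obtain ⟨n, rfl⟩ : ∃ n, m = n + 1 := ⟨m - 1, by omega⟩
  have h1 := Pool.Agent.Results.MP_fa7d23_ag.NefNotB.cfg_h1 (u := u) hP n
  rw [show ((fun _ => ((n + 1 : ℕ) : ℤ)) : Fin 15 → ℤ) =
      fun i => (((fun _ => n + 1) : Fin 15 → ℕ) i : ℤ) from rfl,
    Pool.Agent.Results.MP_fa7d23_ag.NefNotB.h1_eq_superabundance] at h1
  have hH : Pool.Agent.Results.MP_fa7d23_ag.NefNotB.H0 (Pool.Agent.Results.MP_fa7d23_ag.NefNotB.cfg t u) (((4 * (n + 1) : ℕ) : ℤ),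
      fun i => (((fun _ => n + 1) : Fin 15 → ℕ) i : ℤ)) =
      MvPolynomial.homogeneousSubmodule (Fin 3) ℂ ((n + 1) * 4) ⊓
          ⨅ i, Submodule.restrictScalars ℂ
            ((Ideal.span (Set.range fun ab : Fin 3 × Fin 3 =>
              MvPolynomial.C (Pool.Agent.Results.MP_fa7d23_ag.NefNotB.cfg t u i ab.1) * MvPolynomial.X ab.2
                - MvPolynomial.C (Pool.Agent.Results.MP_fa7d23_ag.NefNotB.cfg t u i ab.2) * MvPolynomial.X ab.1) :
                Ideal (MvPolynomial (Fin 3) ℂ)) ^ ((n + 1) * (fun _ => 1 : Fin 15 → ℕ) i)) := by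
    rw [Pool.Agent.Results.MP_fa7d23_ag.NefNotB.H0_coe, mul_comm 4 (n + 1)]
    simp only [mul_one]
    rfl
  rw [hH] at h1
  have k1 := Pool.Agent.Results.MP_fa7d23_ag.NefNotB.key_choose (4 * (n + 1) + 1)
  have k2 := Pool.Agent.Results.MP_fa7d23_ag.NefNotB.key_choose (n + 1)
  simp only [Finset.sum_const, Finset.card_univ, Fintype.card_fin, nsmul_eq_mul] at h h1
  push_cast at h h1 k1 k2
  nlinarith [h, h1, k1, k2]

end Pool.Agent.S00566
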