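import Pool.Statements.S04135
import Pool.Agent.J4.H68.RB.Var

set_option autoImplicit false
open MeasureTheory
open Pool Pool.MP_28e115_an

namespace Pool.Agent.S04135

open Pool.Agent.J4.H68.RadBall Module

/-- Polar coordinates: a property of almost every direction holds in the direction of almost every point. -/
lemma ae_dir {E : Type*} [NormedAddCommGroup E] [NormedSpace ℝ E] [FiniteDimensional ℝ E] [Nontrivial E]
    [MeasurableSpace E] [BorelSpace E] (μ : Measure E) [μ.IsAddHaarMeasure]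
    {p : Metric.sphere (0 : E) 1 → Prop} (hp : ∀ᵐ ζ ∂μ.toSphere, p ζ) :
    ∀ᵐ x ∂μ, ∀ ζ : Metric.sphere (0 : E) 1, (ζ : E) = ‖x‖⁻¹ • x → p ζ := by
  have h1 := μ.measurePreserving_homeomorphUnitSphereProd
  have h2 : ∀ᵐ y ∂(μ.toSphere.prod (Measure.volumeIoiPow (finrank ℝ E - 1))), p y.1 :=
    Measure.quasiMeasurePreserving_fst.ae hp
  have h3 := h1.quasiMeasurePreserving.ae h2
  have hm : MeasurableEmbedding (Subtype.val : ({0}ᶜ : Set E) → E) :=
    MeasurableEmbedding.subtype_coe (measurableSet_singleton 0).compl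
  have h4 : μ.restrict ({0}ᶜ : Set E) = (μ.comap (Subtype.val : ({0}ᶜ : Set E) → E)).map Subtype.val := by
    rw [hm.map_comap, Subtype.range_coe]
  have h5 : μ.restrict ({0}ᶜ : Set E) = μ := by
    apply Measure.restrict_eq_self_of_ae_mem
    rw [ae_iff]
    simp
  rw [← h5, h4, hm.ae_map_iff]
  filter_upwards [h3] with x hx ζ hζ
  have : ζ = (homeomorphUnitSphereProd E x).1 := by
    apply Subtype.ext
    rw [hζ]
    simp
  rw [this]
  exact hx

/-- For every n ≥ 2 there is a bounded holomorphic function on the unit ball of ℂⁿ whose restriction to almost every radius r ↦ f(rζ), 0 ≤ r < 1, has infinite total variation, i.e. a nonrectifiable image. -/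
theorem result :
    ∀ n : ℕ, 2 ≤ n →
      ∃ f : (Fin n → ℂ) → ℂ,
        DifferentiableOn ℂ f {z : Fin n → ℂ | ∑ i, ‖z i‖ ^ 2 < 1} ∧
        (∃ M : ℝ, ∀ z ∈ {z : Fin n → ℂ | ∑ i, ‖z i‖ ^ 2 < 1}, ‖f z‖ ≤ M) ∧
        ∀ᵐ x ∂(volume : Measure (Fin n → ℂ)),
          eVariationOn
            (fun r : ℝ => f ((((r / Real.sqrt (∑ i, ‖x i‖ ^ 2) : ℝ)) : ℂ) • x))
            (Set.Ico (0 : ℝ) 1) = ⊤ := by
  intro n hn
  have : Nonempty (Fin n) := ⟨⟨0, by omega⟩⟩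
  let L : (Fin n → ℂ) ≃L[ℝ] EuclideanSpace ℂ (Fin n) :=
    (PiLp.continuousLinearEquiv 2 ℝ (fun _ : Fin n => ℂ)).symm
  let LC : (Fin n → ℂ) ≃L[ℂ] EuclideanSpace ℂ (Fin n) :=
    (PiLp.continuousLinearEquiv 2 ℂ (fun _ : Fin n => ℂ)).symm
  have hnorm : ∀ z : Fin n → ℂ, ‖LC z‖ = Real.sqrt (∑ i, ‖z i‖ ^ 2) := by
    intro z
    rw [EuclideanSpace.norm_eq]
    rfl
  have hball : ∀ z : Fin n → ℂ, ∑ i, ‖z i‖ ^ 2 < 1 ↔ LC z ∈ Metric.ball (0 : EuclideanSpace ℂ (Fin n)) 1 := by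
    intro z
    rw [mem_ball_zero_iff, hnorm, Real.sqrt_lt' one_pos, one_pow]
  let μ : Measure (EuclideanSpace ℂ (Fin n)) := (volume : Measure (Fin n → ℂ)).map L
  have hμ : μ.IsAddHaarMeasure := L.isAddHaarMeasure_map _
  obtain ⟨F, hFd, hFb, r, hr, hr0, hr1, hF⟩ := main2 (n := n) (by omega) μ.toSphere
  refine ⟨fun z => F (LC z), ?_, ⟨1, ?_⟩, ?_⟩
  · apply hFd.comp LC.differentiable.differentiableOn
    intro z hz
    exact (hball z).1 hz
  · intro z hz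
    exact hFb _ ((hball z).1 hz)
  · have h1 := ae_dir μ hF
    have h2 : ∀ᵐ x ∂(volume : Measure (Fin n → ℂ)), ∀ ζ : Metric.sphere (0 : EuclideanSpace ℂ (Fin n)) 1,
        (ζ : EuclideanSpace ℂ (Fin n)) = ‖L x‖⁻¹ • L x →
          ∀ C : ℝ, ∃ m, C < ∑ k ∈ Finset.range m, ‖F ((r (k+1) : ℂ) • ζ.1) - F ((r k : ℂ) • ζ.1)‖ :=
      ae_of_ae_map L.continuous.measurable.aemeasurable h1
    have h3 : ∀ᵐ x ∂(volume : Measure (Fin n → ℂ)), x ≠ 0 := by
      rw [ae_iff]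
      simp
    filter_upwards [h2, h3] with x hx hx0
    have hLx : L x ≠ 0 := by
      intro h
      exact hx0 (L.injective (by rw [h, map_zero]))
    have hn0 : ‖L x‖ ≠ 0 := norm_ne_zero_iff.2 hLx
    let ζ : Metric.sphere (0 : EuclideanSpace ℂ (Fin n)) 1 := ⟨‖L x‖⁻¹ • L x, by
      rw [mem_sphere_zero_iff_norm, norm_smul, norm_inv, norm_norm, inv_mul_cancel₀ hn0]⟩
    have hζ := hx ζ rfl
    have hval : ∀ t : ℝ, F (LC ((((t / Real.sqrt (∑ i, ‖x i‖ ^ 2) : ℝ)) : ℂ) • x)) = F ((t : ℂ) • ζ.1) := by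
      intro t
      congr 1
      rw [← hnorm x, map_smul]
      show _ = (t : ℂ) • (‖L x‖⁻¹ • L x)
      have : L x = LC x := rfl
      rw [this]
      ext i
      simp [div_eq_mul_inv, mul_assoc]
    rw [eq_top_iff]
    refine ENNReal.le_of_forall_nnreal_lt ?_
    intro C _
    obtain ⟨m, hm⟩ := hζ C
    have h4 := eVariationOn.sum_le (f := fun t : ℝ => F (LC ((((t / Real.sqrt (∑ i, ‖x i‖ ^ 2) : ℝ)) : ℂ) • x)))
      (s := Set.Ico (0:ℝ) 1) (n := m) hr (fun i => ⟨hr0 i, hr1 i⟩)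
    refine le_trans ?_ h4
    have h5 : ∑ i ∈ Finset.range m, edist (F (LC ((((r (i+1) / Real.sqrt (∑ i, ‖x i‖ ^ 2) : ℝ)) : ℂ) • x)))
        (F (LC ((((r i / Real.sqrt (∑ i, ‖x i‖ ^ 2) : ℝ)) : ℂ) • x))) =
        ENNReal.ofReal (∑ k ∈ Finset.range m, ‖F ((r (k+1) : ℂ) • ζ.1) - F ((r k : ℂ) • ζ.1)‖) := by
      rw [ENNReal.ofReal_sum_of_nonneg (fun _ _ => norm_nonneg _)]
      refine Finset.sum_congr rfl (fun k _ => ?_)
      rw [hval, hval, edist_dist, dist_eq_norm]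
    rw [h5]
    rw [← ENNReal.ofReal_coe_nnreal]
    exact ENNReal.ofReal_le_ofReal hm.le

end Pool.Agent.S04135
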