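-- The conjecture fails for d = 3, α = 2, p = 3, the kernel K(x) = (x₁x₂, x₂x₀, x₀x₁) / |x|³ (whose
-- multiplier is T(ξ/|ξ|) / |ξ|² with T(ζ) = -(2/π) (ζ₁ζ₂, ζ₂ζ₀, ζ₀ζ₁)) and Φ(y) = max(0, -y₀y₁y₂): the
-- product of the components of K(x) is nonnegative, so Φ vanishes on the range of K and is T-cancelling,
-- but Φ is positive on most of the range of -K, and the integral diverges logarithmically for
-- f = g - 27^n g(3^n ·), g a bump function (helpers in Pool/Agent/J4/H70/Mazya).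
import Pool.Statements.S04452
import Pool.Agent.J4.H70.Mazya.Sphere

set_option autoImplicit false
open MeasureTheory
open Pool Pool.MP_40db9a_an

namespace Pool.Agent.S04452

open Pool.Agent.J4.H70

/-- The negation of the preceding statement: For smooth weakly cancelling T, kernel K of the multiplier ∣ξ∣^-α(T_e - i T_o), and p-homogeneous locally Lipschitz Φ: ∣∫Φ(K*f)∣ ≤ C‖f‖₁^p for all mean-zero test f iff Φ∘K integrates to 0 on the sphere. -/
theorem result :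
    ¬ (∀ (d ℓ : ℕ), 1 ≤ d → 1 ≤ ℓ → ∀ α : ℝ, 0 < α → α < (d : ℝ) →
  ∀ T : EuclideanSpace ℝ (Fin d) → (Fin ℓ → ℝ),
    ContDiff ℝ ((⊤ : ℕ∞) : WithTop ℕ∞) T →
    ∫ θ, T (θ : EuclideanSpace ℝ (Fin d))
        ∂((volume : Measure (EuclideanSpace ℝ (Fin d))).toSphere) = 0 →
  ∀ Φ : (Fin ℓ → ℝ) → ℝ, LocallyLipschitz Φ →
    (∀ t : ℝ, 0 < t → ∀ y : Fin ℓ → ℝ,
        Φ (t • y) = t ^ ((d : ℝ) / ((d : ℝ) - α)) * Φ y) →
  ∀ K : EuclideanSpace ℝ (Fin d) → (Fin ℓ → ℝ),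
    ContinuousOn K {x | x ≠ 0} →
    (∀ t : ℝ, 0 < t → ∀ x : EuclideanSpace ℝ (Fin d), x ≠ 0 →
        K (t • x) = t ^ (α - (d : ℝ)) • K x) →
    (∀ f : EuclideanSpace ℝ (Fin d) → ℝ,
        ContDiff ℝ ((⊤ : ℕ∞) : WithTop ℕ∞) f → HasCompactSupport f →
        ∀ x : EuclideanSpace ℝ (Fin d), ∀ j : Fin ℓ,
          (((∫ y, K (x - y) j * f y : ℝ)) : ℂ) =
            ∫ ξ, ((‖ξ‖ ^ (-α) : ℝ) : ℂ) *
              ((((T (‖ξ‖⁻¹ • ξ) j + T (-(‖ξ‖⁻¹ • ξ)) j) / 2 : ℝ) : ℂ)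
                - Complex.I * (((T (‖ξ‖⁻¹ • ξ) j - T (-(‖ξ‖⁻¹ • ξ)) j) / 2 : ℝ) : ℂ)) *
              (∫ y, Complex.exp (-(2 * (Real.pi : ℂ) * Complex.I * ((inner ℝ y ξ : ℝ) : ℂ)))
                    * ((f y : ℝ) : ℂ)) *
              Complex.exp (2 * (Real.pi : ℂ) * Complex.I * ((inner ℝ x ξ : ℝ) : ℂ))) →
    ((∃ C : ℝ, ∀ f : EuclideanSpace ℝ (Fin d) → ℝ,
        ContDiff ℝ ((⊤ : ℕ∞) : WithTop ℕ∞) f → HasCompactSupport f →
        ∫ x, f x = 0 →
        |∫ x, Φ (fun j : Fin ℓ => ∫ y, K (x - y) j * f y)|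
          ≤ C * (∫ x, |f x|) ^ ((d : ℝ) / ((d : ℝ) - α)))
      ↔ ∫ θ, Φ (K (θ : EuclideanSpace ℝ (Fin d)))
            ∂((volume : Measure (EuclideanSpace ℝ (Fin d))).toSphere) = 0)) := by
  intro H
  have hne : ∀ a : Fin 3, a + 1 ≠ a + 2 := by decide
  have h := H 3 3 (by norm_num) (by norm_num) 2 (by norm_num) (by norm_num)
    (fun x a => -(2 / Real.pi) * (x (a + 1) * x (a + 2)))
    (by
      rw [contDiff_pi]
      intro a
      fun_prop)
    (by
      funext a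
      rw [MeasureTheory.eval_integral]
      · rw [integral_const_mul, Maz.sphere_int (hne a), mul_zero]
        rfl
      · intro b
        have hc : Continuous fun θ : Metric.sphere (0 : EuclideanSpace ℝ (Fin 3)) 1 =>
            -(2 / Real.pi) * ((θ : EuclideanSpace ℝ (Fin 3)) (b + 1) *
              (θ : EuclideanSpace ℝ (Fin 3)) (b + 2)) := by fun_prop
        exact hc.integrable_of_hasCompactSupport (HasCompactSupport.of_compactSpace _))
    Maz.PP Maz.PP_lip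
    (by
      intro t ht y
      rw [Maz.PP_hom t ht y]
      congr 1
      rw [show ((3 : ℕ) : ℝ) / (((3 : ℕ) : ℝ) - 2) = ((3 : ℕ) : ℝ) by norm_num, Real.rpow_natCast])
    (fun x a => Maz.kk (a + 1) (a + 2) x)
    (by
      rw [continuousOn_pi]
      intro a
      unfold Maz.kk
      refine ContinuousOn.div (by fun_prop) (by fun_prop) fun x hx => ?_
      exact pow_ne_zero _ (norm_ne_zero_iff.2 hx))
    (by
      intro t ht x _
      funext a
      simp only [Pi.smul_apply, smul_eq_mul]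
      rw [Maz.kk_smul _ _ ht, show (2 : ℝ) - ((3 : ℕ) : ℝ) = -1 by norm_num, Real.rpow_neg_one])
    (by
      intro f hf hc x a
      rw [Maz.kernel_ft hf hc (a + 1) (a + 2) (hne a) x]
      apply integral_congr_ae
      filter_upwards [Maz.ae_ne] with ξ hξ
      have h0 : ‖ξ‖ ≠ 0 := norm_ne_zero_iff.2 hξ
      have h0c : (‖ξ‖ : ℂ) ≠ 0 := by exact_mod_cast h0
      have hpi : (Real.pi : ℂ) ≠ 0 := by exact_mod_cast Real.pi_ne_zero
      have hr : ‖ξ‖ ^ (-(2 : ℝ)) = (‖ξ‖ ^ 2)⁻¹ := by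
        rw [Real.rpow_neg (norm_nonneg _), Real.rpow_two]
      change _ = _ * Maz.fh f ξ * _
      rw [hr]
      simp only [PiLp.smul_apply, PiLp.neg_apply, smul_eq_mul]
      push_cast
      field_simp
      ring)
  have hz : ∫ θ, Maz.PP ((fun (x : EuclideanSpace ℝ (Fin 3)) (a : Fin 3) =>
      Maz.kk (a + 1) (a + 2) x) (θ : EuclideanSpace ℝ (Fin 3)))
            ∂((volume : Measure (EuclideanSpace ℝ (Fin 3))).toSphere) = 0 := by
    have h0 : ∀ x : EuclideanSpace ℝ (Fin 3), Maz.PP (fun a => Maz.kk (a + 1) (a + 2) x) = 0 := by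
      intro x
      have e : (fun a : Fin 3 => Maz.kk (a + 1) (a + 2) x) =
        ![Maz.kk 1 2 x, Maz.kk 2 0 x, Maz.kk 0 1 x] := by
        funext a
        fin_cases a <;> rfl
      rw [e]
      unfold Maz.PP
      apply max_eq_left
      simp only [Matrix.cons_val_zero, Matrix.cons_val_one, Matrix.cons_val]
      rw [neg_nonpos]
      have : Maz.kk 1 2 x * Maz.kk 2 0 x * Maz.kk 0 1 x =
          (x 0 * x 1 * x 2) ^ 2 / (‖x‖ ^ 3) ^ 3 := by
        unfold Maz.kk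
        rw [div_mul_div_comm, div_mul_div_comm]
        congr 1 <;> ring
      rw [this]
      positivity
    simp only [h0, integral_zero]
  obtain ⟨C, hC⟩ := h.2 hz
  obtain ⟨c, hc, k0, hdiv⟩ := Maz.diverge
  obtain ⟨N, hN⟩ := exists_nat_gt (|C| * (2 * Maz.mass) ^ 3 / c)
  have h1 := hC (Maz.ff (k0 + N)) (Maz.ff_smooth _) (Maz.ff_cpt _) (Maz.ff_mean _)
  have h2 := hdiv (k0 + N) (Nat.le_add_right _ _)
  have e1 : ∀ x : EuclideanSpace ℝ (Fin 3), Maz.PP (fun a : Fin 3 => ∫ y,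
      (fun (x : EuclideanSpace ℝ (Fin 3)) (a : Fin 3) => Maz.kk (a + 1) (a + 2) x) (x - y) a *
        Maz.ff (k0 + N) y) = Maz.QQ (k0 + N) x := by
    intro x
    unfold Maz.QQ
    congr 1
    funext a
    exact Maz.conv_ff (k0 + N) (a + 1) (a + 2) x
  simp only [e1] at h1
  rw [show ((3 : ℕ) : ℝ) / (((3 : ℕ) : ℝ) - 2) = ((3 : ℕ) : ℝ) by norm_num, Real.rpow_natCast] at h1
  have h3 : 0 ≤ ∫ x, |Maz.ff (k0 + N) x| := integral_nonneg fun _ => abs_nonneg _
  have h4 : C * (∫ x, |Maz.ff (k0 + N) x|) ^ 3 ≤ |C| * (2 * Maz.mass) ^ 3 :=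
    mul_le_mul (le_abs_self C) (pow_le_pow_left₀ h3 (Maz.ff_norm _) 3) (by positivity)
      (abs_nonneg _)
  have h5 := (le_abs_self _).trans (h1.trans h4)
  rw [div_lt_iff₀ hc] at hN
  push_cast at h2
  rw [add_sub_cancel_left] at h2
  linarith

end Pool.Agent.S04452
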