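import Pool.Statements.S04683
import Pool.Agent.J4.H71.UN.Main

set_option autoImplicit false
open Filter Topology
open scoped ENNReal
open Pool Pool.MP_535d13_an

namespace Pool.Agent.S04683

/-- For every gauge φ (increasing, φ(0)=0, positive, continuous at 0) with r/φ(r)→0, there is a closed set of uniqueness K⊆[0,1] on the circle whose set of absolutely normal points has positive φ-Hausdorff measure. -/
theorem result :
    ∀ φ : ℝ → ℝ, MonotoneOn φ (Set.Ici 0) → φ 0 = 0 → (∀ r : ℝ, 0 < r → 0 < φ r) →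
      Tendsto φ (𝓝[>] (0:ℝ)) (𝓝 0) →
      Tendsto (fun r : ℝ => r / φ r) (𝓝[>] (0:ℝ)) (𝓝 0) →
      ∃ K : Set ℝ, IsClosed K ∧ K ⊆ Set.Icc (0:ℝ) 1 ∧
        (∀ c : ℤ → ℂ,
          (∀ x : ℝ, (∀ m : ℤ, x + (m:ℝ) ∉ K) →
            Tendsto (fun N : ℕ => ∑ n ∈ Finset.Icc (-(N:ℤ)) (N:ℤ),
              c n * Complex.exp (2 * (Real.pi:ℂ) * Complex.I * (n:ℂ) * (x:ℂ))) atTop (𝓝 0)) →
          ∀ n : ℤ, c n = 0) ∧
        0 < MeasureTheory.Measure.mkMetric (fun r : ℝ≥0∞ => ENNReal.ofReal (φ r.toReal))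
          (K ∩ {x : ℝ | ∀ b : ℕ, 2 ≤ b → ∀ k : ℕ, ∀ w : Fin k → ℤ,
            (∀ j : Fin k, 0 ≤ w j ∧ w j < (b:ℤ)) →
            Tendsto (fun N : ℕ =>
              ((((Finset.range N).filter (fun i : ℕ =>
                ∀ j : Fin k, ⌊x * (b:ℝ) ^ (i + j.val + 1)⌋ % (b:ℤ) = w j)).card : ℝ) / (N:ℝ)))
              atTop (𝓝 (1 / (b:ℝ) ^ k))}) := by
  intro φ _hmono hφ0 hpos _hcont hφ
  obtain ⟨M, hM, hsq, hMφ⟩ := Pool.Agent.J4.H71.UN.exists_M φ hpos hφ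
  refine ⟨Set.range (Pool.Agent.J4.H71.UN.X M), Pool.Agent.J4.H71.UN.isClosed_range_X hM, ?_,
    Pool.Agent.J4.H71.UN.uniq hM, ?_⟩
  · rintro x ⟨ω, rfl⟩
    have h := Pool.Agent.J4.H71.UN.X_mem hM ω
    exact ⟨h.1, h.2.trans (by norm_num)⟩
  · set T : Set ℝ := {x : ℝ | ∀ b : ℕ, 2 ≤ b → ∀ k : ℕ, ∀ w : Fin k → ℤ,
            (∀ j : Fin k, 0 ≤ w j ∧ w j < (b:ℤ)) →
            Tendsto (fun N : ℕ =>
              ((((Finset.range N).filter (fun i : ℕ =>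
                ∀ j : Fin k, ⌊x * (b:ℝ) ^ (i + j.val + 1)⌋ % (b:ℤ) = w j)).card : ℝ) / (N:ℝ)))
              atTop (𝓝 (1 / (b:ℝ) ^ k))} with hT
    have hXm : Measurable (Pool.Agent.J4.H71.UN.X M) :=
      (Pool.Agent.J4.H71.UN.continuous_X hM).measurable
    have hle : (3 : ℝ≥0∞)⁻¹ • (Pool.Agent.J4.H71.UN.P M).map (Pool.Agent.J4.H71.UN.X M) ≤
        MeasureTheory.Measure.mkMetric (fun r : ℝ≥0∞ => ENNReal.ofReal (φ r.toReal)) := by
      apply MeasureTheory.Measure.le_mkMetric _ _ (ENNReal.ofReal ((1 / 2) ^ (M 1 + 1)))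
        (by rw [ENNReal.ofReal_pos]; positivity)
      intro s hs
      have h1 := Pool.Agent.J4.H71.UN.mass hM φ hφ0 hMφ s hs
      rw [MeasureTheory.Measure.smul_apply, smul_eq_mul]
      calc (3 : ℝ≥0∞)⁻¹ * (Pool.Agent.J4.H71.UN.P M).map (Pool.Agent.J4.H71.UN.X M) s
          ≤ 3⁻¹ * (3 * ENNReal.ofReal (φ (Metric.ediam s).toReal)) := by gcongr
        _ = ENNReal.ofReal (φ (Metric.ediam s).toReal) := by
            rw [← mul_assoc, ENNReal.inv_mul_cancel (by norm_num) (by norm_num), one_mul]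
    refine lt_of_lt_of_le ?_ (hle _)
    rw [MeasureTheory.Measure.smul_apply, smul_eq_mul]
    apply ENNReal.mul_pos
    · simp
    · have h2 := MeasureTheory.Measure.le_map_apply (μ := Pool.Agent.J4.H71.UN.P M)
        hXm.aemeasurable (Set.range (Pool.Agent.J4.H71.UN.X M) ∩ T)
      have h3 : Pool.Agent.J4.H71.UN.P M (Pool.Agent.J4.H71.UN.X M ⁻¹'
          (Set.range (Pool.Agent.J4.H71.UN.X M) ∩ T)) = 1 := by
        have h5 := Pool.Agent.J4.H71.UN.ae_normal hM hsq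
        have h6 : ∀ᵐ ω ∂(Pool.Agent.J4.H71.UN.P M), ω ∈ Pool.Agent.J4.H71.UN.X M ⁻¹'
            (Set.range (Pool.Agent.J4.H71.UN.X M) ∩ T) := by
          filter_upwards [h5] with ω hω
          exact ⟨⟨ω, rfl⟩, hω⟩
        have h7 : Pool.Agent.J4.H71.UN.P M (Pool.Agent.J4.H71.UN.X M ⁻¹'
            (Set.range (Pool.Agent.J4.H71.UN.X M) ∩ T)) =
            Pool.Agent.J4.H71.UN.P M Set.univ :=
          MeasureTheory.measure_congr (Filter.eventuallyEq_univ.2 h6)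
        rw [h7, MeasureTheory.measure_univ]
      rw [h3] at h2
      intro h4
      rw [h4] at h2
      simp at h2

end Pool.Agent.S04683
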