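import Pool.Statements.S05156
-- import your own Pool.Agent.* helpers here

set_option autoImplicit false
open Pool Pool.MP_7d5b5f_an

namespace Pool.Agent.S05156

/-- The negation of the preceding statement: For each p>1 there is C, independent of dimension d and coordinate k, so the discrete Riesz transform with kernel Γ((d+1)/2)π^{-(d+1)/2} x_k/∣x∣^{d+1} on ℤ^d is bounded on ℓ^p with norm at most C (tested on finitely supported f). -/
theorem result :
    ¬ (∀ p : ℝ, 1 < p → ∃ C : ℝ, 0 < C ∧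
      ∀ (d : ℕ) (k : Fin d) (S T : Finset (Fin d → ℤ)) (f : (Fin d → ℤ) → ℝ),
        ∑ n ∈ T, |∑ m ∈ S,
            ((Real.Gamma (((d : ℝ) + 1) / 2) / Real.pi ^ (((d : ℝ) + 1) / 2)) *
              (((n k - m k : ℤ) : ℝ) /
                (Real.sqrt (∑ i, (((n i - m i : ℤ) : ℝ)) ^ 2)) ^ (d + 1))) * f m| ^ p
          ≤ C ^ p * ∑ m ∈ S, |f m| ^ p) := by
  intro H
  obtain ⟨C, hC, h⟩ := H 2 (by norm_num)
  -- choose `n` with `(C + 1) * π ^ (n + 1) < n !`
  have hlim : Filter.Tendsto (fun n : ℕ => Real.pi ^ n / (n.factorial : ℝ)) Filter.atTop (nhds 0) :=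
    FloorSemiring.tendsto_pow_div_factorial_atTop Real.pi
  have hpos : (0 : ℝ) < 1 / ((C + 1) * Real.pi) := by positivity
  obtain ⟨n, hn⟩ := (hlim.eventually (gt_mem_nhds hpos)).exists
  have hfac : (0 : ℝ) < (n.factorial : ℝ) := by positivity
  have hn' : (C + 1) * Real.pi ^ (n + 1) < (n.factorial : ℝ) := by
    have hCp : (0 : ℝ) < (C + 1) * Real.pi := by positivity
    rw [div_lt_div_iff₀ hfac hCp] at hn
    calc (C + 1) * Real.pi ^ (n + 1) = Real.pi ^ n * ((C + 1) * Real.pi) := by ring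
      _ < 1 * (n.factorial : ℝ) := hn
      _ = (n.factorial : ℝ) := one_mul _
  -- the dimension `d = 2 n + 1`
  have h1 := h (2 * n + 1) 0 {0} {Pi.single 0 1} (fun _ => 1)
  simp only [Finset.sum_singleton] at h1
  have e1 : (((2 * n + 1 : ℕ) : ℝ) + 1) / 2 = (n : ℝ) + 1 := by
    push_cast
    ring
  have e2 : ∀ i : Fin (2 * n + 1),
      ((((Pi.single (0 : Fin (2 * n + 1)) (1 : ℤ) : Fin (2 * n + 1) → ℤ) i
        - (0 : Fin (2 * n + 1) → ℤ) i : ℤ)) : ℝ) ^ 2 = if i = 0 then 1 else 0 := by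
    intro i
    by_cases hi : i = 0
    · subst hi
      simp
    · simp [hi]
  have e3 : (∑ i : Fin (2 * n + 1), ((((Pi.single (0 : Fin (2 * n + 1)) (1 : ℤ) :
      Fin (2 * n + 1) → ℤ) i - (0 : Fin (2 * n + 1) → ℤ) i : ℤ)) : ℝ) ^ 2) = 1 := by
    rw [Finset.sum_congr rfl fun i _ => e2 i]
    simp
  rw [e3, e1, Real.Gamma_nat_eq_factorial] at h1
  have e4 : Real.pi ^ ((n : ℝ) + 1) = Real.pi ^ (n + 1) := by
    rw [← Real.rpow_natCast]
    push_cast
    rfl
  rw [e4] at h1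
  simp only [Pi.single_eq_same, Pi.zero_apply, sub_zero, Int.cast_one, Real.sqrt_one, one_pow,
    div_one, mul_one, abs_one, Real.one_rpow] at h1
  have hpi : (0 : ℝ) < Real.pi ^ (n + 1) := by positivity
  have h2 : C + 1 < (n.factorial : ℝ) / Real.pi ^ (n + 1) := by
    rw [lt_div_iff₀ hpi]
    exact hn'
  have h3 : 0 ≤ (n.factorial : ℝ) / Real.pi ^ (n + 1) := by positivity
  rw [abs_of_nonneg h3, Real.rpow_two, Real.rpow_two] at h1
  nlinarith

end Pool.Agent.S05156
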