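import Pool.Statements.S05648
import Pool.Agent.J4.H76.HS.Main

set_option autoImplicit false
open MeasureTheory Filter Topology
open Pool Pool.MP_a271d0_an

namespace Pool.Agent.S05648

/-- The negation of the preceding statement: For every N≥3, smooth bounded domain Ω in R^N with 0 on its boundary, s in (0,2) and 2*(s)-1<p<(N+2)/(N-2), there is an H^1_0 function u>0 on Ω weakly solving Δu - u^p + u^(2*(s)-1)/∣x∣^s = 0. -/
theorem result :
    ¬ (∀ (N : ℕ), 3 ≤ N →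
  ∀ (Ω : Set (EuclideanSpace ℝ (Fin N))),
    IsOpen Ω → IsConnected Ω → Bornology.IsBounded Ω →
    (∃ ρ : EuclideanSpace ℝ (Fin N) → ℝ,
        ContDiff ℝ ((⊤ : ℕ∞) : WithTop ℕ∞) ρ ∧ Ω = {x | ρ x < 0} ∧
        ∀ x ∈ frontier Ω, fderiv ℝ ρ x ≠ 0) →
    (0 : EuclideanSpace ℝ (Fin N)) ∈ frontier Ω →
  ∀ s : ℝ, 0 < s → s < 2 →
  ∀ p : ℝ, 2 * ((N : ℝ) - s) / ((N : ℝ) - 2) - 1 < p →
    p < ((N : ℝ) + 2) / ((N : ℝ) - 2) →
  ∃ u : EuclideanSpace ℝ (Fin N) → ℝ,
  ∃ G : EuclideanSpace ℝ (Fin N) → EuclideanSpace ℝ (Fin N),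
    MemLp u 2 volume ∧ MemLp G 2 volume ∧
    (∃ φ : ℕ → EuclideanSpace ℝ (Fin N) → ℝ,
        (∀ n, ContDiff ℝ ((⊤ : ℕ∞) : WithTop ℕ∞) (φ n) ∧
              HasCompactSupport (φ n) ∧ tsupport (φ n) ⊆ Ω) ∧
        Tendsto (fun n => eLpNorm (fun x => φ n x - u x) 2 volume) atTop (𝓝 0) ∧
        Tendsto (fun n => eLpNorm (fun x => gradient (φ n) x - G x) 2 volume)
          atTop (𝓝 0)) ∧
    (∀ᵐ x ∂(volume : Measure (EuclideanSpace ℝ (Fin N))), x ∈ Ω → 0 < u x) ∧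
    ∀ ψ : EuclideanSpace ℝ (Fin N) → ℝ,
      ContDiff ℝ ((⊤ : ℕ∞) : WithTop ℕ∞) ψ → HasCompactSupport ψ → tsupport ψ ⊆ Ω →
        Integrable (fun x => inner ℝ (G x) (gradient ψ x)) volume ∧
        Integrable (fun x => u x ^ p * ψ x) volume ∧
        Integrable (fun x => u x ^ (2 * ((N : ℝ) - s) / ((N : ℝ) - 2) - 1) * ψ x / ‖x‖ ^ s)
          volume ∧
        ∫ x, (inner ℝ (G x) (gradient ψ x) + u x ^ p * ψ x
              - u x ^ (2 * ((N : ℝ) - s) / ((N : ℝ) - 2) - 1) * ψ x / ‖x‖ ^ s) = 0) := by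
  intro hall
  obtain ⟨e, he⟩ : ∃ e : EuclideanSpace ℝ (Fin 3), e = EuclideanSpace.single 0 1 := ⟨_, rfl⟩
  have hen : ‖e‖ = 1 := by rw [he]; simp
  have hΩo : IsOpen (Metric.ball e 1) := Metric.isOpen_ball
  have hΩn : (Metric.ball e 1).Nonempty := ⟨e, Metric.mem_ball_self one_pos⟩
  have hfr : frontier (Metric.ball e 1) = Metric.sphere e 1 := frontier_ball e one_ne_zero
  have h := hall 3 le_rfl (Metric.ball e 1) hΩo
    ((convex_ball e 1).isConnected hΩn) Metric.isBounded_ball ?_ ?_ 1 one_pos (by norm_num) 4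
    (by norm_num) (by norm_num)
  · obtain ⟨u, G, hu, hG, ⟨φ, hφ, hφu, hφG⟩, hpos, hweak⟩ := h
    refine Pool.Agent.J4.H76.HS.no_solution (Ω := Metric.ball e 1) (u := u) (G := G) ?_ ?_ hΩo hΩn
      ⟨hu, hG, φ, hφ, hφu, hφG⟩ hpos ?_
    · intro y hy t ht0 ht1
      rw [mem_ball_iff_norm] at hy ⊢
      have h1 : ‖y - e‖ ^ 2 < 1 := by
        have := norm_nonneg (y - e)
        nlinarith
      rw [norm_sub_sq_real, hen] at h1
      have h2 : ‖t • y - e‖ ^ 2 < 1 := by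
        rw [norm_sub_sq_real, hen, norm_smul, Real.norm_eq_abs, abs_of_pos ht0, real_inner_smul_left]
        have h3 : ‖y‖ ^ 2 < 2 * inner ℝ y e := by linarith
        have h4 : 0 ≤ ‖y‖ ^ 2 := sq_nonneg _
        nlinarith [mul_nonneg ht0.le h4, mul_le_mul_of_nonneg_left ht1 (mul_nonneg ht0.le h4)]
      have h5 := norm_nonneg (t • y - e)
      nlinarith
    · intro y hy
      rw [mem_ball_iff_norm] at hy
      rw [mem_closedBall_zero_iff]
      have : ‖y‖ ≤ ‖y - e‖ + ‖e‖ := by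
        have := norm_add_le (y - e) e
        rwa [sub_add_cancel] at this
      linarith
    · intro ψ hψ
      obtain ⟨-, -, -, h0⟩ := hweak ψ hψ.1 hψ.2.1 hψ.2.2
      rw [← h0]
      refine MeasureTheory.integral_congr_ae (Filter.Eventually.of_forall fun x => ?_)
      simp only
      have e1 : (2 * (((3 : ℕ) : ℝ) - 1) / (((3 : ℕ) : ℝ) - 2) - 1) = ((3 : ℕ) : ℝ) := by norm_num
      have e2 : (4 : ℝ) = ((4 : ℕ) : ℝ) := by norm_num
      rw [e1, Real.rpow_one, e2, Real.rpow_natCast, Real.rpow_natCast]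
  · refine ⟨fun x => ‖x - e‖ ^ 2 - 1, ?_, ?_, ?_⟩
    · exact ((contDiff_id.sub contDiff_const).norm_sq ℝ).sub contDiff_const
    · ext x
      rw [mem_ball_iff_norm]
      change ‖x - e‖ < 1 ↔ ‖x - e‖ ^ 2 - 1 < 0
      have := norm_nonneg (x - e)
      constructor
      · intro hx
        nlinarith
      · intro hx
        nlinarith
    · intro x hx h0
      rw [hfr, mem_sphere_iff_norm] at hx
      have hd : HasFDerivAt (fun x : EuclideanSpace ℝ (Fin 3) => ‖x - e‖ ^ 2 - 1)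
          (2 • (innerSL ℝ (x - e))) x := by
        have h1 := ((hasStrictFDerivAt_norm_sq (x - e)).hasFDerivAt.comp x
          ((hasFDerivAt_id x).sub_const e)).sub_const 1
        exact h1
      rw [hd.fderiv] at h0
      have h2 := congrArg (fun L => L (x - e)) h0
      simp only [smul_apply, innerSL_apply_apply, zero_apply] at h2
      rw [real_inner_self_eq_norm_sq, hx] at h2
      norm_num at h2
  · rw [hfr, mem_sphere_iff_norm, zero_sub, norm_neg, hen]

end Pool.Agent.S05648
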