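import Pool.Statements.S07995

set_option autoImplicit false
open Pool Pool.MP_32c2cb_co

/-!
Reversing families of permutations have at most `4 ^ n` members.

The permutation matrix `P σ` acts on the exterior algebra of `ℝ^n`, a space of dimension `2 ^ n`, and
the trace of the action of `σ⁻¹ π` is `det (1 + P (σ⁻¹ π))`, which is zero if `σ⁻¹ π` has a cycle of
length two. So the operators of the members of a reversing family are pairwise orthogonal. Below the
entries of these operators are the vectors `vec σ`.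
-/

namespace Pool.Agent.S07995

open Finset

/-- the order sign of two points -/
def sg {n : ℕ} (a b : Fin n) : ℝ := if a < b then 1 else -1

lemma sg_sq {n : ℕ} (a b : Fin n) : sg a b * sg a b = 1 := by
  unfold sg; split_ifs <;> norm_num

lemma sg_anti {n : ℕ} {a b : Fin n} (h : a ≠ b) : sg a b * sg b a = -1 := by
  unfold sg
  rcases lt_or_gt_of_ne h with h1 | h1
  · rw [if_pos h1, if_neg (not_lt.2 h1.le)]; norm_num
  · rw [if_neg (not_lt.2 h1.le), if_pos h1]; norm_num

/-- the factor of an ordered pair in the sign of `σ` on a set -/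
def r {n : ℕ} (σ : Equiv.Perm (Fin n)) (a b : Fin n) : ℝ := if a < b then sg (σ a) (σ b) else 1

/-- the sign of the restriction of `σ` to `S` -/
def e {n : ℕ} (σ : Equiv.Perm (Fin n)) (S : Finset (Fin n)) : ℝ := ∏ a ∈ S, ∏ b ∈ S, r σ a b

/-- the factor of an unordered pair -/
lemma r_pair {n : ℕ} (σ : Equiv.Perm (Fin n)) {a b : Fin n} (h : a ≠ b) :
    r σ a b * r σ b a = sg a b * sg (σ a) (σ b) := by
  have h' : σ a ≠ σ b := fun hc => h (σ.injective hc)
  unfold r
  rcases lt_or_gt_of_ne h with h1 | h1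
  · rw [if_pos h1, if_neg (not_lt.2 h1.le)]
    have : sg a b = 1 := by unfold sg; rw [if_pos h1]
    rw [this]; ring
  · rw [if_neg (not_lt.2 h1.le), if_pos h1]
    have : sg a b = -1 := by unfold sg; rw [if_neg (not_lt.2 h1.le)]
    rw [this]
    have h3 := sg_anti h'
    have h4 := sg_sq (σ a) (σ b)
    have h5 : sg (σ b) (σ a) = - sg (σ a) (σ b) := by
      calc sg (σ b) (σ a) = (sg (σ a) (σ b) * sg (σ a) (σ b)) * sg (σ b) (σ a) := by
            rw [h4, one_mul]
        _ = sg (σ a) (σ b) * (sg (σ a) (σ b) * sg (σ b) (σ a)) := by ring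
        _ = _ := by rw [h3]; ring
    rw [h5]; ring

/-- the change of the sign by a new point -/
lemma e_insert {n : ℕ} (σ : Equiv.Perm (Fin n)) {S : Finset (Fin n)} {i : Fin n} (hi : i ∉ S) :
    e σ (insert i S) = e σ S * ((∏ b ∈ S, sg i b) * ∏ b ∈ S, sg (σ i) (σ b)) := by
  have h0 : r σ i i = 1 := by unfold r; rw [if_neg (lt_irrefl _)]
  unfold e
  rw [prod_insert hi]
  simp only [prod_insert hi]
  rw [h0, one_mul, prod_mul_distrib]
  have h1 : (∏ b ∈ S, r σ i b) * ∏ b ∈ S, r σ b i = (∏ b ∈ S, sg i b) * ∏ b ∈ S, sg (σ i) (σ b) := by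
    rw [← prod_mul_distrib, ← prod_mul_distrib]
    refine prod_congr rfl fun b hb => r_pair σ ?_
    rintro rfl
    exact hi hb
  calc (∏ b ∈ S, r σ i b) * ((∏ a ∈ S, r σ a i) * ∏ a ∈ S, ∏ b ∈ S, r σ a b)
      = (∏ a ∈ S, ∏ b ∈ S, r σ a b) * ((∏ b ∈ S, r σ i b) * ∏ b ∈ S, r σ b i) := by ring
    _ = _ := by rw [h1]

lemma prod_sg_sq {n : ℕ} (S : Finset (Fin n)) (f g : Fin n → Fin n) :
    (∏ b ∈ S, sg (f b) (g b)) * ∏ b ∈ S, sg (f b) (g b) = 1 := by
  rw [← prod_mul_distrib]
  exact prod_eq_one fun b _ => sg_sq _ _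

/-- the product over the image -/
lemma prod_sg_image {n : ℕ} {σ π : Equiv.Perm (Fin n)} {S : Finset (Fin n)}
    (h : S.image σ = S.image π) (c : Fin n) :
    ∏ b ∈ S, sg c (σ b) = ∏ b ∈ S, sg c (π b) := by
  rw [← Finset.prod_image (s := S) (g := σ) (f := fun x => sg c x) (fun x _ y _ hxy => σ.injective hxy),
    ← Finset.prod_image (s := S) (g := π) (f := fun x => sg c x) (fun x _ y _ hxy => π.injective hxy), h]

/-- adding two reversed points changes the sign -/
lemma toggle {n : ℕ} {σ π : Equiv.Perm (Fin n)} {S : Finset (Fin n)} {i j : Fin n} (hij : i ≠ j)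
    (hi : i ∉ S) (hj : j ∉ S) (h1 : σ i = π j) (h2 : σ j = π i) (h : S.image σ = S.image π) :
    e σ (insert i (insert j S)) * e π (insert i (insert j S)) = -(e σ S * e π S) := by
  have hi' : i ∉ insert j S := by
    rw [mem_insert]; push Not; exact ⟨hij, hi⟩
  rw [e_insert σ hi', e_insert π hi', e_insert σ hj, e_insert π hj]
  rw [prod_insert hj, prod_insert hj, prod_insert hj]
  rw [← prod_sg_image h (π i), ← prod_sg_image h (π j), ← h1, ← h2]
  have a1 := prod_sg_sq S (fun _ => i) (fun b => b)
  have a2 := prod_sg_sq S (fun _ => j) (fun b => b)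
  have a3 := prod_sg_sq S (fun _ => σ i) (fun b => σ b)
  have a4 := prod_sg_sq S (fun _ => σ j) (fun b => σ b)
  have a5 := sg_sq i j
  have hσ : σ i ≠ σ j := fun hc => hij (σ.injective hc)
  have a6 := sg_anti hσ
  set A := ∏ b ∈ S, sg i b
  set B := ∏ b ∈ S, sg j b
  set C := ∏ b ∈ S, sg (σ i) (σ b)
  set D := ∏ b ∈ S, sg (σ j) (σ b)
  calc e σ S * (B * D) * (sg i j * A * (sg (σ i) (σ j) * C)) *
        (e π S * (B * C) * (sg i j * A * (sg (σ j) (σ i) * D)))
      = (e σ S * e π S) * (A * A) * (B * B) * (C * C) * (D * D) * (sg i j * sg i j) *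
          (sg (σ i) (σ j) * sg (σ j) (σ i)) := by ring
    _ = _ := by rw [a1, a2, a3, a4, a5, a6]; ring

/-- the terms of the inner product -/
def F {n : ℕ} (σ π : Equiv.Perm (Fin n)) (S : Finset (Fin n)) : ℝ :=
  if S.image σ = S.image π then e σ S * e π S else 0

lemma image_insert_iff {n : ℕ} {σ π : Equiv.Perm (Fin n)} {S : Finset (Fin n)} {i j : Fin n}
    (hi : i ∉ S) (hj : j ∉ S) (h1 : σ i = π j) (h2 : σ j = π i) :
    (insert i (insert j S)).image σ = (insert i (insert j S)).image π ↔ S.image σ = S.image π := by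
  rw [image_insert, image_insert, image_insert, image_insert, ← h1, ← h2]
  constructor
  · intro h
    ext x
    have hx := Finset.ext_iff.1 h x
    simp only [mem_insert] at hx
    have b1 : σ i ∉ S.image σ := by
      intro hc
      obtain ⟨y, hy, hyy⟩ := mem_image.1 hc
      exact hi (σ.injective hyy ▸ hy)
    have b2 : σ j ∉ S.image σ := by
      intro hc
      obtain ⟨y, hy, hyy⟩ := mem_image.1 hc
      exact hj (σ.injective hyy ▸ hy)
    have b3 : σ i ∉ S.image π := by
      intro hc
      obtain ⟨y, hy, hyy⟩ := mem_image.1 hc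
      rw [h1] at hyy
      exact hj (π.injective hyy ▸ hy)
    have b4 : σ j ∉ S.image π := by
      intro hc
      obtain ⟨y, hy, hyy⟩ := mem_image.1 hc
      rw [h2] at hyy
      exact hi (π.injective hyy ▸ hy)
    by_cases c1 : x = σ i
    · subst c1; exact ⟨fun h => absurd h b1, fun h => absurd h b3⟩
    · by_cases c2 : x = σ j
      · subst c2; exact ⟨fun h => absurd h b2, fun h => absurd h b4⟩
      · simp only [c1, c2, false_or] at hx
        exact hx
  · intro h
    rw [h, insert_comm]

lemma F_toggle {n : ℕ} {σ π : Equiv.Perm (Fin n)} {S : Finset (Fin n)} {i j : Fin n}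
    (hij : i ≠ j) (hi : i ∉ S) (hj : j ∉ S) (h1 : σ i = π j) (h2 : σ j = π i) :
    F σ π (insert i (insert j S)) = -F σ π S := by
  unfold F
  by_cases h : S.image σ = S.image π
  · rw [if_pos h, if_pos ((image_insert_iff hi hj h1 h2).2 h), toggle hij hi hj h1 h2 h]
  · rw [if_neg h, if_neg (fun hc => h ((image_insert_iff hi hj h1 h2).1 hc)), neg_zero]

/-- a set with exactly one of the two points does not contribute -/
lemma F_zero {n : ℕ} {σ π : Equiv.Perm (Fin n)} {S : Finset (Fin n)} {i j : Fin n}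
    (hi : i ∈ S) (hj : j ∉ S) (h1 : σ i = π j) : F σ π S = 0 := by
  unfold F
  rw [if_neg]
  intro h
  have : σ i ∈ S.image π := by rw [← h]; exact mem_image_of_mem _ hi
  obtain ⟨y, hy, hyy⟩ := mem_image.1 this
  rw [h1] at hyy
  exact hj (π.injective hyy ▸ hy)

lemma sum_F {n : ℕ} {σ π : Equiv.Perm (Fin n)} {i j : Fin n} (hij : i ≠ j)
    (h1 : σ i = π j) (h2 : σ j = π i) : ∑ S : Finset (Fin n), F σ π S = 0 := by
  have key : ∀ S : Finset (Fin n), i ∉ S → j ∉ S →
      symmDiff S {i, j} = insert i (insert j S) := by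
    intro S hi hj
    ext x
    simp only [mem_symmDiff, mem_insert, mem_singleton]
    by_cases c1 : x = i
    · subst c1; simp [hi]
    · by_cases c2 : x = j
      · subst c2; simp [hj]
      · simp [c1, c2]
  refine sum_involution (fun S _ => symmDiff S {i, j}) ?_ ?_ ?_ ?_
  · intro S _
    by_cases hi : i ∈ S
    · by_cases hj : j ∈ S
      · set R := symmDiff S {i, j} with hR
        have hRi : i ∉ R := by rw [hR, mem_symmDiff]; simp [hi]
        have hRj : j ∉ R := by rw [hR, mem_symmDiff]; simp [hj]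
        have hS : S = symmDiff R {i, j} := by rw [hR, symmDiff_symmDiff_cancel_right]
        have h3 : S = insert i (insert j R) := by rw [← key R hRi hRj]; exact hS
        rw [h3, F_toggle hij hRi hRj h1 h2]; ring
      · rw [F_zero hi hj h1]
        have hj' : j ∈ symmDiff S {i, j} := by rw [mem_symmDiff]; simp [hj]
        have hi' : i ∉ symmDiff S {i, j} := by rw [mem_symmDiff]; simp [hi]
        rw [F_zero hj' hi' h2]; ring
    · by_cases hj : j ∈ S
      · rw [F_zero hj hi h2]
        have hi' : i ∈ symmDiff S {i, j} := by rw [mem_symmDiff]; simp [hi]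
        have hj' : j ∉ symmDiff S {i, j} := by rw [mem_symmDiff]; simp [hj]
        rw [F_zero hi' hj' h1]; ring
      · rw [key S hi hj, F_toggle hij hi hj h1 h2]; ring
  · intro S _ _ hc
    have : symmDiff S (symmDiff S {i, j}) = (∅ : Finset (Fin n)) := by rw [hc]; simp
    rw [symmDiff_symmDiff_cancel_left] at this
    simp at this
  · intro S _; exact mem_univ _
  · intro S _
    exact symmDiff_symmDiff_cancel_right _ _

/-- the entries of the action on the exterior algebra -/
noncomputable def vec {n : ℕ} (σ : Equiv.Perm (Fin n)) :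
    EuclideanSpace ℝ (Finset (Fin n) × Finset (Fin n)) :=
  WithLp.toLp 2 fun p => if p.1.image σ = p.2 then e σ p.1 else 0

lemma inner_vec {n : ℕ} (σ π : Equiv.Perm (Fin n)) :
    inner ℝ (vec σ) (vec π) = ∑ S : Finset (Fin n), F σ π S := by
  rw [PiLp.inner_apply, Fintype.sum_prod_type]
  refine sum_congr rfl fun S _ => ?_
  unfold vec F
  simp only [RCLike.inner_apply, conj_trivial]
  rw [sum_eq_single (S.image π)]
  · simp only [if_true]
    split_ifs <;> ring
  · intro T _ hT
    rw [if_neg (fun h => hT h.symm), zero_mul]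
  · intro h; exact absurd (mem_univ _) h

lemma vec_ne_zero {n : ℕ} (σ : Equiv.Perm (Fin n)) : vec σ ≠ 0 := by
  intro h
  have h1 : (vec σ) (∅, ∅) = 0 := by rw [h]; rfl
  unfold vec e at h1
  simp at h1

/-- There is a real constant C such that for every n, any set of permutations of n points in which every two distinct members swap the images of some two distinct points has at most C^n elements. -/
theorem result :
    ∃ C : ℝ, ∀ n : ℕ, ∀ A : Finset (Equiv.Perm (Fin n)),
      (∀ σ ∈ A, ∀ π ∈ A, σ ≠ π →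
        ∃ i j : Fin n, i ≠ j ∧ σ i = π j ∧ σ j = π i) →
      (A.card : ℝ) ≤ C ^ n := by
  refine ⟨4, fun n A hA => ?_⟩
  have hli : LinearIndependent ℝ (fun σ : A => vec (σ : Equiv.Perm (Fin n))) := by
    refine linearIndependent_of_ne_zero_of_inner_eq_zero (fun σ => vec_ne_zero _) ?_
    intro σ π hne
    have hne' : (σ : Equiv.Perm (Fin n)) ≠ π := fun h => hne (Subtype.ext h)
    obtain ⟨i, j, hij, h1, h2⟩ := hA σ σ.2 π π.2 hne'
    change inner ℝ (vec (σ : Equiv.Perm (Fin n))) (vec (π : Equiv.Perm (Fin n))) = 0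
    rw [inner_vec, sum_F hij h1 h2]
  have hcard := hli.fintype_card_le_finrank
  rw [finrank_euclideanSpace, Fintype.card_coe, Fintype.card_prod, Fintype.card_finset,
    Fintype.card_fin] at hcard
  have h4 : (2 ^ n * 2 ^ n : ℕ) = 4 ^ n := by rw [← mul_pow]; norm_num
  rw [h4] at hcard
  exact_mod_cast hcard

end Pool.Agent.S07995
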