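import Pool.Statements.S08268

set_option autoImplicit false
open Pool Pool.MP_3df3be_co

namespace Pool.Agent.S08268

open Finset

/-- In a family of cells with only `|T|` symbols, each row of the block uses each symbol. -/
lemma row_mem {α β : Type} [DecidableEq α] [DecidableEq β] (g : α → β) (hg : Function.Injective g)
    (C : Finset α) (S : Finset β) (hc : C.card = S.card) (h : ∀ c ∈ C, g c ∈ S) (c : α) :
    g c ∈ S ↔ c ∈ C := by
  have himg : C.image g = S := by
    apply eq_of_subset_of_card_le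
    · intro x hx
      obtain ⟨c, hc, rfl⟩ := mem_image.1 hx
      exact h c hc
    · rw [card_image_of_injective C hg, hc]
  constructor
  · intro hS
    rw [← himg] at hS
    obtain ⟨c', hc', e⟩ := mem_image.1 hS
    rwa [← hg e]
  · exact h c

/-- Two blocks `C' × S'` and `C × S` of an injection meet in equally many points and symbols. -/
lemma inter_card {α β : Type} [DecidableEq α] [DecidableEq β] (g : α → β)
    (hg : Function.Injective g) (C' : Finset α) (S' S : Finset β) (hc : C'.card = S'.card)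
    (h : ∀ c ∈ C', g c ∈ S') : (C'.filter (fun c => g c ∈ S)).card = (S' ∩ S).card := by
  rw [← card_image_of_injective _ hg]
  congr 1
  ext x
  simp only [mem_image, mem_filter, mem_inter]
  constructor
  · rintro ⟨c, ⟨h1, h2⟩, rfl⟩
    exact ⟨h c h1, h2⟩
  · rintro ⟨h1, h2⟩
    have himg : C'.image g = S' := by
      apply eq_of_subset_of_card_le
      · intro x hx
        obtain ⟨c, hc, rfl⟩ := mem_image.1 hx
        exact h c hc
      · rw [card_image_of_injective C' hg, hc]
    rw [← himg] at h1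
    obtain ⟨c, hc1, rfl⟩ := mem_image.1 h1
    exact ⟨c, ⟨hc1, h2⟩, rfl⟩

/-- The negation of the preceding statement: For every n there is a latin square of order n such that, for each m with 1 ≤ m and 2m ≤ n, some m rows and m columns meet in an m×m subarray using only m symbols, i.e. a latin subsquare of order m. -/
theorem result :
    ¬ (∀ n : ℕ, ∃ L : Fin n → Fin n → Fin n,
      (∀ i : Fin n, Function.Bijective (L i)) ∧
      (∀ j : Fin n, Function.Bijective (fun i : Fin n => L i j)) ∧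
      ∀ m : ℕ, 1 ≤ m → 2 * m ≤ n →
        ∃ R C S : Finset (Fin n),
          R.card = m ∧ C.card = m ∧ S.card = m ∧
          ∀ r ∈ R, ∀ c ∈ C, L r c ∈ S) := by
  intro hall
  obtain ⟨L, hrow, hcol, hsub⟩ := hall 10
  obtain ⟨R, C, S, hR, hC, hS, hL⟩ := hsub 5 (by norm_num) (by norm_num)
  obtain ⟨R', C', S', hR', hC', hS', hL'⟩ := hsub 3 (by norm_num) (by norm_num)
  -- the four quadrants
  have q1 : ∀ r ∈ R, ∀ c, L r c ∈ S ↔ c ∈ C := fun r hr c =>
    row_mem (L r) (hrow r).1 C S (by rw [hC, hS]) (hL r hr) c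
  have q2 : ∀ c ∈ C, ∀ r, L r c ∈ S ↔ r ∈ R := fun c hc r =>
    row_mem (fun i => L i c) (hcol c).1 R S (by rw [hR, hS]) (fun r hr => hL r hr c hc) r
  have q3 : ∀ r, ∀ c, c ∉ C → (L r c ∈ S ↔ r ∉ R) := by
    intro r c hc
    have hsubs : univ.filter (fun i => L i c ∈ S) ⊆ Rᶜ := by
      intro i hi
      rw [mem_compl]
      intro hiR
      exact hc ((q1 i hiR c).1 (mem_filter.1 hi).2)
    have hcard : (univ.filter (fun i => L i c ∈ S)).card = 5 := by
      have := inter_card (fun i => L i c) (hcol c).1 univ univ S (by simp) (fun _ _ => mem_univ _)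
      rw [this, univ_inter, hS]
    have heq : univ.filter (fun i => L i c ∈ S) = Rᶜ := by
      apply eq_of_subset_of_card_le hsubs
      rw [hcard, card_compl, hR]
      simp
    have := congrArg (fun A => r ∈ A) heq
    simpa using this
  have key : ∀ r c, L r c ∈ S ↔ (r ∈ R ↔ c ∈ C) := by
    intro r c
    by_cases hc : c ∈ C
    · rw [q2 c hc r]; simp [hc]
    · rw [q3 r c hc]; simp [hc]
  -- the rows of the subsquare of order three lie on one side
  have rows : (∀ r ∈ R', r ∈ R) ∨ (∀ r ∈ R', r ∉ R) := by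
    by_contra hcon
    push Not at hcon
    obtain ⟨⟨r1, hr1, hr1R⟩, r2, hr2, hr2R⟩ := hcon
    have e1 := inter_card (L r1) (hrow r1).1 C' S' S (by rw [hC', hS']) (hL' r1 hr1)
    have e2 := inter_card (L r2) (hrow r2).1 C' S' S (by rw [hC', hS']) (hL' r2 hr2)
    have f1 : C'.filter (fun c => L r1 c ∈ S) = C'.filter (fun c => ¬ c ∈ C) := by
      apply filter_congr; intro c _; rw [key]; simp [hr1R]
    have f2 : C'.filter (fun c => L r2 c ∈ S) = C'.filter (fun c => c ∈ C) := by
      apply filter_congr; intro c _; rw [key]; simp [hr2R]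
    rw [f1] at e1
    rw [f2] at e2
    have := card_filter_add_card_filter_not (s := C') (fun c => c ∈ C)
    omega
  have cols : (∀ c ∈ C', c ∈ C) ∨ (∀ c ∈ C', c ∉ C) := by
    by_contra hcon
    push Not at hcon
    obtain ⟨⟨c1, hc1, hc1C⟩, c2, hc2, hc2C⟩ := hcon
    have e1 := inter_card (fun i => L i c1) (hcol c1).1 R' S' S (by rw [hR', hS'])
      (fun r hr => hL' r hr c1 hc1)
    have e2 := inter_card (fun i => L i c2) (hcol c2).1 R' S' S (by rw [hR', hS'])
      (fun r hr => hL' r hr c2 hc2)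
    have f1 : R'.filter (fun r => L r c1 ∈ S) = R'.filter (fun r => ¬ r ∈ R) := by
      apply filter_congr; intro r _; rw [key]; simp [hc1C]
    have f2 : R'.filter (fun r => L r c2 ∈ S) = R'.filter (fun r => r ∈ R) := by
      apply filter_congr; intro r _; rw [key]; simp [hc2C]
    rw [f1] at e1
    rw [f2] at e2
    have := card_filter_add_card_filter_not (s := R') (fun r => r ∈ R)
    omega
  -- the quadrant containing it: rows `X`, columns `Y`, symbols `Z`, of size five each
  obtain ⟨X, hX, hXR⟩ : ∃ X : Finset (Fin 10), X.card = 5 ∧ R' ⊆ X ∧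
      ((∀ r ∈ X, r ∈ R) ∨ (∀ r ∈ X, r ∉ R)) := by
    rcases rows with h | h
    · exact ⟨R, hR, h, Or.inl fun r hr => hr⟩
    · exact ⟨Rᶜ, by rw [card_compl, hR]; simp, fun r hr => mem_compl.2 (h r hr),
        Or.inr fun r hr => mem_compl.1 hr⟩
  obtain ⟨Y, hY, hYC⟩ : ∃ Y : Finset (Fin 10), Y.card = 5 ∧ C' ⊆ Y ∧
      ((∀ c ∈ Y, c ∈ C) ∨ (∀ c ∈ Y, c ∉ C)) := by
    rcases cols with h | h
    · exact ⟨C, hC, h, Or.inl fun r hr => hr⟩
    · exact ⟨Cᶜ, by rw [card_compl, hC]; simp, fun r hr => mem_compl.2 (h r hr),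
        Or.inr fun r hr => mem_compl.1 hr⟩
  obtain ⟨Z, hZ, hZL⟩ : ∃ Z : Finset (Fin 10), Z.card = 5 ∧ ∀ r ∈ X, ∀ c ∈ Y, L r c ∈ Z := by
    have hSc : (Sᶜ).card = 5 := by rw [card_compl, hS]; simp
    rcases hXR.2 with h1 | h1 <;> rcases hYC.2 with h2 | h2
    · exact ⟨S, hS, fun r hr c hc => (key r c).2 (by simp [h1 r hr, h2 c hc])⟩
    · exact ⟨Sᶜ, hSc, fun r hr c hc => mem_compl.2 (by rw [key r c]; simp [h1 r hr, h2 c hc])⟩
    · exact ⟨Sᶜ, hSc, fun r hr c hc => mem_compl.2 (by rw [key r c]; simp [h1 r hr, h2 c hc])⟩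
    · exact ⟨S, hS, fun r hr c hc => (key r c).2 (by simp [h1 r hr, h2 c hc])⟩
  have hR'ne : R'.Nonempty := by rw [← card_pos]; omega
  obtain ⟨r0, hr0⟩ := hR'ne
  have hS'Z : S' ⊆ Z := by
    intro s hs
    have himg : C'.image (L r0) = S' := by
      apply eq_of_subset_of_card_le
      · intro x hx
        obtain ⟨c, hc, rfl⟩ := mem_image.1 hx
        exact hL' r0 hr0 c hc
      · rw [card_image_of_injective C' (hrow r0).1, hC', hS']
    rw [← himg] at hs
    obtain ⟨c, hc, rfl⟩ := mem_image.1 hs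
    exact hZL r0 (hXR.1 hr0) c (hYC.1 hc)
  obtain ⟨c0, hc0⟩ : (Y \ C').Nonempty := by
    rw [← card_pos, card_sdiff_of_subset hYC.1]; omega
  rw [mem_sdiff] at hc0
  have hlast : (R'.image (fun i => L i c0)) ⊆ Z \ S' := by
    intro x hx
    obtain ⟨r, hr, rfl⟩ := mem_image.1 hx
    rw [mem_sdiff]
    refine ⟨hZL r (hXR.1 hr) c0 hc0.1, fun hs => ?_⟩
    exact hc0.2 ((row_mem (L r) (hrow r).1 C' S' (by rw [hC', hS']) (hL' r hr) c0).1 hs)
  have hle := card_le_card hlast
  rw [card_image_of_injective R' (hcol c0).1, card_sdiff_of_subset hS'Z] at hle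
  omega

end Pool.Agent.S08268
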