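import Pool.Statements.S08467
import Pool.Agent.Results.MP_45c2e2_co.TwoThirds

set_option autoImplicit false
open Pool Pool.MP_45c2e2_co

namespace Pool.Agent.S08467

open Module Pool.Agent.Results.MP_45c2e2_co.TwoThirds

theorem step {d : ℕ} (W : Submodule ℝ (Fin d → ℝ)) (h : W ≠ ⊤) :
    ∃ W' : Submodule ℝ (Fin d → ℝ), W ≤ W' ∧ finrank ℝ W' = finrank ℝ W + 1 := by
  obtain ⟨v, -, hv⟩ := SetLike.exists_of_lt (lt_top_iff_ne_top.2 h)
  refine ⟨W ⊔ Submodule.span ℝ {v}, le_sup_left, ?_⟩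
  have hv0 : v ≠ 0 := by
    rintro rfl
    exact hv (zero_mem _)
  have h1 := Submodule.finrank_sup_add_finrank_inf_eq W (Submodule.span ℝ {v})
  have h2 : W ⊓ Submodule.span ℝ {v} = ⊥ :=
    disjoint_iff.1 ((Submodule.disjoint_span_singleton' hv0).2 hv)
  rw [h2, finrank_bot, finrank_span_singleton hv0] at h1
  omega

theorem extend {d : ℕ} (hd : 2 ≤ d) (W : Submodule ℝ (Fin d → ℝ)) (h : finrank ℝ W ≤ 2) :
    ∃ W' : Submodule ℝ (Fin d → ℝ), W ≤ W' ∧ finrank ℝ W' = 2 := by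
  obtain ⟨k, hk⟩ : ∃ k, finrank ℝ W + k = 2 := ⟨2 - finrank ℝ W, by omega⟩
  induction k generalizing W with
  | zero => exact ⟨W, le_rfl, by omega⟩
  | succ k ih =>
    have hne : W ≠ ⊤ := by
      rintro rfl
      rw [finrank_top, finrank_fin_fun] at hk
      omega
    obtain ⟨W1, h1, h2⟩ := step W hne
    obtain ⟨W2, h3, h4⟩ := ih W1 (by omega) (by omega)
    exact ⟨W2, h1.trans h3, h4⟩

/-- There is a dimension d > 100 such that for all large N, some subset of the grid {1..N}^d with at least N^(d-100) points has no 5 distinct points on a common 2-plane. -/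
theorem result :
    ∃ d : ℕ, 100 < d ∧ ∃ N₀ : ℕ, ∀ N : ℕ, N₀ ≤ N →
      ∃ A : Finset (Fin d → ℝ),
        (∀ x ∈ A, ∀ i : Fin d, ∃ k : ℕ, 1 ≤ k ∧ k ≤ N ∧ x i = (k : ℝ)) ∧
        (∀ S : Finset (Fin d → ℝ), S ⊆ A → S.card = 5 →
          ¬ Coplanar ℝ (S : Set (Fin d → ℝ))) ∧
        N ^ (d - 100) ≤ A.card := by
  classical
  obtain ⟨N₀, hN₀⟩ := Pool.Agent.Results.MP_45c2e2_co.TwoThirds.result.2 288 le_rfl
  refine ⟨288, by norm_num, max N₀ 1, fun N hN => ?_⟩
  have hN1 : N₀ ≤ N := le_trans (le_max_left _ _) hN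
  have hN2 : 1 ≤ N := le_trans (le_max_right _ _) hN
  have hr := hN₀ N hN1
  have hmem := Nat.sSup_mem (s := {n | ∃ A : Finset (Fin 288 → ℤ),
    (∀ a ∈ A, ∀ i, 1 ≤ a i ∧ a i ≤ N) ∧ NoFive (A : Set (Fin 288 → ℤ)) ∧ A.card = n})
    ⟨0, ∅, by simp, by
      intro P _
      simp, rfl⟩ (r_bdd 288 N)
  obtain ⟨A, hA1, hA2, hA3⟩ := hmem
  change A.card = r 288 N at hA3
  set c : (Fin 288 → ℤ) → (Fin 288 → ℝ) := fun a i => (a i : ℝ) with hc
  have hinj : Function.Injective c := by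
    intro a b hab
    funext i
    have := congrFun hab i
    simp only [hc] at this
    exact_mod_cast this
  refine ⟨A.image c, ?_, ?_, ?_⟩
  · intro x hx i
    obtain ⟨a, ha, rfl⟩ := Finset.mem_image.1 hx
    obtain ⟨h1, h2⟩ := hA1 a ha i
    refine ⟨(a i).toNat, by omega, by omega, ?_⟩
    have h3 : (((a i).toNat : ℤ) : ℝ) = (a i : ℝ) := by
      rw [Int.toNat_of_nonneg (by omega)]
    simp only [hc]
    rw [← h3, Int.cast_natCast]
  · intro S hS hS5 hcop
    have hW : finrank ℝ (vectorSpan ℝ (S : Set (Fin 288 → ℝ))) ≤ 2 := by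
      rw [Coplanar] at hcop
      have := Module.finrank_eq_rank ℝ (vectorSpan ℝ (S : Set (Fin 288 → ℝ)))
      rw [← this] at hcop
      exact_mod_cast hcop
    obtain ⟨W, hW1, hW2⟩ := extend (by norm_num) _ hW
    obtain ⟨p, hp⟩ : S.Nonempty := Finset.card_pos.1 (by omega)
    have hsub : ∀ x ∈ S, x ∈ AffineSubspace.mk' p W := by
      intro x hx
      rw [AffineSubspace.mem_mk']
      exact hW1 (vsub_mem_vectorSpan ℝ (by exact_mod_cast hx) (by exact_mod_cast hp))
    have h4 := hA2 (AffineSubspace.mk' p W) (by rw [AffineSubspace.direction_mk']; exact hW2)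
    -- the five preimages
    obtain ⟨S', hS'1, hS'2⟩ : ∃ S' : Finset (Fin 288 → ℤ), S' ⊆ A ∧ S'.image c = S := by
      refine ⟨A.filter (fun a => c a ∈ S), Finset.filter_subset _ _, ?_⟩
      ext x
      simp only [Finset.mem_image, Finset.mem_filter]
      constructor
      · rintro ⟨a, ⟨_, h⟩, rfl⟩
        exact h
      · intro hx
        obtain ⟨a, ha, rfl⟩ := Finset.mem_image.1 (hS hx)
        exact ⟨a, ⟨ha, hx⟩, rfl⟩
    have hcard : S'.card = 5 := by
      rw [← hS5, ← hS'2, Finset.card_image_of_injective _ hinj]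
    have h5 : (S' : Set (Fin 288 → ℤ)) ⊆
        {a | a ∈ (A : Set (Fin 288 → ℤ)) ∧ (fun i => (a i : ℝ)) ∈ AffineSubspace.mk' p W} := by
      intro a ha
      refine ⟨hS'1 (by exact_mod_cast ha), hsub _ ?_⟩
      rw [← hS'2]
      exact Finset.mem_image_of_mem c (by exact_mod_cast ha)
    have h6 := (Set.encard_le_encard h5).trans h4
    rw [Set.encard_coe_eq_coe_finsetCard, hcard] at h6
    exact absurd h6 (by norm_num)
  · rw [Finset.card_image_of_injective _ hinj, hA3]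
    have h7 : (N : ℝ) ^ (((288 : ℕ) : ℝ) - 100) = ((N ^ (288 - 100) : ℕ) : ℝ) := by
      have e1 : (((288 : ℕ) : ℝ) - 100) = ((188 : ℕ) : ℝ) := by norm_num
      rw [e1, Real.rpow_natCast]
      norm_num
    rw [h7] at hr
    exact_mod_cast hr

end Pool.Agent.S08467
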