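import Pool.Statements.S08686

set_option autoImplicit false
open Pool Pool.MP_4e7ec3_co

namespace Pool.Agent.S08686

/-- The map on indices: inside every block `4 b, …, 4 b + 3` the even positions go to `4 b + 1` and the
odd ones to `4 b + 2`. -/
def t (i : ℕ) : ℕ := 4 * (i / 4) + 1 + i % 2

/-- The sixteen points `i / 15`. -/
noncomputable def FF : Finset ℝ := (Finset.range 16).image (fun i : ℕ => (i : ℝ) / 15)

/-- The map on the points. -/
noncomputable def TT (p : ℝ) : ℝ := (t ⌊15 * p⌋₊ : ℝ) / 15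

theorem mem_FF {p : ℝ} : p ∈ FF ↔ ∃ i : ℕ, i < 16 ∧ p = (i : ℝ) / 15 := by
  simp only [FF, Finset.mem_image, Finset.mem_range]
  constructor
  · rintro ⟨i, hi, rfl⟩
    exact ⟨i, hi, rfl⟩
  · rintro ⟨i, hi, rfl⟩
    exact ⟨i, hi, rfl⟩

theorem TT_eq (i : ℕ) : TT ((i : ℝ) / 15) = (t i : ℝ) / 15 := by
  unfold TT
  have h : (15 : ℝ) * ((i : ℝ) / 15) = i := by ring
  rw [h, Nat.floor_natCast]

theorem t_lt {i : ℕ} (h : i < 16) : t i < 16 := by
  unfold t; omega

theorem t_ne (i : ℕ) : t i ≠ i := by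
  unfold t; omega

theorem t_block (i : ℕ) : t i % 4 = 1 ∨ t i % 4 = 2 := by
  unfold t; omega

theorem t_div (i : ℕ) : t i / 4 = i / 4 := by
  unfold t; omega

theorem div_lt {a b : ℕ} (h : (a : ℝ) / 15 < (b : ℝ) / 15) : a < b := by
  have : (a : ℝ) < b := by linarith
  exact_mod_cast this

theorem lt_div {a b : ℕ} (h : a < b) : (a : ℝ) / 15 < (b : ℝ) / 15 := by
  have : (a : ℝ) < b := by exact_mod_cast h
  linarith

/-- The negation of the preceding statement: There is a constant k such that for every finite F in [0,1] containing 0 and 1, every ε>0, and every T:F→F moving each point by more than ε, some p₀ in F reaches a point at distance at least 1/3 in at most k/ε steps, each step going to T(p) or a neighbour of T(p) in F. -/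
theorem result :
    ¬ (∃ k : ℝ, ∀ (F : Finset ℝ) (ε : ℝ) (T : ℝ → ℝ),
      (∀ p ∈ F, 0 ≤ p ∧ p ≤ 1) → (0 : ℝ) ∈ F → (1 : ℝ) ∈ F → 0 < ε →
      (∀ p ∈ F, T p ∈ F ∧ ε < |p - T p|) →
      ∃ p₀ ∈ F, ∃ n : ℕ, (n : ℝ) ≤ k / ε ∧
        ∃ x : ℕ → ℝ, x 0 = p₀ ∧
          (∀ i < n,
            x (i + 1) = T (x i) ∨
            (x (i + 1) ∈ F ∧ x (i + 1) < T (x i) ∧
              ∀ r ∈ F, r < T (x i) → r ≤ x (i + 1)) ∨
            (x (i + 1) ∈ F ∧ T (x i) < x (i + 1) ∧
              ∀ r ∈ F, T (x i) < r → x (i + 1) ≤ r)) ∧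
          1 / 3 ≤ |x n - p₀|) := by
  rintro ⟨k, h⟩
  obtain ⟨p₀, hp₀, n, -, x, hx0, hstep, hfar⟩ := h FF (1 / 16) TT
    (by
      intro p hp
      obtain ⟨i, hi, rfl⟩ := mem_FF.1 hp
      have hi' : (i : ℝ) ≤ 15 := by exact_mod_cast (by omega : i ≤ 15)
      constructor
      · positivity
      · rw [div_le_one (by norm_num)]
        exact hi')
    (mem_FF.2 ⟨0, by norm_num, by norm_num⟩)
    (mem_FF.2 ⟨15, by norm_num, by norm_num⟩)
    (by norm_num)
    (by
      intro p hp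
      obtain ⟨i, hi, rfl⟩ := mem_FF.1 hp
      rw [TT_eq]
      refine ⟨mem_FF.2 ⟨t i, t_lt hi, rfl⟩, ?_⟩
      have h1 : (1 : ℝ) ≤ |(i : ℝ) - t i| := by
        rcases lt_or_gt_of_ne (t_ne i) with h2 | h2
        · have h3 : (t i : ℝ) + 1 ≤ i := by exact_mod_cast h2
          rw [le_abs]; left; linarith
        · have h3 : (i : ℝ) + 1 ≤ t i := by exact_mod_cast h2
          rw [le_abs]; right; linarith
      have h4 : (i : ℝ) / 15 - (t i : ℝ) / 15 = ((i : ℝ) - t i) / 15 := by ring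
      rw [h4, abs_div, abs_of_pos (by norm_num : (0 : ℝ) < 15)]
      rw [lt_div_iff₀ (by norm_num)]
      linarith)
  obtain ⟨i₀, hi₀, rfl⟩ := mem_FF.1 hp₀
  -- all points of the chain stay in the block
  have key : ∀ m : ℕ, m ≤ n → ∃ j : ℕ, j < 16 ∧ j / 4 = i₀ / 4 ∧ x m = (j : ℝ) / 15 := by
    intro m
    induction m with
    | zero => intro _; exact ⟨i₀, hi₀, rfl, hx0⟩
    | succ m ih =>
      intro hm
      obtain ⟨j, hj, hjb, hxj⟩ := ih (by omega)
      have hs := hstep m (by omega)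
      rw [hxj, TT_eq] at hs
      have htl := t_lt hj
      have htb := t_block j
      have htd := t_div j
      rcases hs with hs | ⟨hs1, hs2, hs3⟩ | ⟨hs1, hs2, hs3⟩
      · exact ⟨t j, htl, by rw [htd, hjb], hs⟩
      · obtain ⟨l, hl, hxl⟩ := mem_FF.1 hs1
        rw [hxl] at hs2 hs3
        have h1 : l < t j := div_lt hs2
        have h2 := hs3 (((t j - 1 : ℕ) : ℝ) / 15) (mem_FF.2 ⟨t j - 1, by omega, rfl⟩)
          (lt_div (by omega))
        have h3 : t j - 1 ≤ l := by
          by_contra hcon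
          push Not at hcon
          have := lt_div hcon
          linarith
        exact ⟨l, hl, by omega, hxl⟩
      · obtain ⟨l, hl, hxl⟩ := mem_FF.1 hs1
        rw [hxl] at hs2 hs3
        have h1 : t j < l := div_lt hs2
        have h2 := hs3 (((t j + 1 : ℕ) : ℝ) / 15) (mem_FF.2 ⟨t j + 1, by omega, rfl⟩)
          (lt_div (by omega))
        have h3 : l ≤ t j + 1 := by
          by_contra hcon
          push Not at hcon
          have := lt_div hcon
          linarith
        exact ⟨l, hl, by omega, hxl⟩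
  obtain ⟨j, hj, hjb, hxj⟩ := key n le_rfl
  rw [hxj] at hfar
  have h1 : (j : ℝ) ≤ i₀ + 3 := by exact_mod_cast (by omega : j ≤ i₀ + 3)
  have h2 : (i₀ : ℝ) ≤ j + 3 := by exact_mod_cast (by omega : i₀ ≤ j + 3)
  have h3 : |(j : ℝ) / 15 - (i₀ : ℝ) / 15| ≤ 1 / 5 := by
    rw [abs_le]
    constructor <;> linarith
  linarith

end Pool.Agent.S08686
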