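import Pool.Statements.S09613
import Pool.Agent.J4.H42.SqFree6

set_option autoImplicit false
open Pool Pool.MP_78b1ee_co

namespace Pool.Agent.S09613

open Pool.Agent.J4.H42.SqFree

lemma getD_range {h : ℕ → ℚ} {n k : ℕ} (hk : k < n) :
    ((List.range n).map h).getD k 0 = h k := by
  rw [List.getD_eq_getElem _ _ (by simpa using hk)]
  simp

lemma getD_ins {h : ℕ → ℚ} {n p k : ℕ} {x : ℚ} (hp : p ≤ n) (hk : k < n + 1) :
    ((((List.range n).map h).take p) ++ x :: (((List.range n).map h).drop p)).getD k 0 =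
      ins h p x k := by
  have hlen : (((List.range n).map h).take p).length = p := by simp [hp]
  rcases lt_trichotomy k p with hkp | hkp | hkp
  · rw [List.getD_append _ _ _ _ (by rw [hlen]; exact hkp), ins_lt hkp,
      List.getD_eq_getElem _ _ (by rw [hlen]; exact hkp)]
    simp
  · rw [List.getD_append_right _ _ _ _ (by rw [hlen]; omega), hlen, hkp, ins_eq]
    simp
  · obtain ⟨m, rfl⟩ : ∃ m, k = m + 1 := ⟨k - 1, by omega⟩
    rw [List.getD_append_right _ _ _ _ (by rw [hlen]; omega), hlen, ins_gt (by omega)]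
    rw [show m + 1 - p = (m - p) + 1 by omega, List.getD_cons_succ,
      List.getD_eq_getElem _ _ (by simp; omega)]
    simp only [List.getElem_drop, List.getElem_map, List.getElem_range]
    congr 1
    omega

/-- For every N there is a list of distinct rationals of length at least N with no two adjacent order-isomorphic blocks of length at least 2, such that inserting any new value at any position creates such a pair. -/
theorem result :
    ∀ N : ℕ, ∃ w : List ℚ, N ≤ w.length ∧ w.Nodup ∧
      (¬ ∃ i ℓ : ℕ, 2 ≤ ℓ ∧ i + 2 * ℓ ≤ w.length ∧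
          ∀ a < ℓ, ∀ b < ℓ,
            (w.getD (i + a) 0 < w.getD (i + b) 0 ↔
              w.getD (i + ℓ + a) 0 < w.getD (i + ℓ + b) 0)) ∧
      ∀ p : ℕ, p ≤ w.length → ∀ x : ℚ, x ∉ w →
        ∃ i ℓ : ℕ, 2 ≤ ℓ ∧ i + 2 * ℓ ≤ w.length + 1 ∧
          ∀ a < ℓ, ∀ b < ℓ,
            ((w.take p ++ x :: w.drop p).getD (i + a) 0 <
                (w.take p ++ x :: w.drop p).getD (i + b) 0 ↔
              (w.take p ++ x :: w.drop p).getD (i + ℓ + a) 0 <
                (w.take p ++ x :: w.drop p).getD (i + ℓ + b) 0) := by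
  intro N
  obtain ⟨t, ht, hN⟩ : ∃ t, 2 ≤ t ∧ N ≤ 8 * t + 7 + 22 := ⟨N + 2, by omega, by omega⟩
  have hlen : ((List.range (8 * t + 7 + 22)).map (g (8 * t + 7))).length = 8 * t + 7 + 22 := by
    simp
  refine ⟨(List.range (8 * t + 7 + 22)).map (g (8 * t + 7)), by rw [hlen]; exact hN, ?_, ?_, ?_⟩
  · rw [List.nodup_map_iff_inj_on List.nodup_range]
    intro a ha b hb hab
    rw [List.mem_range] at ha hb
    exact g_inj ha hb hab
  · rw [hlen]
    rintro ⟨i, l, hl, hil, hs⟩
    refine g_no_sq ht hl hil ?_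
    intro a ha b hb
    have key := hs a ha b hb
    rwa [getD_range (by omega), getD_range (by omega), getD_range (by omega),
      getD_range (by omega)] at key
  · rw [hlen]
    intro p hp x hx
    have hx' : ∀ k < 8 * t + 7 + 22, g (8 * t + 7) k ≠ x := by
      intro k hk he
      exact hx (List.mem_map.2 ⟨k, List.mem_range.2 hk, he⟩)
    obtain ⟨i, l, hl, hil, hs⟩ : ∃ i l, 2 ≤ l ∧ i + 2 * l ≤ 8 * t + 7 + 22 + 1 ∧
        Sq (ins (g (8 * t + 7)) p x) i l := by
      by_cases h1 : p ≤ 2
      · exact left_ins h1 hx'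
      · by_cases h2 : 8 * t + 7 + 20 ≤ p
        · exact right_ins h2 hp hx'
        · obtain ⟨q, rfl⟩ : ∃ q, p = q + 3 := ⟨p - 3, by omega⟩
          obtain ⟨i, hi, hs⟩ := interior (x := x) (show q + 6 ≤ 8 * t + 7 + 22 by omega) hx'
          exact ⟨i, 2, le_rfl, hi, hs⟩
    refine ⟨i, l, hl, hil, ?_⟩
    intro a ha b hb
    have key := hs a ha b hb
    rw [getD_ins hp (by omega), getD_ins hp (by omega), getD_ins hp (by omega),
      getD_ins hp (by omega)]
    exact key

end Pool.Agent.S09613
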