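import Pool.Statements.S12060
import Pool.Agent.J4.H52.Cusp
-- import your own Pool.Agent.* helpers here

set_option autoImplicit false
open Pool Pool.MP_e3c312_co

namespace Pool.Agent.S12060

/-- The negation of the preceding statement: For any Γ-symmetric framework in ℝ^d, every expansive motion tracing one half-branch of a neighbourhood of [p] homeomorphic to an interval in the configuration space mod isometries can be moved by continuous isometries so it stays Γ-symmetric. -/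
theorem result :
    ¬ (∀ (d : ℕ) (V : Type) [Fintype V] (G : SimpleGraph V) (p : V → EuclideanSpace ℝ (Fin d))
    (Γ : Subgroup (EuclideanSpace ℝ (Fin d) ≃ᵢ EuclideanSpace ℝ (Fin d))) [Finite Γ]
    (θ : Γ →* Equiv.Perm V),
    (∀ γ : Γ, ∀ u v : V, G.Adj u v ↔ G.Adj (θ γ u) (θ γ v)) →
    (∀ γ : Γ, ∀ i : V,
      (γ : EuclideanSpace ℝ (Fin d) ≃ᵢ EuclideanSpace ℝ (Fin d)) (p i) = p (θ γ i)) →
    ∀ m : ℝ → V → EuclideanSpace ℝ (Fin d),
      ContinuousOn m (Set.Icc 0 1) → m 0 = p →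
      (∀ t ∈ Set.Icc (0:ℝ) 1, ∀ i j : V, G.Adj i j → dist (m t i) (m t j) = dist (p i) (p j)) →
      (∀ i j : V, MonotoneOn (fun t => dist (m t i) (m t j)) (Set.Icc (0:ℝ) 1)) →
      (∃ t ∈ Set.Icc (0:ℝ) 1, ∃ i j : V, dist (m t i) (m t j) ≠ dist (p i) (p j)) →
      Set.InjOn (fun t => Quot.mk (fun q q' : V → EuclideanSpace ℝ (Fin d) =>
          ∃ T : EuclideanSpace ℝ (Fin d) ≃ᵢ EuclideanSpace ℝ (Fin d), ∀ i, T (q i) = q' i) (m t))
        (Set.Icc (0:ℝ) 1) →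
      (∃ O : Set (Quot (fun q q' : V → EuclideanSpace ℝ (Fin d) =>
          ∃ T : EuclideanSpace ℝ (Fin d) ≃ᵢ EuclideanSpace ℝ (Fin d), ∀ i, T (q i) = q' i)),
        IsOpen O ∧
        ∃ h : ↥(O ∩ {x : Quot (fun q q' : V → EuclideanSpace ℝ (Fin d) =>
              ∃ T : EuclideanSpace ℝ (Fin d) ≃ᵢ EuclideanSpace ℝ (Fin d), ∀ i, T (q i) = q' i) |
              ∃ q : V → EuclideanSpace ℝ (Fin d),
                Quot.mk (fun q q' : V → EuclideanSpace ℝ (Fin d) =>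
                  ∃ T : EuclideanSpace ℝ (Fin d) ≃ᵢ EuclideanSpace ℝ (Fin d), ∀ i, T (q i) = q' i) q = x ∧
                ∀ i j : V, G.Adj i j → dist (q i) (q j) = dist (p i) (p j)}) ≃ₜ ↥(Set.Ioo (0:ℝ) 1),
        ∃ a : Set.Ioo (0:ℝ) 1,
          (h.symm a).1 = Quot.mk (fun q q' : V → EuclideanSpace ℝ (Fin d) =>
            ∃ T : EuclideanSpace ℝ (Fin d) ≃ᵢ EuclideanSpace ℝ (Fin d), ∀ i, T (q i) = q' i) p ∧
          ((∀ t ∈ Set.Ioc (0:ℝ) 1, ∃ b : Set.Ioo (0:ℝ) 1,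
              (h.symm b).1 = Quot.mk (fun q q' : V → EuclideanSpace ℝ (Fin d) =>
                ∃ T : EuclideanSpace ℝ (Fin d) ≃ᵢ EuclideanSpace ℝ (Fin d), ∀ i, T (q i) = q' i) (m t) ∧
              (a : ℝ) < (b : ℝ)) ∨
           (∀ t ∈ Set.Ioc (0:ℝ) 1, ∃ b : Set.Ioo (0:ℝ) 1,
              (h.symm b).1 = Quot.mk (fun q q' : V → EuclideanSpace ℝ (Fin d) =>
                ∃ T : EuclideanSpace ℝ (Fin d) ≃ᵢ EuclideanSpace ℝ (Fin d), ∀ i, T (q i) = q' i) (m t) ∧
              (b : ℝ) < (a : ℝ)))) →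
      ∃ T : ℝ → (EuclideanSpace ℝ (Fin d) ≃ᵢ EuclideanSpace ℝ (Fin d)),
        (∀ x, T 0 x = x) ∧
        (∀ x, ContinuousOn (fun t => T t x) (Set.Icc (0:ℝ) 1)) ∧
        ∀ t ∈ Set.Icc (0:ℝ) 1, ∀ γ : Γ, ∀ i : V,
          (γ : EuclideanSpace ℝ (Fin d) ≃ᵢ EuclideanSpace ℝ (Fin d)) (T t (m t i))
            = T t (m t (θ γ i))) := by
  intro H
  open Pool.Agent.Results.MP_e3c312_co.CuspSymmetry Pool.Agent.J4.H52.Cusp in
  have hdom : ∀ t ∈ Set.Icc (0 : ℝ) 1, t / 20 ∈ Dom := by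
    intro t ht
    obtain ⟨h0, h1⟩ := ht
    constructor <;> linarith
  open Pool.Agent.Results.MP_e3c312_co.CuspSymmetry Pool.Agent.J4.H52.Cusp in
  obtain ⟨T, _, _, hT⟩ := H 3 (Fin 7) G7 p7 Gam' theta'
    (by
      intro γ u v
      exact ((theta γ : G7 ≃g G7).map_rel_iff (a := u) (b := v)).symm)
    (by
      intro γ i
      exact p7_symm γ i)
    (fun t => std (t / 20))
    (by
      refine cont_std.comp (by fun_prop) ?_
      exact hdom)
    (by simp [std_zero])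
    (by
      intro t ht i j h
      exact std_mem (hdom t ht) i j h)
    (by
      intro i j t ht t' ht' h
      exact std_dist_mono (by have := ht.1; positivity) (by linarith) (hdom t ht) (hdom t' ht') i j)
    (by
      refine ⟨1, ⟨by norm_num, le_refl 1⟩, 3, 4, ?_⟩
      obtain ⟨_, h1, _⟩ := rel0.nonedges
      obtain ⟨_, h2, _⟩ := (rel_std (hdom 1 ⟨by norm_num, le_refl 1⟩)).nonedges
      intro h
      change dist (p7 3) (p7 4) ^ 2 = _ at h1
      change dist (std (1 / 20) 3) (std (1 / 20) 4) ^ 2 = _ at h2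
      have h3 : dist (std (1 / 20) 3) (std (1 / 20) 4) ^ 2 = dist (p7 3) (p7 4) ^ 2 := by rw [h]
      have h4 := (h2.symm.trans h3).trans h1
      norm_num at h4)
    (by
      intro t ht t' ht' h
      have h1 : rel (std (t / 20)) (std (t' / 20)) := (mk_eq_iff _ _).1 h
      have h2 := inv_congr' _ _ h1
      rw [inv_std' (hdom t ht), inv_std' (hdom t' ht')] at h2
      have h3 : fh (t / 20) = fh (t' / 20) := by linarith
      have h4 := fh_strictMono.injOn (hdom t ht) (hdom t' ht') h3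
      linarith)
    ⟨O, O_isOpen, homeo, ⟨1 / 2, by norm_num, by norm_num⟩, by
      show Quot.mk rel (std ((2 * (1 / 2 : ℝ) - 1) / 10)) = Quot.mk rel p7
      rw [show ((2 * (1 / 2 : ℝ) - 1) / 10) = 0 by norm_num, std_zero], Or.inl (by
      intro t ht
      obtain ⟨h0, h1⟩ := ht
      refine ⟨⟨1 / 2 + t / 4, by linarith, by linarith⟩, ?_, ?_⟩
      · show Quot.mk rel (std ((2 * (1 / 2 + t / 4) - 1) / 10)) = Quot.mk rel (std (t / 20))
        rw [show ((2 * (1 / 2 + t / 4) - 1) / 10) = t / 20 by ring]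
      · show (1 / 2 : ℝ) < 1 / 2 + t / 4
        linarith)⟩
  open Pool.Agent.Results.MP_e3c312_co.CuspSymmetry Pool.Agent.J4.H52.Cusp in
  have h1 : (1 : ℝ) ∈ Set.Icc (0 : ℝ) 1 := ⟨by norm_num, le_refl 1⟩
  open Pool.Agent.Results.MP_e3c312_co.CuspSymmetry Pool.Agent.J4.H52.Cusp in
  have key : ∀ i : Fin 7, refl3 (T 1 (std (1 / 20) i)) = T 1 (std (1 / 20) (Equiv.swap 1 2 i)) := by
    intro i
    have h2 := hT 1 h1 rG i
    have h3 : (theta' rG : Equiv.Perm (Fin 7)) i = Equiv.swap 1 2 i := by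
      show GraphAut.app (theta rG) i = _
      rw [theta_rG]
      rfl
    rw [h3] at h2
    exact h2
  open Pool.Agent.Results.MP_e3c312_co.CuspSymmetry Pool.Agent.J4.H52.Cusp in
  have e6 := key 6
  have e1 := key 1
  rw [show Equiv.swap (1 : Fin 7) 2 6 = 6 by decide] at e6
  rw [show Equiv.swap (1 : Fin 7) 2 1 = 2 by decide] at e1
  open Pool.Agent.Results.MP_e3c312_co.CuspSymmetry Pool.Agent.J4.H52.Cusp in
  have hd : dist (std (1 / 20) 2) (std (1 / 20) 6) = dist (std (1 / 20) 1) (std (1 / 20) 6) := by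
    calc dist (std (1 / 20) 2) (std (1 / 20) 6)
        = dist (T 1 (std (1 / 20) 2)) (T 1 (std (1 / 20) 6)) := ((T 1).dist_eq _ _).symm
      _ = dist (refl3 (T 1 (std (1 / 20) 1))) (refl3 (T 1 (std (1 / 20) 6))) := by rw [e1, e6]
      _ = dist (T 1 (std (1 / 20) 1)) (T 1 (std (1 / 20) 6)) := refl3.dist_eq _ _
      _ = dist (std (1 / 20) 1) (std (1 / 20) 6) := (T 1).dist_eq _ _
  open Pool.Agent.Results.MP_e3c312_co.CuspSymmetry Pool.Agent.J4.H52.Cusp in
  have h2 : inv' (std (1 / 20)) = 4 * fh (1 / 20) := inv_std' (hdom 1 h1)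
  open Pool.Agent.Results.MP_e3c312_co.CuspSymmetry Pool.Agent.J4.H52.Cusp in
  have h3 : inv' (std (1 / 20)) = 0 := by
    unfold inv'
    rw [hd, sub_self]
  open Pool.Agent.Results.MP_e3c312_co.CuspSymmetry Pool.Agent.J4.H52.Cusp in
  have h5 : fh 0 = 0 := by simp [fh, fm]
  open Pool.Agent.Results.MP_e3c312_co.CuspSymmetry Pool.Agent.J4.H52.Cusp in
  have h6 := fh_lt (x := 0) (y := 1 / 20) le_rfl (by norm_num) zero_dom (hdom 1 h1)
  linarith

end Pool.Agent.S12060
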