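import Pool.Statements.S12433
import Pool.Agent.J4.H53.Cde.Uniform

set_option autoImplicit false
open scoped Classical
open Pool Pool.MP_f5b555_co
open Pool.Agent.J4.H53

namespace Pool.Agent.S12433

/-- For n ≥ 1, 2k < n and λ=(n,n−2,…,n−2k), the strict partitions inside λ have average down-degree equal to that of a random element of a random maximal chain (CDE), and this average is ∣λ∣/(n+1). -/
theorem result :
  ∀ (n k : ℕ), 1 ≤ n → 2 * k < n →
  ∀ (V : (Fin (k+1) → ℕ) → Prop),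
    (∀ μ, V μ ↔ ((∀ i : Fin (k+1), μ i ≤ n - 2 * (i : ℕ)) ∧
        ∀ i j : Fin (k+1), i < j → μ j = 0 ∨ μ j < μ i)) →
  ∀ (D : (Fin (k+1) → ℕ) → ℕ),
    (∀ μ, D μ = (Finset.univ.filter
        (fun i : Fin (k+1) => 0 < μ i ∧ V (Function.update μ i (μ i - 1)))).card) →
  ∀ (N : ℕ), N = ∑ i : Fin (k+1), (n - 2 * (i : ℕ)) →
  ∀ (S : (Fin N → Fin (k+1)) → ℕ → Fin (k+1) → ℕ),
    (∀ w j i, S w j i = (Finset.univ.filter
        (fun t : Fin N => (t : ℕ) < j ∧ w t = i)).card) →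
  ((∑ μ ∈ Finset.univ.filter (fun μ : Fin (k+1) → Fin (n+1) => V (fun i => (μ i : ℕ))),
        (D (fun i => (μ i : ℕ)) : ℚ)) /
      ((Finset.univ.filter (fun μ : Fin (k+1) → Fin (n+1) => V (fun i => (μ i : ℕ)))).card : ℚ)
    =
    (∑ w ∈ Finset.univ.filter (fun w : Fin N → Fin (k+1) =>
          (∀ j : ℕ, j ≤ N → V (S w j)) ∧ ∀ i : Fin (k+1), S w N i = n - 2 * (i : ℕ)),
        ∑ j ∈ Finset.range (N+1), (D (S w j) : ℚ)) /
      (((Finset.univ.filter (fun w : Fin N → Fin (k+1) =>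
          (∀ j : ℕ, j ≤ N → V (S w j)) ∧ ∀ i : Fin (k+1), S w N i = n - 2 * (i : ℕ))).card : ℚ)
        * ((N : ℚ) + 1))
  ∧
  (∑ μ ∈ Finset.univ.filter (fun μ : Fin (k+1) → Fin (n+1) => V (fun i => (μ i : ℕ))),
        (D (fun i => (μ i : ℕ)) : ℚ)) /
      ((Finset.univ.filter (fun μ : Fin (k+1) → Fin (n+1) => V (fun i => (μ i : ℕ)))).card : ℚ)
    = (N : ℚ) / ((n : ℚ) + 1)) := by
  intro n k hn hk V hV D hD N hN S hS
  have hS' : ∀ w j, S w j = Cde.cnt w j := by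
    intro w j
    funext i
    rw [hS]
    rfl
  have hVJ : ∀ μ, V μ ↔ μ ∈ Cde.J n (k + 1) := fun μ => by
    rw [hV, Cde.mem_J]
    rfl
  have hDn : ∀ μ, μ ∈ Cde.J n (k + 1) → (D μ : ℚ) = Cde.Dn μ := by
    intro μ hμ
    rw [hD, Finset.card_filter]
    push_cast
    unfold Cde.Dn
    apply Finset.sum_congr rfl
    intro i _
    have h1 : (0 < μ i ∧ V (Function.update μ i (μ i - 1))) ↔ Cde.Rem μ i := by
      constructor
      · rintro ⟨h1, h2⟩
        exact ⟨h1, (Cde.mem_J.1 ((hVJ _).1 h2)).2⟩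
      · intro h1
        exact ⟨h1.1, (hVJ _).2 (Cde.st_dec_of_mem hμ h1)⟩
    by_cases h2 : Cde.Rem μ i
    · rw [if_pos h2, if_pos (h1.2 h2)]
    · rw [if_neg h2, if_neg (fun h3 => h2 (h1.1 h3))]
  have hT := Cde.T_st n k hk
  have hN' : ∑ i, Cde.T n k i = N := hN.symm
  have hU : (∑ μ ∈ Finset.univ.filter (fun μ : Fin (k+1) → Fin (n+1) => V (fun i => (μ i : ℕ))),
        (D (fun i => (μ i : ℕ)) : ℚ)) = ∑ μ ∈ Cde.J n (k + 1), Cde.Dn μ := by
    apply Finset.sum_bij (fun (μ : Fin (k+1) → Fin (n+1)) _ => fun i => (μ i : ℕ))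
    · intro μ hμ
      exact (hVJ _).1 (Finset.mem_filter.1 hμ).2
    · intro μ _ ν _ h
      funext i
      exact Fin.ext (congrFun h i)
    · intro ν hν
      have h1 := (Cde.mem_J.1 hν).1
      refine ⟨fun i => ⟨ν i, by have := h1 i; omega⟩, ?_, rfl⟩
      rw [Finset.mem_filter]
      exact ⟨Finset.mem_univ _, (hVJ _).2 hν⟩
    · intro μ hμ
      exact hDn _ ((hVJ _).1 (Finset.mem_filter.1 hμ).2)
  have hUc : (Finset.univ.filter (fun μ : Fin (k+1) → Fin (n+1) => V (fun i => (μ i : ℕ)))).card =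
      (Cde.J n (k + 1)).card := by
    apply Finset.card_bij (fun (μ : Fin (k+1) → Fin (n+1)) _ => fun i => (μ i : ℕ))
    · intro μ hμ
      exact (hVJ _).1 (Finset.mem_filter.1 hμ).2
    · intro μ _ ν _ h
      funext i
      exact Fin.ext (congrFun h i)
    · intro ν hν
      have h1 := (Cde.mem_J.1 hν).1
      refine ⟨fun i => ⟨ν i, by have := h1 i; omega⟩, ?_, rfl⟩
      rw [Finset.mem_filter]
      exact ⟨Finset.mem_univ _, (hVJ _).2 hν⟩
  have hW : ∀ w : Fin N → Fin (k+1), ((∀ j : ℕ, j ≤ N → V (S w j)) ∧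
      ∀ i : Fin (k+1), S w N i = n - 2 * (i : ℕ)) ↔ Cde.Val w (Cde.T n k) := by
    intro w
    unfold Cde.Val
    constructor
    · rintro ⟨h1, h2⟩
      refine ⟨fun j hj => ?_, ?_⟩
      · have h3 := h1 j hj
        rw [hS', hVJ] at h3
        exact (Cde.mem_J.1 h3).2
      · funext i
        rw [← hS']
        exact h2 i
    · rintro ⟨h1, h2⟩
      refine ⟨fun j hj => ?_, fun i => ?_⟩
      · rw [hS', hVJ, Cde.mem_J]
        refine ⟨fun i => ?_, h1 j hj⟩
        have h3 := Cde.cnt_mono w hj i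
        rw [h2] at h3
        exact h3
      · rw [hS', h2]
        rfl
  have hwords := Cde.words Cde.Dn N (Cde.T n k) hT
  have hC : (∑ w ∈ Finset.univ.filter (fun w : Fin N → Fin (k+1) =>
          (∀ j : ℕ, j ≤ N → V (S w j)) ∧ ∀ i : Fin (k+1), S w N i = n - 2 * (i : ℕ)),
        ∑ j ∈ Finset.range (N+1), (D (S w j) : ℚ)) = Cde.A Cde.Dn N (Cde.T n k) := by
    rw [← hwords.2, ← Finset.sum_filter]
    apply Finset.sum_congr
    · ext w
      rw [Finset.mem_filter, Finset.mem_filter, hW]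
    · intro w hw
      apply Finset.sum_congr rfl
      intro j hj
      rw [hS']
      apply hDn
      rw [Cde.mem_J]
      have h1 : Cde.Val w (Cde.T n k) := (Finset.mem_filter.1 hw).2
      have hj' : j ≤ N := by have := Finset.mem_range.1 hj; omega
      refine ⟨fun i => ?_, h1.1 j hj'⟩
      have h3 := Cde.cnt_mono w hj' i
      rw [h1.2] at h3
      exact h3
  have hCc : (((Finset.univ.filter (fun w : Fin N → Fin (k+1) =>
          (∀ j : ℕ, j ≤ N → V (S w j)) ∧ ∀ i : Fin (k+1), S w N i = n - 2 * (i : ℕ))).card : ℚ))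
        = Cde.e N (Cde.T n k) := by
    rw [← hwords.1, ← Finset.sum_filter, Finset.sum_const, nsmul_eq_mul, mul_one]
    congr 2
    ext w
    rw [Finset.mem_filter, Finset.mem_filter, hW]
  rw [hU, hUc, hC, hCc]
  have hn1 : (n : ℚ) + 1 ≠ 0 := by positivity
  have hsum := Cde.T_sum n k hk
  rw [hN'] at hsum
  have hJ : ((Cde.J n (k + 1)).card : ℚ) ≠ 0 := by
    rw [Cde.J_card n (k + 1) (by omega)]
    exact_mod_cast (Nat.choose_pos (by omega)).ne'
  have he : Cde.e N (Cde.T n k) ≠ 0 := by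
    rw [Cde.e_eq_G N _ hT hN']
    exact (Cde.G_pos hT).ne'
  have hN1 : (N : ℚ) + 1 ≠ 0 := by positivity
  have h1 : (∑ μ ∈ Cde.J n (k + 1), Cde.Dn μ) / ((Cde.J n (k + 1)).card : ℚ) = (N : ℚ) / (n + 1) := by
    rw [Cde.uniform_main n k hk, hsum]
    field_simp
  have h2 : Cde.A Cde.Dn N (Cde.T n k) / (Cde.e N (Cde.T n k) * ((N : ℚ) + 1)) =
      (N : ℚ) / (n + 1) := by
    rw [Cde.chain_main n k hk N hN']
    field_simp
  exact ⟨h1.trans h2.symm, h1⟩

end Pool.Agent.S12433
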