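import Pool.Statements.S12897

set_option autoImplicit false
open Pool Pool.MP_26524f_gt

namespace Pool.Agent.S12897

/-- a γ-cover of `X` by relatively open sets (open in `X`), nontrivial -/
def Gam (X : Set ℝ) (𝒰 : Set (Set ℝ)) : Prop :=
  (∀ U ∈ 𝒰, ∃ V : Set ℝ, IsOpen V ∧ U = V ∩ X) ∧ X ∉ 𝒰 ∧ X ⊆ ⋃₀ 𝒰 ∧ 𝒰.Infinite ∧
    ∀ x ∈ X, {U ∈ 𝒰 | x ∉ U}.Finite

/-- enlarge `U` by the part of `X` outside the closed set `C` -/
def tr (X C U : Set ℝ) : Set ℝ := (U ∩ C) ∪ (X \ C)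

theorem gam_tr {X Y C : Set ℝ} {𝒰 : Set (Set ℝ)} (hC : IsClosed C) (hXC : X ∩ C ⊆ Y) (hYX : Y ⊆ X)
    (h : Gam Y 𝒰) (hno : ¬ ∃ U ∈ 𝒰, X ∩ C ⊆ U) : Gam X (tr X C '' 𝒰) := by
  obtain ⟨h1, h2, h3, h4, h5⟩ := h
  refine ⟨?_, ?_, ?_, ?_, ?_⟩
  · rintro _ ⟨U, hU, rfl⟩
    obtain ⟨V, hV, rfl⟩ := h1 U hU
    refine ⟨V ∪ Cᶜ, hV.union hC.isOpen_compl, ?_⟩
    ext x
    unfold tr
    constructor
    · rintro (⟨⟨hx1, hx2⟩, hx3⟩ | ⟨hx1, hx2⟩)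
      · exact ⟨Or.inl hx1, hYX hx2⟩
      · exact ⟨Or.inr hx2, hx1⟩
    · rintro ⟨hx1, hx2⟩
      by_cases hx3 : x ∈ C
      · rcases hx1 with hx1 | hx1
        · exact Or.inl ⟨⟨hx1, hXC ⟨hx2, hx3⟩⟩, hx3⟩
        · exact absurd hx3 hx1
      · exact Or.inr ⟨hx2, hx3⟩
  · rintro ⟨U, hU, hUX⟩
    apply hno
    refine ⟨U, hU, ?_⟩
    rintro x ⟨hx1, hx2⟩
    have : x ∈ tr X C U := by rw [hUX]; exact hx1
    rcases this with this | this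
    · exact this.1
    · exact absurd hx2 this.2
  · intro x hx
    by_cases hx3 : x ∈ C
    · obtain ⟨U, hU, hxU⟩ := h3 (hXC ⟨hx, hx3⟩)
      exact ⟨_, ⟨U, hU, rfl⟩, Or.inl ⟨hxU, hx3⟩⟩
    · obtain ⟨U, hU⟩ := h4.nonempty
      exact ⟨_, ⟨U, hU, rfl⟩, Or.inr ⟨hx, hx3⟩⟩
  · intro hfin
    have : ∃ W ∈ tr X C '' 𝒰, (𝒰 ∩ tr X C ⁻¹' {W}).Infinite := by
      by_contra hcon
      push Not at hcon
      apply h4
      refine (Set.Finite.biUnion hfin (t := fun W => 𝒰 ∩ tr X C ⁻¹' {W})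
        (fun W hW => hcon W hW)).subset ?_
      intro U hU
      simp only [Set.mem_iUnion]
      exact ⟨tr X C U, ⟨U, hU, rfl⟩, hU, rfl⟩
    obtain ⟨W, hW, hinf⟩ := this
    obtain ⟨U, hU, hUW⟩ := hinf.nonempty
    apply hno
    refine ⟨U, hU, ?_⟩
    rintro x ⟨hx1, hx2⟩
    have hfin' := h5 x (hXC ⟨hx1, hx2⟩)
    obtain ⟨U', hU', hxU'⟩ := (hinf.sdiff hfin').nonempty
    have hxU'' : x ∈ U' := by
      by_contra hcon
      exact hxU' ⟨hU'.1, hcon⟩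
    have h6 : tr X C U' = W := hU'.2
    have h7 : tr X C U = W := hUW
    have h8 : x ∈ tr X C U := by
      rw [h7, ← h6]
      exact Or.inl ⟨hxU'', hx2⟩
    rcases h8 with h8 | h8
    · exact h8.1
    · exact absurd hx2 h8.2
  · intro x hx
    by_cases hx3 : x ∈ C
    · refine ((h5 x (hXC ⟨hx, hx3⟩)).image (tr X C)).subset ?_
      rintro _ ⟨⟨U, hU, rfl⟩, hxU⟩
      refine ⟨U, ⟨hU, ?_⟩, rfl⟩
      intro hcon
      exact hxU (Or.inl ⟨hcon, hx3⟩)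
    · refine Set.finite_empty.subset ?_
      rintro _ ⟨⟨U, hU, rfl⟩, hxU⟩
      exact hxU (Or.inr ⟨hx, hx3⟩)

/-- If a set of reals has the property that from any sequence of open γ-covers one can pick finitely many sets from each so that together they form an open ω-cover, then every F_σ subset (relative to the set) has the same property. -/
theorem result :
    ∀ P : Set ℝ → Prop,
      (∀ X : Set ℝ, P X ↔
        ∀ 𝒰 : ℕ → Set (Set ℝ),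
          (∀ n, (∀ U ∈ 𝒰 n, ∃ V : Set ℝ, IsOpen V ∧ U = V ∩ X) ∧ X ∉ 𝒰 n ∧
              X ⊆ ⋃₀ (𝒰 n) ∧ (𝒰 n).Infinite ∧
              ∀ x ∈ X, {U ∈ 𝒰 n | x ∉ U}.Finite) →
          ∃ ℱ : ℕ → Set (Set ℝ), (∀ n, (ℱ n).Finite ∧ ℱ n ⊆ 𝒰 n) ∧
            X ∉ (⋃ n, ℱ n) ∧ X ⊆ ⋃₀ (⋃ n, ℱ n) ∧
            ∀ F : Finset ℝ, (↑F : Set ℝ) ⊆ X →
              ∃ U ∈ (⋃ n, ℱ n), (↑F : Set ℝ) ⊆ U) →
      ∀ X Y : Set ℝ,
        (∃ K : ℕ → Set ℝ, (∀ n, IsClosed (K n)) ∧ Y = X ∩ (⋃ n, K n)) →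
        P X → P Y := by
  intro P hP X Y hY hPX
  obtain ⟨K, hK, hYK⟩ := hY
  rw [hP] at hPX ⊢
  intro 𝒰 h𝒰
  have hG : ∀ n, Gam Y (𝒰 n) := fun n => h𝒰 n
  -- increasing closed sets
  set C : ℕ → Set ℝ := fun k => ⋃ i ∈ Finset.range (k + 1), K i with hCdef
  have hCc : ∀ k, IsClosed (C k) := fun k =>
    isClosed_biUnion_finset (fun i _ => hK i)
  have hCm : Monotone C := by
    intro k l hkl x hx
    simp only [hCdef, Set.mem_iUnion, Finset.mem_range] at hx ⊢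
    obtain ⟨i, hi, hx⟩ := hx
    exact ⟨i, by omega, hx⟩
  have hXC : ∀ k, X ∩ C k ⊆ Y := by
    rintro k x ⟨hx1, hx2⟩
    simp only [hCdef, Set.mem_iUnion, Finset.mem_range] at hx2
    obtain ⟨i, hi, hx⟩ := hx2
    rw [hYK]
    exact ⟨hx1, Set.mem_iUnion.2 ⟨i, hx⟩⟩
  have hYX : Y ⊆ X := by rw [hYK]; exact Set.inter_subset_left
  have hF : ∀ F : Finset ℝ, (↑F : Set ℝ) ⊆ Y → ∀ k₀, ∃ k ≥ k₀, (↑F : Set ℝ) ⊆ C k := by
    intro F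
    induction F using Finset.induction_on with
    | empty => intro _ k₀; exact ⟨k₀, le_rfl, by simp⟩
    | insert a F ha ih =>
      intro hFY k₀
      obtain ⟨k, hk, hFk⟩ := ih (fun x hx => hFY (by
        rw [Finset.coe_insert]; exact Set.mem_insert_of_mem _ hx)) k₀
      have haY : a ∈ Y := hFY (by simp)
      rw [hYK] at haY
      obtain ⟨i, hi⟩ := Set.mem_iUnion.1 haY.2
      refine ⟨max k i, le_trans hk (le_max_left _ _), ?_⟩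
      intro x hx
      rw [Finset.coe_insert] at hx
      rcases hx with rfl | hx
      · exact hCm (le_max_right k i) (by
          simp only [hCdef, Set.mem_iUnion, Finset.mem_range]
          exact ⟨i, by omega, hi⟩)
      · exact hCm (le_max_left k i) (hFk hx)
  -- it is enough to find an ω-family
  suffices hs : ∃ ℱ : ℕ → Set (Set ℝ), (∀ n, (ℱ n).Finite ∧ ℱ n ⊆ 𝒰 n) ∧
      ∀ F : Finset ℝ, (↑F : Set ℝ) ⊆ Y → ∃ U ∈ (⋃ n, ℱ n), (↑F : Set ℝ) ⊆ U by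
    obtain ⟨ℱ, h1, h2⟩ := hs
    refine ⟨ℱ, h1, ?_, ?_, h2⟩
    · intro hcon
      obtain ⟨n, hn⟩ := Set.mem_iUnion.1 hcon
      exact (hG n).2.1 ((h1 n).2 hn)
    · intro x hx
      obtain ⟨U, hU, hxU⟩ := h2 {x} (by simpa using hx)
      exact ⟨U, hU, hxU (by simp)⟩
  set A : ℕ → Set ℕ := fun k => {n | ∃ U ∈ 𝒰 n, X ∩ C k ⊆ U} with hA
  have hAm : ∀ {k l : ℕ}, k ≤ l → A l ⊆ A k := by
    rintro k l hkl n ⟨U, hU, hU2⟩
    exact ⟨U, hU, fun x hx => hU2 ⟨hx.1, hCm hkl hx.2⟩⟩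
  by_cases hcase : ∀ k, (A k).Infinite
  · classical
    -- the greatest good index
    set g : ℕ → ℕ := fun n => Nat.findGreatest (fun k => n ∈ A k) n with hg
    have hch : ∀ n, ∃ ℱ : Set (Set ℝ), (ℱ.Finite ∧ ℱ ⊆ 𝒰 n) ∧
        (n ∈ A (g n) → ∃ U ∈ ℱ, X ∩ C (g n) ⊆ U) := by
      intro n
      by_cases hn : n ∈ A (g n)
      · obtain ⟨U, hU, hU2⟩ := hn
        exact ⟨{U}, ⟨Set.finite_singleton U, by simpa using hU⟩, fun _ => ⟨U, rfl, hU2⟩⟩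
      · exact ⟨∅, ⟨Set.finite_empty, Set.empty_subset _⟩, fun h => absurd h hn⟩
    choose ℱ hℱ1 hℱ2 using hch
    refine ⟨ℱ, hℱ1, ?_⟩
    intro F hFY
    obtain ⟨k, -, hFk⟩ := hF F hFY 0
    obtain ⟨n, hn, hkn⟩ := (hcase k).exists_gt k
    have h1 : k ≤ g n := Nat.le_findGreatest hkn.le hn
    have h2 : n ∈ A (g n) := Nat.findGreatest_spec (P := fun k => n ∈ A k) hkn.le hn
    obtain ⟨U, hU, hU2⟩ := hℱ2 n h2
    refine ⟨U, Set.mem_iUnion.2 ⟨n, hU⟩, ?_⟩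
    intro x hx
    exact hU2 ⟨hYX (hFY hx), hCm h1 (hFk hx)⟩
  · push Not at hcase
    obtain ⟨k₀, hk₀⟩ := hcase
    obtain ⟨N, hN⟩ := hk₀.bddAbove
    have hno : ∀ j, k₀ ≤ j → ∀ n, N < n → ¬ ∃ U ∈ 𝒰 n, X ∩ C j ⊆ U := by
      intro j hj n hn hcon
      have : n ∈ A k₀ := hAm hj hcon
      exact absurd (hN this) (by omega)
    -- apply the property of `X` along the `j`-th block
    have key : ∀ j, k₀ ≤ j → ∃ ℱ : ℕ → Set (Set ℝ),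
        (∀ m, (ℱ m).Finite ∧ ℱ m ⊆ tr X (C j) '' 𝒰 (N + 1 + Nat.pair j m)) ∧
        ∀ F : Finset ℝ, (↑F : Set ℝ) ⊆ X → ∃ U ∈ (⋃ n, ℱ n), (↑F : Set ℝ) ⊆ U := by
      intro j hj
      obtain ⟨ℱ, h1, -, -, h4⟩ := hPX (fun m => tr X (C j) '' 𝒰 (N + 1 + Nat.pair j m))
        (fun m => gam_tr (hCc j) (hXC j) hYX (hG _) (hno j hj _ (by omega)))
      exact ⟨ℱ, h1, h4⟩
    have key2 : ∀ j, ∃ ℱ : ℕ → Set (Set ℝ), (∀ m, (ℱ m).Finite ∧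
        ℱ m ⊆ 𝒰 (N + 1 + Nat.pair j m)) ∧ (k₀ ≤ j →
        ∀ F : Finset ℝ, (↑F : Set ℝ) ⊆ X ∩ C j → ∃ U ∈ (⋃ n, ℱ n), (↑F : Set ℝ) ⊆ U) := by
      intro j
      by_cases hj : k₀ ≤ j
      · obtain ⟨ℱ, h1, h2⟩ := key j hj
        have h3 : ∀ m, ∃ 𝒢 : Set (Set ℝ), 𝒢 ⊆ 𝒰 (N + 1 + Nat.pair j m) ∧ 𝒢.Finite ∧
            tr X (C j) '' 𝒢 = ℱ m := by
          intro m
          have h5 := Set.exists_subset_image_finite_and (f := tr X (C j))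
            (s := 𝒰 (N + 1 + Nat.pair j m)) (p := fun T => T = ℱ m)
          obtain ⟨𝒢, hg1, hg2, hg3⟩ := h5.1 ⟨ℱ m, (h1 m).2, (h1 m).1, rfl⟩
          exact ⟨𝒢, hg1, hg2, hg3⟩
        choose 𝒢 hg1 hg2 hg3 using h3
        refine ⟨𝒢, fun m => ⟨hg2 m, hg1 m⟩, fun _ F hFX => ?_⟩
        obtain ⟨W, hW, hFW⟩ := h2 F (fun x hx => (hFX hx).1)
        obtain ⟨m, hm⟩ := Set.mem_iUnion.1 hW
        rw [← hg3 m] at hm
        obtain ⟨U, hU, rfl⟩ := hm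
        refine ⟨U, Set.mem_iUnion.2 ⟨m, hU⟩, fun x hx => ?_⟩
        rcases hFW hx with h6 | h6
        · exact h6.1
        · exact absurd (hFX hx).2 h6.2
      · exact ⟨fun _ => ∅, fun m => ⟨Set.finite_empty, Set.empty_subset _⟩,
          fun h => absurd h hj⟩
    choose ℱ hℱ1 hℱ2 using key2
    refine ⟨fun n => {U | ∃ j m, n = N + 1 + Nat.pair j m ∧ U ∈ ℱ j m}, ?_, ?_⟩
    · intro n
      constructor
      · by_cases hn : ∃ j m, n = N + 1 + Nat.pair j m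
        · obtain ⟨j, m, hjm⟩ := hn
          refine (hℱ1 j m).1.subset ?_
          rintro U ⟨j', m', h1, h2⟩
          have h3 : Nat.pair j' m' = Nat.pair j m := by omega
          have h4 := Nat.pair_eq_pair.1 h3
          rw [h4.1, h4.2] at h2
          exact h2
        · refine Set.finite_empty.subset ?_
          rintro U ⟨j', m', h1, h2⟩
          exact hn ⟨j', m', h1⟩
      · rintro U ⟨j', m', h1, h2⟩
        rw [h1]
        exact (hℱ1 j' m').2 h2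
    · intro F hFY
      obtain ⟨k, hk, hFk⟩ := hF F hFY k₀
      obtain ⟨U, hU, hFU⟩ := hℱ2 k hk F (fun x hx => ⟨hYX (hFY hx), hFk hx⟩)
      obtain ⟨m, hm⟩ := Set.mem_iUnion.1 hU
      exact ⟨U, Set.mem_iUnion.2 ⟨_, ⟨k, m, rfl, hm⟩⟩, hFU⟩

end Pool.Agent.S12897
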