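import Pool.Statements.S12948
import Pool.Agent.Results.MP_2c1b2b_gt.LinearSegments

set_option autoImplicit false
open Pointwise
open Pool Pool.MP_2c1b2b_gt

namespace Pool.Agent.S12948

open Pool.Agent.Results.MP_2c1b2b_gt.LinearSegments

/-- a symmetric segment -/
theorem mem_seg {n : ℕ} (v x : EuclideanSpace ℝ (Fin n)) :
    x ∈ segment ℝ (-v) v ↔ ∃ t : ℝ, t ∈ Set.Icc (-1 : ℝ) 1 ∧ x = t • v := by
  constructor
  · rintro ⟨a, b, ha, hb, hab, rfl⟩
    refine ⟨b - a, ⟨by linarith, by linarith⟩, ?_⟩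
    module
  · rintro ⟨t, ⟨h1, h2⟩, rfl⟩
    refine ⟨(1 - t) / 2, (1 + t) / 2, by linarith, by linarith, by ring, ?_⟩
    module

/-- the sum of the segments, as a pointwise sum of sets -/
theorem segSum_eq {n M : ℕ} (v : Fin M → EuclideanSpace ℝ (Fin n)) :
    (∑ i, segment ℝ (-v i) (v i)) = segSum v := by
  ext x
  rw [Set.mem_fintype_sum]
  unfold segSum
  constructor
  · rintro ⟨g, hg, rfl⟩
    have h : ∀ i, ∃ t : ℝ, t ∈ Set.Icc (-1 : ℝ) 1 ∧ g i = t • v i := fun i => (mem_seg _ _).1 (hg i)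
    choose t ht1 ht2 using h
    exact ⟨t, ht1, Finset.sum_congr rfl fun i _ => ht2 i⟩
  · rintro ⟨t, ht, rfl⟩
    exact ⟨fun i => t i • v i, fun i => (mem_seg _ _).2 ⟨t i, ht i, rfl⟩, rfl⟩

theorem segSum_convex {n M : ℕ} (v : Fin M → EuclideanSpace ℝ (Fin n)) :
    Convex ℝ (segSum v) := by
  rintro x ⟨s, hs, rfl⟩ y ⟨t, ht, rfl⟩ a b ha hb hab
  refine ⟨fun j => a * s j + b * t j, fun j => ?_, ?_⟩
  · have h1 := hs j
    have h2 := ht j
    exact ⟨by nlinarith [h1.1, h2.1], by nlinarith [h1.2, h2.2]⟩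
  · rw [Finset.smul_sum, Finset.smul_sum, ← Finset.sum_add_distrib]
    refine Finset.sum_congr rfl fun j _ => ?_
    module

theorem segSum_neg {n M : ℕ} {v : Fin M → EuclideanSpace ℝ (Fin n)}
    {x : EuclideanSpace ℝ (Fin n)} (hx : x ∈ segSum v) : -x ∈ segSum v := by
  obtain ⟨t, ht, rfl⟩ := hx
  refine ⟨fun j => -t j, fun j => ⟨by linarith [(ht j).2], by linarith [(ht j).1]⟩, ?_⟩
  rw [← Finset.sum_neg_distrib]
  exact Finset.sum_congr rfl fun j _ => by module

theorem zero_mem {n M : ℕ} (v : Fin M → EuclideanSpace ℝ (Fin n)) : 0 ∈ segSum v :=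
  ⟨fun _ => 0, fun _ => ⟨by norm_num, by norm_num⟩, by simp⟩

theorem segSum_bdd {n M : ℕ} (v : Fin M → EuclideanSpace ℝ (Fin n)) :
    Bornology.IsBounded (segSum v) := by
  refine (Metric.isBounded_iff_subset_closedBall 0).2 ⟨∑ j, ‖v j‖, ?_⟩
  rintro x ⟨t, ht, rfl⟩
  rw [mem_closedBall_zero_iff]
  refine (norm_sum_le _ _).trans (Finset.sum_le_sum fun j _ => ?_)
  rw [norm_smul, Real.norm_eq_abs]
  have : |t j| ≤ 1 := abs_le.2 (ht j)
  exact mul_le_of_le_one_left (norm_nonneg _) this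

theorem smul_segSum {n M : ℕ} (v : Fin M → EuclideanSpace ℝ (Fin n)) (c : ℝ) :
    segSum (fun i => c • v i) = c • segSum v := by
  ext x
  constructor
  · rintro ⟨t, ht, rfl⟩
    refine ⟨∑ j, t j • v j, ⟨t, ht, rfl⟩, ?_⟩
    simp only [Finset.smul_sum]
    exact Finset.sum_congr rfl fun j _ => by module
  · rintro ⟨_, ⟨t, ht, rfl⟩, rfl⟩
    refine ⟨t, ht, ?_⟩
    simp only [Finset.smul_sum]
    exact Finset.sum_congr rfl fun j _ => by module

/-- a compact body which is a limit of symmetric zonotopes is an origin-symmetric zonoid -/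
theorem isZonoid {n : ℕ} {K : Set (EuclideanSpace ℝ (Fin n))} (hK : IsCompact K)
    (hne : (interior K).Nonempty)
    (h : ∀ δ : ℝ, 0 < δ → ∃ m : ℕ, ∃ v : Fin m → EuclideanSpace ℝ (Fin n),
      Metric.hausdorffDist K (∑ i, segment ℝ (-v i) (v i)) < δ) : IsZonoid K := by
  have hKne : K.Nonempty := hne.mono interior_subset
  have hfin : ∀ {m : ℕ} (v : Fin m → EuclideanSpace ℝ (Fin n)),
      Metric.hausdorffEDist K (segSum v) ≠ ⊤ := fun v =>
    Metric.hausdorffEDist_ne_top_of_nonempty_of_bounded hKne ⟨0, zero_mem v⟩ hK.isBounded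
      (segSum_bdd v)
  have key : ∀ (f : EuclideanSpace ℝ (Fin n) → EuclideanSpace ℝ (Fin n) →
      EuclideanSpace ℝ (Fin n)), (∀ x y x' y', dist (f x y) (f x' y') ≤
        max (dist x x') (dist y y')) →
      (∀ (m : ℕ) (v : Fin m → EuclideanSpace ℝ (Fin n)), ∀ x ∈ segSum v, ∀ y ∈ segSum v,
        f x y ∈ segSum v) → ∀ x ∈ K, ∀ y ∈ K, f x y ∈ K := by
    intro f hf1 hf2 x hx y hy
    rw [hK.isClosed.mem_iff_infDist_zero hKne]
    by_contra hcon
    have hpos : 0 < Metric.infDist (f x y) K := lt_of_le_of_ne Metric.infDist_nonneg (Ne.symm hcon)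
    obtain ⟨m, v, hv⟩ := h (Metric.infDist (f x y) K / 2) (by linarith)
    rw [segSum_eq] at hv
    obtain ⟨x', hx', hxx⟩ := Metric.exists_dist_lt_of_hausdorffDist_lt hx hv (hfin v)
    obtain ⟨y', hy', hyy⟩ := Metric.exists_dist_lt_of_hausdorffDist_lt hy hv (hfin v)
    have h1 := hf2 m v x' hx' y' hy'
    obtain ⟨w, hw, hww⟩ := Metric.exists_dist_lt_of_hausdorffDist_lt' h1 hv (hfin v)
    have h2 : Metric.infDist (f x y) K ≤ dist (f x y) w := Metric.infDist_le_dist_of_mem hw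
    have h3 : dist (f x y) w ≤ dist (f x y) (f x' y') + dist (f x' y') w := dist_triangle _ _ _
    have h4 := hf1 x y x' y'
    have h5 : max (dist x x') (dist y y') < Metric.infDist (f x y) K / 2 := max_lt hxx hyy
    have h6 : dist (f x' y') w < Metric.infDist (f x y) K / 2 := by
      rw [dist_comm]; exact hww
    linarith
  refine ⟨?_, hK, hne, ?_, ?_⟩
  · intro x hx y hy a b ha hb hab
    refine key (fun x y => a • x + b • y) ?_ ?_ x hx y hy
    · intro x y x' y'
      have h1 : dist (a • x + b • y) (a • x' + b • y') ≤ a * dist x x' + b * dist y y' := by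
        refine (dist_add_add_le _ _ _ _).trans ?_
        rw [dist_smul₀, dist_smul₀, Real.norm_of_nonneg ha, Real.norm_of_nonneg hb]
      refine h1.trans ?_
      have h2 := le_max_left (dist x x') (dist y y')
      have h3 := le_max_right (dist x x') (dist y y')
      have h4 := mul_le_mul_of_nonneg_left h2 ha
      have h5 := mul_le_mul_of_nonneg_left h3 hb
      have h6 : a * max (dist x x') (dist y y') + b * max (dist x x') (dist y y') =
          max (dist x x') (dist y y') := by rw [← add_mul, hab, one_mul]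
      linarith
    · intro m v x hx y hy
      exact segSum_convex v hx hy ha hb hab
  · intro x hx
    refine key (fun x _ => -x) ?_ ?_ x hx x hx
    · intro x y x' y'
      simp only [dist_neg_neg]
      exact le_max_left _ _
    · intro m v x hx _ _
      exact segSum_neg hx
  · intro δ hδ
    obtain ⟨m, v, hv⟩ := h δ hδ
    refine ⟨m, segSum v, ⟨0, v, ?_⟩, by rwa [segSum_eq] at hv⟩
    ext x
    simp

/-- The negation of the preceding statement: For some ε>0 and every constant C, there is a dimension n and a zonoid K in ℝⁿ that is not within Banach–Mazur distance 1+ε of any sum of at most C·n segments, i.e. the bound C(ε)·n fails in general. -/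
theorem result :
    ¬ (∃ ε : ℝ, 0 < ε ∧ ∀ C : ℝ, ∃ n : ℕ, ∃ K : Set (EuclideanSpace ℝ (Fin n)),
      IsCompact K ∧ (interior K).Nonempty ∧
      (∀ δ : ℝ, 0 < δ → ∃ m : ℕ, ∃ v : Fin m → EuclideanSpace ℝ (Fin n),
          Metric.hausdorffDist K (∑ i, segment ℝ (-v i) (v i)) < δ) ∧
      ¬ ∃ m : ℕ, (m : ℝ) ≤ C * n ∧
          ∃ v : Fin m → EuclideanSpace ℝ (Fin n),
          ∃ T : EuclideanSpace ℝ (Fin n) ≃ₗ[ℝ] EuclideanSpace ℝ (Fin n),
            T '' K ⊆ ∑ i, segment ℝ (-v i) (v i) ∧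
            ∑ i, segment ℝ (-v i) (v i) ⊆ (1 + ε) • (T '' K)) := by
  rintro ⟨ε, hε, h⟩
  obtain ⟨C, hC, hmain⟩ := Pool.Agent.Results.MP_2c1b2b_gt.LinearSegments.result
  set η : ℝ := min ε (1 / 2) with hη
  have hη0 : 0 < η := lt_min hε (by norm_num)
  have hη1 : η < 1 := lt_of_le_of_lt (min_le_right _ _) (by norm_num)
  have hηε : η ≤ ε := min_le_left _ _
  obtain ⟨n, K, hK, hne, hlim, hno⟩ := h (C / η ^ 2)
  have hZ := isZonoid hK hne hlim
  obtain ⟨-, M, v, hM, h1, h2⟩ := hmain n K hZ η hη0 hη1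
  apply hno
  refine ⟨M, hM, fun i => (1 + η) • v i, LinearEquiv.refl ℝ _, ?_, ?_⟩
  · rw [segSum_eq, smul_segSum]
    intro x hx
    obtain ⟨y, hy, rfl⟩ := hx
    exact h2 hy
  · rw [segSum_eq, smul_segSum]
    rintro _ ⟨x, hx, rfl⟩
    have hxK : x ∈ K := h1 hx
    have h0K : (0 : EuclideanSpace ℝ (Fin n)) ∈ K := h1 (zero_mem v)
    refine ⟨((1 + η) / (1 + ε)) • x, ⟨((1 + η) / (1 + ε)) • x, ?_, rfl⟩, ?_⟩
    · have h3 : (1 + η) / (1 + ε) ≤ 1 := by
        rw [div_le_one (by linarith)]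
        linarith
      have h4 : 0 ≤ (1 + η) / (1 + ε) := by positivity
      have := hZ.1 hxK h0K h4 (sub_nonneg.2 h3) (by ring)
      simpa using this
    · simp only [smul_smul]
      congr 1
      field_simp

end Pool.Agent.S12948
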