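import Pool.Statements.S13574
import Pool.Agent.J4.H94.CpConv

set_option autoImplicit false
open Pool Pool.MP_916210_gt

namespace Pool.Agent.S13574

/-- The negation of the preceding statement: For every infinite Tychonoff space X: if C_p(X) is linearly homeomorphic to C_p(X ⊕ A) for each subspace A with a continuous linear extender, then C_p(X × convergent sequence) is linearly homeomorphic to C_p(X). -/
theorem result :
    ¬ (∀ (X : Type) [TopologicalSpace X] [T35Space X] [Infinite X],
      (∀ A : Set X,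
        (∃ φ : C(A, ℝ) →ₗ[ℝ] C(X, ℝ),
          @Continuous _ _
            (TopologicalSpace.induced (fun f : C(A, ℝ) => (f : A → ℝ)) inferInstance)
            (TopologicalSpace.induced (fun f : C(X, ℝ) => (f : X → ℝ)) inferInstance)
            (⇑φ) ∧
          ∀ f : C(A, ℝ), ∀ a : A, φ f a = f a) →
        ∃ e : C(X, ℝ) ≃ₗ[ℝ] C(X ⊕ A, ℝ),
          @Continuous _ _
            (TopologicalSpace.induced (fun f : C(X, ℝ) => (f : X → ℝ)) inferInstance)
            (TopologicalSpace.induced (fun f : C(X ⊕ A, ℝ) => (f : X ⊕ A → ℝ)) inferInstance)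
            (⇑e) ∧
          @Continuous _ _
            (TopologicalSpace.induced (fun f : C(X ⊕ A, ℝ) => (f : X ⊕ A → ℝ)) inferInstance)
            (TopologicalSpace.induced (fun f : C(X, ℝ) => (f : X → ℝ)) inferInstance)
            (⇑e.symm)) →
      ∃ e : C(X × OnePoint ℕ, ℝ) ≃ₗ[ℝ] C(X, ℝ),
        @Continuous _ _
          (TopologicalSpace.induced (fun f : C(X × OnePoint ℕ, ℝ) => (f : X × OnePoint ℕ → ℝ)) inferInstance)
          (TopologicalSpace.induced (fun f : C(X, ℝ) => (f : X → ℝ)) inferInstance)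
          (⇑e) ∧
        @Continuous _ _
          (TopologicalSpace.induced (fun f : C(X, ℝ) => (f : X → ℝ)) inferInstance)
          (TopologicalSpace.induced (fun f : C(X × OnePoint ℕ, ℝ) => (f : X × OnePoint ℕ → ℝ)) inferInstance)
          (⇑e.symm)) := by
  intro H
  have hinf : Infinite (Ultrafilter ℕ) :=
    Infinite.of_injective (pure : ℕ → Ultrafilter ℕ) (fun a b h => by
      have h1 : ({a} : Set ℕ) ∈ (pure b : Ultrafilter ℕ) := by
        rw [← h]
        exact Ultrafilter.mem_pure.2 rfl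
      exact (Ultrafilter.mem_pure.1 h1).symm)
  refine ?_
  have key := H (Ultrafilter ℕ) ?_
  · obtain ⟨e, he, he'⟩ := key
    obtain ⟨h⟩ := Pool.Agent.J4.H94.CpConv.exists_homeo
    have h1 : Pool.Agent.Results.MP_916210_gt.BetaOmega.LEquivalent
        (Ultrafilter ℕ × OnePoint ℕ) (Ultrafilter ℕ) :=
      Pool.Agent.J4.H94.CpConv.lequiv_of e he he'
    have h2 : Pool.Agent.Results.MP_916210_gt.BetaOmega.LEquivalent
        (Ultrafilter ℕ × ℕ∞) (Ultrafilter ℕ × OnePoint ℕ) :=
      Pool.Agent.Results.MP_916210_gt.BetaOmega.LEquivalent.of_homeo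
        ((Homeomorph.refl _).prodCongr h.symm)
    exact Pool.Agent.Results.MP_916210_gt.BetaOmega.not_sstable (h2.trans h1)
  · intro A hA
    obtain ⟨φ, hφ, hφ'⟩ := hA
    have h1 : Pool.Agent.Results.MP_916210_gt.BetaOmega.IsLEmbedded A :=
      ⟨Pool.Agent.J4.H94.CpConv.mapTo φ hφ, fun f a => hφ' ⟨f.1, f.2⟩ a⟩
    exact Pool.Agent.J4.H94.CpConv.exists_of_lequiv
      (Pool.Agent.Results.MP_916210_gt.BetaOmega.lstable A h1)

end Pool.Agent.S13574
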