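import Pool.Statements.S13885

set_option autoImplicit false
open Pool Pool.MP_c36963_gt

namespace Pool.Agent.S13885

/-- The retraction of the closed disk that fixes the circle and maps the open disk to `1`. -/
noncomputable def ret (z : ℂ) : ℂ := if ‖z‖ = 1 then z else 1

theorem ret_of {z : ℂ} (h : ‖z‖ = 1) : ret z = z := if_pos h

theorem ret_of_ne {z : ℂ} (h : ‖z‖ ≠ 1) : ret z = 1 := if_neg h

theorem norm_ret (z : ℂ) : ‖ret z‖ = 1 := by
  by_cases h : ‖z‖ = 1
  · rw [ret_of h, h]
  · rw [ret_of_ne h]; simp

/-- There exists r : ℂ → ℂ mapping the closed unit disk into the unit circle, fixing the circle, with connected fibers in the disk, such that only finitely many circle points y fail: for all circle sequences s_n → y, every point of the Kuratowski lim sup of the fibers r⁻¹(s_n) lies in r⁻¹(y). -/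
theorem result :
    ∃ r : ℂ → ℂ,
      (∀ z ∈ Metric.closedBall (0:ℂ) 1, r z ∈ Metric.sphere (0:ℂ) 1) ∧
      (∀ y ∈ Metric.sphere (0:ℂ) 1, r y = y) ∧
      (∀ y ∈ Metric.sphere (0:ℂ) 1,
        IsConnected {z : ℂ | z ∈ Metric.closedBall (0:ℂ) 1 ∧ r z = y}) ∧
      Set.Finite {y : ℂ | y ∈ Metric.sphere (0:ℂ) 1 ∧
        ¬ (∀ s : ℕ → ℂ, (∀ n, s n ∈ Metric.sphere (0:ℂ) 1) →
            Filter.Tendsto s Filter.atTop (nhds y) →
            ∀ x : ℂ, (∀ ε : ℝ, ε > 0 → ∀ N : ℕ, ∃ n : ℕ, n ≥ N ∧
                ∃ z : ℂ, z ∈ Metric.closedBall (0:ℂ) 1 ∧ r z = s n ∧ dist z x < ε) →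
              r x = y)} := by
  refine ⟨ret, fun z _ => by simp [norm_ret], fun y hy => ret_of (by simpa using hy), ?_, ?_⟩
  · intro y hy
    have hy1 : ‖y‖ = 1 := by simpa using hy
    by_cases h1 : y = 1
    · -- the fibre over `1`: the open disk together with the point `1`
      subst h1
      have hball : IsConnected (Metric.ball (0:ℂ) 1) :=
        (convex_ball (0:ℂ) 1).isConnected ⟨0, by simp⟩
      refine hball.subset_closure ?_ ?_
      · intro z hz
        have hz' : ‖z‖ < 1 := by simpa using hz
        exact ⟨Metric.ball_subset_closedBall hz, ret_of_ne hz'.ne⟩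
      · rintro z ⟨hz, -⟩
        rwa [closure_ball (0:ℂ) one_ne_zero]
    · -- the other fibres are points
      have : {z : ℂ | z ∈ Metric.closedBall (0:ℂ) 1 ∧ ret z = y} = {y} := by
        ext z
        simp only [Set.mem_setOf_eq, Set.mem_singleton_iff]
        constructor
        · rintro ⟨-, hz⟩
          by_cases hn : ‖z‖ = 1
          · rwa [ret_of hn] at hz
          · rw [ret_of_ne hn] at hz
            exact absurd hz.symm h1
        · rintro rfl
          exact ⟨by simp [hy1], ret_of hy1⟩
      rw [this]
      exact isConnected_singleton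
  · refine (Set.finite_singleton (1:ℂ)).subset ?_
    rintro y ⟨hy, hbad⟩
    by_contra h1
    rw [Set.mem_singleton_iff] at h1
    apply hbad
    intro s _ hsy x hx
    have hy1 : ‖y‖ = 1 := by simpa using hy
    have hxy : x = y := by
      by_contra hxy
      have hpos : 0 < dist x y := dist_pos.2 hxy
      have h1y : 0 < dist y 1 := dist_pos.2 h1
      obtain ⟨N, hN⟩ := (Metric.tendsto_atTop.1 hsy) (min (dist x y / 2) (dist y 1))
        (lt_min (by linarith) h1y)
      obtain ⟨n, hn, z, -, hz, hzx⟩ := hx (dist x y / 2) (by linarith) N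
      have hsn := hN n hn
      have hne : s n ≠ 1 := by
        intro h
        rw [h, dist_comm] at hsn
        exact absurd (lt_of_lt_of_le hsn (min_le_right _ _)) (lt_irrefl _)
      have hzs : z = s n := by
        by_cases hn' : ‖z‖ = 1
        · rwa [ret_of hn'] at hz
        · rw [ret_of_ne hn'] at hz
          exact absurd hz.symm hne
      have h2 : dist (s n) y < dist x y / 2 := lt_of_lt_of_le hsn (min_le_left _ _)
      have h3 : dist x y ≤ dist z x + dist z y := by
        rw [dist_comm z x]; exact dist_triangle x z y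
      rw [hzs] at h3 hzx
      linarith
    rw [hxy]
    exact ret_of hy1

end Pool.Agent.S13885
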