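import Pool.Statements.S14767
import Pool.Agent.V11234.HD.Sem
import Pool.Agent.Results.MP_5f3cbe_lc.AdmissibleDefinable

/-!
The ring of the frozen statement (functions on the plane which are holomorphic on the disc and take
the value `g 0` outside of it) is isomorphic to the ring `HD` of holomorphic functions on the disc,
and the formula found for the latter is transferred.
-/

set_option autoImplicit false
open Pool Pool.MP_5f3cbe_lc

namespace Pool.Agent.S14767

open Metric Set Complex Filter Topology Asymptotics Pool.Agent.V11234.HD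
open Pool.Agent.Results.MP_5f3cbe_lc.AdmissibleDefinable (ext0 T Admissible)

/-- the set of the statement -/
abbrev SS : Set (ℂ → ℂ) := {g : ℂ → ℂ | DifferentiableOn ℂ g (Metric.ball (0:ℂ) 1) ∧
                ∀ z ∉ Metric.ball (0:ℂ) 1, g z = g 0}

/-- the set of the statement is a subring -/
def RR : Subring (ℂ → ℂ) where
  carrier := SS
  mul_mem' := by
    rintro a b ⟨ha, ha'⟩ ⟨hb, hb'⟩
    exact ⟨ha.mul hb, fun z hz => by rw [Pi.mul_apply, Pi.mul_apply, ha' z hz, hb' z hz]⟩
  one_mem' := ⟨differentiableOn_const _, fun z _ => rfl⟩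
  add_mem' := by
    rintro a b ⟨ha, ha'⟩ ⟨hb, hb'⟩
    exact ⟨ha.add hb, fun z hz => by rw [Pi.add_apply, Pi.add_apply, ha' z hz, hb' z hz]⟩
  zero_mem' := ⟨differentiableOn_const _, fun z _ => rfl⟩
  neg_mem' := by
    rintro a ⟨ha, ha'⟩
    exact ⟨ha.neg, fun z hz => by rw [Pi.neg_apply, Pi.neg_apply, ha' z hz]⟩

theorem mem_closure_iff (g : ℂ → ℂ) : g ∈ Subring.closure SS ↔ g ∈ SS := by
  constructor
  · intro h
    have h1 : Subring.closure SS ≤ RR := (Subring.closure_le).2 (fun x hx => hx)
    exact h1 h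
  · intro h
    exact Subring.subset_closure h

/-- restriction to the disc -/
noncomputable def res : ↥(Subring.closure SS) →+* HD where
  toFun f := mk f.1 ((mem_closure_iff f.1).1 f.2).1
  map_one' := rfl
  map_mul' _ _ := rfl
  map_zero' := rfl
  map_add' _ _ := rfl

theorem zero_mem : (0 : ℂ) ∈ ball (0 : ℂ) 1 := mem_ball_self one_pos

theorem res_bij : Function.Bijective res := by
  constructor
  · intro f g h
    apply Subtype.ext
    funext z
    have key : ∀ z ∈ ball (0 : ℂ) 1, f.1 z = g.1 z := by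
      intro z hz
      have h1 : (res f).1 ⟨z, hz⟩ = (res g).1 ⟨z, hz⟩ := by rw [h]
      exact h1
    by_cases hz : z ∈ ball (0 : ℂ) 1
    · exact key z hz
    · rw [((mem_closure_iff f.1).1 f.2).2 z hz, ((mem_closure_iff g.1).1 g.2).2 z hz]
      exact key 0 zero_mem
  · intro f
    obtain ⟨F, hF, rfl⟩ := rep f
    classical
    let G : ℂ → ℂ := fun z => if z ∈ ball (0 : ℂ) 1 then F z else F 0
    have hG : ∀ z ∈ ball (0 : ℂ) 1, G z = F z := fun z hz => if_pos hz
    have hG' : ∀ z ∉ ball (0 : ℂ) 1, G z = G 0 := by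
      intro z hz
      rw [hG 0 zero_mem]
      exact if_neg hz
    have hGd : DifferentiableOn ℂ G (ball 0 1) := hF.congr hG
    refine ⟨⟨G, (mem_closure_iff G).2 ⟨hGd, hG'⟩⟩, ?_⟩
    apply ext'
    intro z
    exact hG z z.2

/-- the isomorphism -/
noncomputable def iso : ↥(Subring.closure SS) ≃+* HD := RingEquiv.ofBijective res res_bij

theorem growth (f : ↥(Subring.closure SS)) :
    Admissible (iso f) ↔ ¬ Asymptotics.IsBigO (nhdsWithin (1:ℝ) (Set.Iio 1))
            (fun r : ℝ => (2 * Real.pi)⁻¹ *
              ∫ θ in (0:ℝ)..(2 * Real.pi),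
                Real.posLog ‖(f : ℂ → ℂ) ((r : ℂ) * Complex.exp ((θ : ℂ) * Complex.I))‖)
            (fun r : ℝ => Real.log (1 - r)⁻¹) := by
  unfold Admissible
  rw [not_iff_not]
  refine isBigO_congr ?_ ?_
  · filter_upwards [Ioo_mem_nhdsLT (by norm_num : (0 : ℝ) < 1)] with r hr
    unfold T
    congr 1
    apply intervalIntegral.integral_congr
    intro θ _
    have h2 : (r : ℂ) * exp (θ * I) ∈ ball (0 : ℂ) 1 := by
      rw [mem_ball_zero_iff, norm_mul, Complex.norm_exp_ofReal_mul_I, mul_one, Complex.norm_real,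
        Real.norm_of_nonneg hr.1.le]
      exact hr.2
    simp only
    rw [ext0, dif_pos h2]
    rw [Real.posLog, max_comm]
    rfl
  · refine Eventually.of_forall fun r => ?_
    simp only [one_div]

/-- There is a parameter-free first-order ring formula that, in the ring of holomorphic functions on the unit disc, holds of f exactly when its Nevanlinna characteristic T(r,f) is not O(log 1/(1-r)) as r tends to 1 from below. -/
theorem result :
    ∃ φ : FirstOrder.Language.ring.Formula (Fin 1),
      ∀ f : ↥(Subring.closure {g : ℂ → ℂ | DifferentiableOn ℂ g (Metric.ball (0:ℂ) 1) ∧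
                ∀ z ∉ Metric.ball (0:ℂ) 1, g z = g 0}),
        (@FirstOrder.Language.Formula.Realize FirstOrder.Language.ring
            ↥(Subring.closure {g : ℂ → ℂ | DifferentiableOn ℂ g (Metric.ball (0:ℂ) 1) ∧
                ∀ z ∉ Metric.ball (0:ℂ) 1, g z = g 0})
            (FirstOrder.Ring.compatibleRingOfRing
              ↥(Subring.closure {g : ℂ → ℂ | DifferentiableOn ℂ g (Metric.ball (0:ℂ) 1) ∧
                ∀ z ∉ Metric.ball (0:ℂ) 1, g z = g 0})).toStructure
            (Fin 1) φ (fun _ => f)) ↔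
        ¬ Asymptotics.IsBigO (nhdsWithin (1:ℝ) (Set.Iio 1))
            (fun r : ℝ => (2 * Real.pi)⁻¹ *
              ∫ θ in (0:ℝ)..(2 * Real.pi),
                Real.posLog ‖(f : ℂ → ℂ) ((r : ℂ) * Complex.exp ((θ : ℂ) * Complex.I))‖)
            (fun r : ℝ => Real.log (1 - r)⁻¹) := by
  obtain ⟨φ, hφ⟩ := Pool.Agent.Results.MP_5f3cbe_lc.AdmissibleDefinable.result
  refine ⟨φ, fun f => ?_⟩
  rw [← growth f, ← hφ (iso f)]
  let i1 : FirstOrder.Ring.CompatibleRing ↥(Subring.closure SS) :=
    FirstOrder.Ring.compatibleRingOfRing ↥(Subring.closure SS)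
  let e : FirstOrder.Language.ring.Equiv ↥(Subring.closure SS) HD :=
    FirstOrder.Ring.languageEquivEquivRingEquiv.symm iso
  have h := FirstOrder.Language.StrongHomClass.realize_formula e φ (v := fun _ => f)
  exact h.symm

end Pool.Agent.S14767
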