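import Pool.Statements.S14895

set_option autoImplicit false
open Pool Pool.MP_735cdd_lc

namespace Pool.Agent.S14895

open FirstOrder

/-- The language of the frozen statement. -/
abbrev LG : FirstOrder.Language.{0, 0} :=
  FirstOrder.Language.mk (fun _ => Unit) (fun _ => Empty)

/-- Binary product of terms. -/
def mulT {α : Type} (s t : LG.Term α) : LG.Term α :=
  FirstOrder.Language.Term.func (L := LG) (l := 2) () ![s, t]

/-- The nested term `a_i (a_{i+1} ( ... y^2 ...)^2)^2` with `n` nestings. -/
def nest : ℕ → ℕ → LG.Term ((Unit ⊕ ℕ) ⊕ Fin 1)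
  | 0, _ => FirstOrder.Language.Term.var (Sum.inr 0)
  | n + 1, i =>
      mulT (FirstOrder.Language.Term.var (Sum.inl (Sum.inr i)))
        (mulT (nest n (i + 1)) (nest n (i + 1)))

/-- Value of the nested term. -/
def val {G : Type} [Group G] (v : ℕ → G) (y : G) : ℕ → ℕ → G
  | 0, _ => y
  | n + 1, i => v i * (val v y n (i + 1) * val v y n (i + 1))

/-- The formula `∃ y, c = a_0 (a_1 ( ... y^2 ...)^2)^2`. -/
def psi (n : ℕ) : LG.Formula (Unit ⊕ ℕ) :=
  (FirstOrder.Language.BoundedFormula.ex
    (FirstOrder.Language.Term.bdEqual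
      (FirstOrder.Language.Term.var (Sum.inl (Sum.inl ()))) (nest n 0)) :
      LG.BoundedFormula (Unit ⊕ ℕ) 0)

section
variable {G : Type} [Group G] [S : LG.Structure G]
  (hS : ∀ (n : ℕ) (f : LG.Functions n) (xs : Fin n → G),
        FirstOrder.Language.Structure.funMap f xs = (List.ofFn xs).prod)

include hS in
theorem realize_mulT {α : Type} (s t : LG.Term α) (v : α → G) :
    (mulT s t).realize v = s.realize v * t.realize v := by
  unfold mulT
  rw [FirstOrder.Language.Term.realize_func, hS]
  simp [List.ofFn_succ]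

include hS in
theorem realize_nest (c : G) (a : ℕ → G) (xs : Fin 1 → G) (n i : ℕ) :
    (nest n i).realize (Sum.elim (Sum.elim (fun _ : Unit => c) a) xs) = val a (xs 0) n i := by
  induction n generalizing i with
  | zero => simp [nest, val]
  | succ n ih =>
    rw [nest, realize_mulT hS, realize_mulT hS, ih]
    simp [val]

include hS in
theorem realize_psi (c : G) (a : ℕ → G) (n : ℕ) :
    (psi n).Realize (Sum.elim (fun _ : Unit => c) a) ↔ ∃ y, c = val a y n 0 := by
  unfold psi FirstOrder.Language.Formula.Realize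
  rw [FirstOrder.Language.BoundedFormula.realize_ex]
  constructor
  · rintro ⟨y, hy⟩
    refine ⟨y, ?_⟩
    rw [FirstOrder.Language.BoundedFormula.realize_bdEqual, realize_nest hS] at hy
    simpa [Fin.snoc] using hy
  · rintro ⟨y, hy⟩
    refine ⟨y, ?_⟩
    rw [FirstOrder.Language.BoundedFormula.realize_bdEqual, realize_nest hS]
    simpa [Fin.snoc] using hy

/-- A group automorphism is an automorphism of the structure. -/
def autEquiv (hS : ∀ (n : ℕ) (f : LG.Functions n) (xs : Fin n → G),
        FirstOrder.Language.Structure.funMap f xs = (List.ofFn xs).prod)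
    (e : G ≃* G) : LG.Equiv G G where
  toEquiv := e.toEquiv
  map_fun' := by
    intro n f x
    rw [hS, hS]
    change e _ = _
    rw [map_list_prod, List.map_ofFn]
    rfl
  map_rel' := by
    intro n r
    exact r.elim

/-- Formulas only depend on the free variables. -/
theorem realize_congr_free {α : Type} [DecidableEq α] (φ : LG.Formula α) (v w : α → G)
    (h : ∀ i ∈ FirstOrder.Language.BoundedFormula.freeVarFinset φ, v i = w i) :
    φ.Realize v ↔ φ.Realize w := by
  unfold FirstOrder.Language.Formula.Realize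
  rw [← FirstOrder.Language.BoundedFormula.realize_restrictFreeVar' (s := ↑(FirstOrder.Language.BoundedFormula.freeVarFinset φ)) (v := v) subset_rfl,
    ← FirstOrder.Language.BoundedFormula.realize_restrictFreeVar' (s := ↑(FirstOrder.Language.BoundedFormula.freeVarFinset φ)) (v := w) subset_rfl]
  have : (v ∘ ((↑) : ↑(↑(FirstOrder.Language.BoundedFormula.freeVarFinset φ) : Set α) → α)) =
      (w ∘ (↑)) := by
    funext i
    exact h i i.2
  rw [this]

end

section
variable {G : Type} [Group G]

theorem map_val (φ : G →* G) (v : ℕ → G) (y : G) (n i : ℕ) :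
    φ (val v y n i) = val (fun j => φ (v j)) (φ y) n i := by
  induction n generalizing i with
  | zero => rfl
  | succ n ih => simp only [val, map_mul, ih]

theorem val_telescope (x b : ℕ → G) (n i : ℕ)
    (h : ∀ j, i ≤ j → j < i + n → b j = x j * (x (j + 1) * x (j + 1))⁻¹) :
    val b (x (i + n)) n i = x i := by
  induction n generalizing i with
  | zero => rfl
  | succ n ih =>
    have h1 : val b (x (i + (n + 1))) n (i + 1) = x (i + 1) := by
      have := ih (i + 1) (fun j hj hj' => h j (by omega) (by omega))
      rwa [show i + 1 + n = i + (n + 1) by omega] at this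
    simp only [val]
    rw [h1, h i le_rfl (by omega)]
    group

/-- For every `N` there is an automorphism taking `x i` to `x i * (x (i+1))^{-2}`, for `i < N`. -/
theorem exists_aut {X : Set G} (hX : Subgroup.closure X = ⊤)
    (hfree : ∀ f : X → G, ∃ φ : G →* G, ∀ x : X, φ x = f x)
    (x : ℕ → X) (hx : Function.Injective x) (N : ℕ) :
    ∃ e : G ≃* G, ∀ i < N, e (x i : G) = (x i : G) * ((x (i + 1) : G) * (x (i + 1) : G))⁻¹ := by
  classical
  obtain ⟨α, hα⟩ := hfree (Function.extend x
    (fun i => if i < N then (x i : G) * ((x (i + 1) : G) * (x (i + 1) : G))⁻¹ else (x i : G))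
    (fun z => (z : G)))
  obtain ⟨β, hβ⟩ := hfree (Function.extend x
    (fun i => if i < N then val (fun j => (x j : G)) (x N : G) (N - i) i else (x i : G))
    (fun z => (z : G)))
  have hα1 : ∀ i < N, α (x i : G) = (x i : G) * ((x (i + 1) : G) * (x (i + 1) : G))⁻¹ := by
    intro i hi
    rw [hα, hx.extend_apply, if_pos hi]
  have hα2 : ∀ i, ¬ i < N → α (x i : G) = (x i : G) := by
    intro i hi
    rw [hα, hx.extend_apply, if_neg hi]
  have hα3 : ∀ z : X, (¬ ∃ i, x i = z) → α (z : G) = (z : G) := by
    intro z hz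
    rw [hα, Function.extend_apply' _ _ _ hz]
  have hβ1 : ∀ i ≤ N, β (x i : G) = val (fun j => (x j : G)) (x N : G) (N - i) i := by
    intro i hi
    rw [hβ, hx.extend_apply]
    by_cases h : i < N
    · rw [if_pos h]
    · rw [if_neg h]
      have : i = N := by omega
      subst this
      simp [val]
  have hβ2 : ∀ i, ¬ i < N → β (x i : G) = (x i : G) := by
    intro i hi
    rw [hβ, hx.extend_apply, if_neg hi]
  have hβ3 : ∀ z : X, (¬ ∃ i, x i = z) → β (z : G) = (z : G) := by
    intro z hz
    rw [hβ, Function.extend_apply' _ _ _ hz]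
  have hβ4 : ∀ i < N, β (x i : G) = (x i : G) * (β (x (i + 1) : G) * β (x (i + 1) : G)) := by
    intro i hi
    rw [hβ1 i hi.le, hβ1 (i + 1) hi, show N - i = (N - (i + 1)) + 1 by omega]
    rfl
  have h1 : α.comp β = MonoidHom.id G := by
    apply MonoidHom.eq_of_eqOn_dense hX
    intro z hz
    change α (β z) = z
    by_cases h : ∃ i, x i = ⟨z, hz⟩
    · obtain ⟨i, hi⟩ := h
      have hzi : z = (x i : G) := by rw [hi]
      rw [hzi]
      by_cases hN : i < N
      · rw [hβ1 i hN.le, map_val, hα2 N (lt_irrefl N)]
        have := val_telescope (fun j => (x j : G)) (fun j => α (x j : G)) (N - i) i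
          (fun j _ hj' => hα1 j (by omega))
        rwa [show i + (N - i) = N by omega] at this
      · rw [hβ2 i hN, hα2 i hN]
    · have e1 : β z = z := hβ3 ⟨z, hz⟩ h
      have e2 : α z = z := hα3 ⟨z, hz⟩ h
      rw [e1, e2]
  have h2 : β.comp α = MonoidHom.id G := by
    apply MonoidHom.eq_of_eqOn_dense hX
    intro z hz
    change β (α z) = z
    by_cases h : ∃ i, x i = ⟨z, hz⟩
    · obtain ⟨i, hi⟩ := h
      have hzi : z = (x i : G) := by rw [hi]
      rw [hzi]
      by_cases hN : i < N
      · rw [hα1 i hN, map_mul, map_inv, map_mul, hβ4 i hN]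
        group
      · rw [hα2 i hN, hβ2 i hN]
    · have e1 : β z = z := hβ3 ⟨z, hz⟩ h
      have e2 : α z = z := hα3 ⟨z, hz⟩ h
      rw [e2, e1]
  exact ⟨MonoidHom.toMulEquiv α β h2 h1, hα1⟩

end

/-- Every torsion-free group that is free in its own variety on an infinite basis fails ℵ1-homogeneity: some countable tuples a, b share a type, yet some element c has no d making (c,a) and (d,b) share a type. -/
theorem result :
  ∀ (G : Type) [Group G],
    (∀ g : G, ∀ n : ℕ, 0 < n → g ^ n = 1 → g = 1) →
    (∃ X : Set G, X.Infinite ∧ Subgroup.closure X = ⊤ ∧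
      ∀ f : X → G, ∃ φ : G →* G, ∀ x : X, φ x = f x) →
    ∀ [S : (FirstOrder.Language.mk (fun _ => Unit) (fun _ => Empty)).Structure G],
      (∀ (n : ℕ) (f : (FirstOrder.Language.mk (fun _ => Unit) (fun _ => Empty)).Functions n)
          (xs : Fin n → G),
        FirstOrder.Language.Structure.funMap f xs = (List.ofFn xs).prod) →
      ¬ ∀ a b : ℕ → G,
        (∀ φ : (FirstOrder.Language.mk (fun _ => Unit) (fun _ => Empty)).Formula ℕ,
          φ.Realize a ↔ φ.Realize b) →
        ∀ c : G, ∃ d : G,
          ∀ ψ : (FirstOrder.Language.mk (fun _ => Unit) (fun _ => Empty)).Formula (Unit ⊕ ℕ),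
            ψ.Realize (Sum.elim (fun _ => c) a) ↔ ψ.Realize (Sum.elim (fun _ => d) b) := by
  intro G _ htf hG S hS H
  obtain ⟨X, hXinf, hX, hfree⟩ := hG
  classical
  set x : ℕ → X := fun i => hXinf.natEmbedding X i with hxdef
  have hx : Function.Injective x := (hXinf.natEmbedding X).injective
  -- the two tuples
  set a : ℕ → G := fun i => (x i : G) * ((x (i + 1) : G) * (x (i + 1) : G))⁻¹ with ha
  set b : ℕ → G := fun i => (x i : G) with hb
  have hab : ∀ φ : LG.Formula ℕ, φ.Realize a ↔ φ.Realize b := by
    intro φ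
    obtain ⟨N, hN⟩ : ∃ N, ∀ i ∈ FirstOrder.Language.BoundedFormula.freeVarFinset φ, i < N :=
      ⟨(FirstOrder.Language.BoundedFormula.freeVarFinset φ).sup id + 1, fun i hi =>
        Nat.lt_succ_of_le (Finset.le_sup (f := id) hi)⟩
    obtain ⟨e, he⟩ := exists_aut hX hfree x hx N
    rw [realize_congr_free φ a (fun i => e (b i)) (fun i hi => (he i (hN i hi)).symm)]
    exact FirstOrder.Language.StrongHomClass.realize_formula (autEquiv hS e) φ (v := b)
  obtain ⟨d, hd⟩ := H a b hab (x 0 : G)
  have hd' : ∀ n, ∃ y, d = val b y n 0 := by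
    intro n
    rw [← realize_psi hS d b n, ← hd, realize_psi hS]
    refine ⟨(x n : G), ?_⟩
    have := val_telescope b a n 0 (fun j _ _ => rfl)
    rw [zero_add] at this
    exact this.symm
  -- a nontrivial element
  obtain ⟨g, hg⟩ : ∃ g : G, g ≠ 1 := by
    by_contra hcon
    push Not at hcon
    have : (x 0 : G) = (x 1 : G) := by rw [hcon (x 0 : G), hcon (x 1 : G)]
    have := hx (Subtype.ext this)
    omega
  -- coordinate homomorphisms
  have hcoord : ∀ m : ℕ, ∃ φ : G →* G, ∀ z : X, φ (z : G) = if z = x m then g else 1 :=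
    fun m => hfree (fun z => if z = x m then g else 1)
  choose p hp using hcoord
  have hfin : ∀ w : G, ∃ M, ∀ m, M ≤ m → p m w = 1 := by
    intro w
    have hw : w ∈ Subgroup.closure X := by rw [hX]; trivial
    induction hw using Subgroup.closure_induction with
    | mem z hz =>
      by_cases h : ∃ i, x i = ⟨z, hz⟩
      · obtain ⟨i, hi⟩ := h
        refine ⟨i + 1, fun m hm => ?_⟩
        have := hp m ⟨z, hz⟩
        rw [if_neg] at this
        · exact this
        · rw [← hi]
          intro hcon
          have := hx hcon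
          omega
      · refine ⟨0, fun m _ => ?_⟩
        have := hp m ⟨z, hz⟩
        rw [if_neg] at this
        · exact this
        · intro hcon
          exact h ⟨m, hcon.symm⟩
    | one => exact ⟨0, fun m _ => map_one _⟩
    | mul u v _ _ hu hv =>
      obtain ⟨M1, h1⟩ := hu
      obtain ⟨M2, h2⟩ := hv
      refine ⟨max M1 M2, fun m hm => ?_⟩
      rw [map_mul, h1 m (le_trans (le_max_left _ _) hm), h2 m (le_trans (le_max_right _ _) hm),
        one_mul]
    | inv u _ hu =>
      obtain ⟨M1, h1⟩ := hu
      exact ⟨M1, fun m hm => by rw [map_inv, h1 m hm, inv_one]⟩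
  have himg : ∀ m w, p m w ∈ Subgroup.zpowers g := by
    intro m w
    have hw : w ∈ Subgroup.closure X := by rw [hX]; trivial
    induction hw using Subgroup.closure_induction with
    | mem z hz =>
      rw [hp m ⟨z, hz⟩]
      split_ifs
      · exact Subgroup.mem_zpowers g
      · exact Subgroup.one_mem _
    | one => rw [map_one]; exact Subgroup.one_mem _
    | mul u v _ _ hu hv => rw [map_mul]; exact Subgroup.mul_mem _ hu hv
    | inv u _ hu => rw [map_inv]; exact Subgroup.inv_mem _ hu
  obtain ⟨m, hm⟩ := hfin d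
  have hdm : p m d = 1 := hm m le_rfl
  obtain ⟨y, hy⟩ := hd' (m + 1)
  obtain ⟨k, hk⟩ := Subgroup.mem_zpowers_iff.1 (himg m y)
  have key : ∀ n i, i + n = m → val (fun j => p m (b j)) (p m y) (n + 1) i =
      g ^ ((2 : ℤ) ^ n * (1 + 2 * k)) := by
    intro n
    induction n with
    | zero =>
      intro i hi
      simp only [val]
      have : p m (b i) = g := by
        rw [hb, hp m (x i), if_pos]
        rw [show i = m by omega]
      rw [this, ← hk, ← zpow_add]
      nth_rewrite 1 [← zpow_one g]
      rw [← zpow_add]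
      congr 1
      ring
    | succ n ih =>
      intro i hi
      have h1 := ih (i + 1) (by omega)
      rw [val, h1]
      have : p m (b i) = 1 := by
        rw [hb, hp m (x i), if_neg]
        intro hcon
        have := hx hcon
        omega
      rw [this, one_mul, ← zpow_add]
      congr 1
      ring
  have h3 : p m d = g ^ ((2 : ℤ) ^ m * (1 + 2 * k)) := by
    rw [hy, map_val]
    exact key m 0 (by omega)
  rw [hdm] at h3
  set z : ℤ := (2 : ℤ) ^ m * (1 + 2 * k) with hz
  have hz0 : z ≠ 0 := by
    rw [hz]
    apply mul_ne_zero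
    · positivity
    · omega
  have : g ^ z.natAbs = 1 := by
    rcases Int.natAbs_eq z with h | h
    · rw [← zpow_natCast, ← h, ← h3]
    · rw [← zpow_natCast, show ((z.natAbs : ℕ) : ℤ) = -z by omega, zpow_neg, ← h3, inv_one]
  exact hg (htf g z.natAbs (by omega) this)

end Pool.Agent.S14895
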