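-- Proof of the frozen statement S16733: the double Lambert series Y(q) is an odd function of q.
import Pool.Statements.S16733
-- import your own Pool.Agent.* helpers here

/-!
Expand both denominators in geometric series.  The coefficient of `q^E` in `Y` is the sum of
`(-1)^(a+m)` over the quadruples with `2E - 1 = x a + r s`, where `x` is even, `r = 2m - 1` and `s` are odd
and `x < s`.  For even `E` we have `x a + r s ≡ 3 mod 4`.  The substitution `(a, s) → (a + r, s - x)`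
identifies the sum over odd `a` (and `x < s`) with the sum over even `a > r`.  For even `a` we have
`r s ≡ 3 mod 4`, so that the involution `(x, a, r, s) → (a, x, s, r)` changes the sign of the term, and the sum
over all quadruples with even `a` vanishes; it also turns the condition `x < s` into `a < r`.  Hence the sum over
even `a` and `x < s` is equal to the sum over even `a > r`, and the two parts cancel.
-/

set_option autoImplicit false
open Pool Pool.MP_44e698_nt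

namespace Pool.Agent.S16733

/-- the exponent -/
def ex (i l j k : ℕ) : ℕ := (i + 1) * (l + 1) + 2 * j * k + j + k + 1

/-- the signed even part of the monomial -/
noncomputable def G (q : ℂ) (i l j k : ℕ) : ℂ :=
  (-1) ^ k * ((1 + (-1) ^ (ex i l j k)) * q ^ (ex i l j k))

/-- the monomials of `Y` -/
noncomputable def mono (q : ℂ) (p : (ℕ × ℕ) × (ℕ × ℕ)) : ℂ :=
  (-1) ^ (p.2.1 + 1 + p.1.1) * q ^ (ex p.1.2 p.2.1 (p.1.2 + 1 + p.2.2) p.1.1)

lemma ex_ge (i l j k : ℕ) : i + l + j + k ≤ ex i l j k := by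
  unfold ex
  nlinarith [Nat.zero_le (i * l), Nat.zero_le (j * k)]

lemma summable_four (q : ℂ) (hq : ‖q‖ < 1) :
    Summable (fun p : (ℕ × ℕ) × (ℕ × ℕ) => ‖q‖ ^ (p.1.1 + p.1.2 + p.2.1 + p.2.2)) := by
  have h1 : Summable (fun n : ℕ => ‖q‖ ^ n) := summable_geometric_of_lt_one (norm_nonneg _) hq
  have h2 : Summable (fun p : ℕ × ℕ => ‖q‖ ^ p.1 * ‖q‖ ^ p.2) :=
    h1.mul_of_nonneg h1 (fun n => by positivity) (fun n => by positivity)
  have h3 := h2.mul_of_nonneg h2 (fun n => by positivity) (fun n => by positivity)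
  refine h3.congr ?_
  intro p
  simp only [pow_add]
  ring

lemma summable_mono (q : ℂ) (hq : ‖q‖ < 1) : Summable (mono q) := by
  refine Summable.of_norm_bounded (summable_four q hq) ?_
  rintro ⟨⟨k, i⟩, ⟨l, d⟩⟩
  simp only [mono, norm_mul, norm_pow, norm_neg, norm_one, one_pow, one_mul]
  refine pow_le_pow_of_le_one (norm_nonneg _) hq.le ?_
  refine le_trans ?_ (ex_ge _ _ _ _)
  omega

lemma term_eq (q : ℂ) (hq : ‖q‖ < 1) (m n : ℕ) :
    (∑' c : ℕ × ℕ, mono q ((m, n), c)) =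
      (-q) ^ (2 * (m + 1) * (n + 1) + (m + 1)) / ((1 + q ^ (n + 1)) * (1 - q ^ (2 * m + 1))) := by
  have hn1 : ‖-q ^ (n + 1)‖ < 1 := by
    rw [norm_neg, norm_pow]
    exact pow_lt_one₀ (norm_nonneg _) hq (by omega)
  have hn2 : ‖q ^ (2 * m + 1)‖ < 1 := by
    rw [norm_pow]
    exact pow_lt_one₀ (norm_nonneg _) hq (by omega)
  have h1 := hasSum_geometric_of_norm_lt_one hn1
  have h2 := hasSum_geometric_of_norm_lt_one hn2
  have h3 : Summable (fun c : ℕ × ℕ => (-q ^ (n + 1)) ^ c.1 * (q ^ (2 * m + 1)) ^ c.2) :=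
    summable_mul_of_summable_norm (f := fun a : ℕ => (-q ^ (n + 1)) ^ a)
      (g := fun a : ℕ => (q ^ (2 * m + 1)) ^ a)
      (by simpa [norm_pow] using summable_geometric_of_lt_one (norm_nonneg _) hn1)
      (by simpa [norm_pow] using summable_geometric_of_lt_one (norm_nonneg _) hn2)
  have h4 := (h1.mul h2 h3).mul_left ((-q) ^ (2 * (m + 1) * (n + 1) + (m + 1)))
  have h5 : (fun c : ℕ × ℕ => mono q ((m, n), c)) = fun c : ℕ × ℕ =>
      (-q) ^ (2 * (m + 1) * (n + 1) + (m + 1)) * ((-q ^ (n + 1)) ^ c.1 * (q ^ (2 * m + 1)) ^ c.2) := by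
    funext c
    obtain ⟨a, b⟩ := c
    simp only [mono]
    have e1 : ex n a (n + 1 + b) m =
        (2 * (m + 1) * (n + 1) + (m + 1)) + (n + 1) * a + (2 * m + 1) * b := by
      unfold ex
      ring
    rw [e1, neg_pow (q ^ (n + 1)) a, neg_pow q, ← pow_mul, ← pow_mul, pow_add, pow_add]
    have e2 : ((-1 : ℂ)) ^ (2 * (m + 1) * (n + 1) + (m + 1)) = (-1) ^ (m + 1) := by
      rw [pow_add, mul_assoc 2, pow_mul]
      simp
    rw [e2]
    ring
  rw [h5, h4.tsum_eq, div_eq_mul_inv, mul_inv, sub_neg_eq_add]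

lemma Y_eq (q : ℂ) (hq : ‖q‖ < 1) :
    (∑' p : ℕ × ℕ, (-q) ^ (2 * (p.1 + 1) * (p.2 + 1) + (p.1 + 1)) /
          ((1 + q ^ (p.2 + 1)) * (1 - q ^ (2 * p.1 + 1)))) = ∑' P, mono q P := by
  rw [(summable_mono q hq).tsum_prod]
  refine tsum_congr ?_
  rintro ⟨m, n⟩
  rw [term_eq q hq m n]

lemma norm_G_le (q : ℂ) (hq : ‖q‖ < 1) (i l j k : ℕ) :
    ‖G q i l j k‖ ≤ 2 * ‖q‖ ^ (i + l + j + k) := by
  unfold G
  rw [norm_mul, norm_mul, norm_pow, norm_neg, norm_one, one_pow, one_mul, norm_pow]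
  refine mul_le_mul ?_ (pow_le_pow_of_le_one (norm_nonneg _) hq.le (ex_ge _ _ _ _)) (by positivity) (by norm_num)
  refine (norm_add_le _ _).trans ?_
  simp [norm_pow]
  norm_num

/-- the terms with even `a` -/
noncomputable def Hs (q : ℂ) (Q : (ℕ × ℕ) × (ℕ × ℕ)) : ℂ := G q Q.1.1 (2 * Q.1.2 + 1) Q.2.1 Q.2.2

lemma Hs_swap (q : ℂ) (i c j k : ℕ) : Hs q ((c, i), (k, j)) = - Hs q ((i, c), (j, k)) := by
  simp only [Hs, G]
  have e1 : ex c (2 * i + 1) k j = ex i (2 * c + 1) j k := by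
    unfold ex
    ring
  rw [e1]
  rcases Nat.even_or_odd (ex i (2 * c + 1) j k) with h | h
  · have h2 : Odd (j + k) := by
      have : ex i (2 * c + 1) j k = 2 * ((i + 1) * (c + 1) + j * k) + (j + k + 1) := by
        unfold ex
        ring
      rw [this] at h
      by_contra hc
      rw [Nat.not_odd_iff_even] at hc
      have h3 : Odd (2 * ((i + 1) * (c + 1) + j * k) + (j + k + 1)) :=
        (even_two_mul _).add_odd (hc.add_one)
      exact (Nat.not_even_iff_odd.mpr h3) h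
    have h3 : ((-1 : ℂ)) ^ j = - (-1) ^ k := by
      have h4 : ((-1 : ℂ)) ^ (j + k) = -1 := h2.neg_one_pow
      rw [pow_add] at h4
      have h5 : ((-1 : ℂ)) ^ k * (-1) ^ k = 1 := by
        rw [← mul_pow]
        simp
      calc ((-1 : ℂ)) ^ j = (-1) ^ j * ((-1) ^ k * (-1) ^ k) := by rw [h5, mul_one]
        _ = ((-1) ^ j * (-1) ^ k) * (-1) ^ k := by ring
        _ = - (-1) ^ k := by rw [h4]; ring
    rw [h3]
    ring
  · rw [h.neg_one_pow]
    ring

lemma summable_Hs (q : ℂ) (hq : ‖q‖ < 1) : Summable (Hs q) := by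
  refine Summable.of_norm_bounded ((summable_four q hq).mul_left 2) ?_
  rintro ⟨⟨i, c⟩, ⟨j, k⟩⟩
  simp only [Hs]
  refine (norm_G_le q hq _ _ _ _).trans ?_
  refine mul_le_mul_of_nonneg_left ?_ (by norm_num)
  refine pow_le_pow_of_le_one (norm_nonneg _) hq.le ?_
  omega

/-- the exchange of the roles -/
def sw : (ℕ × ℕ) × (ℕ × ℕ) ≃ (ℕ × ℕ) × (ℕ × ℕ) where
  toFun Q := ((Q.1.2, Q.1.1), (Q.2.2, Q.2.1))
  invFun Q := ((Q.1.2, Q.1.1), (Q.2.2, Q.2.1))
  left_inv _ := rfl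
  right_inv _ := rfl

lemma total (q : ℂ) : ∑' Q, Hs q Q = 0 := by
  have h : ∑' Q, Hs q Q = - ∑' Q, Hs q Q := by
    conv_lhs => rw [← sw.tsum_eq]
    rw [← tsum_neg]
    refine tsum_congr ?_
    rintro ⟨⟨i, c⟩, ⟨j, k⟩⟩
    exact Hs_swap q i c j k
  exact self_eq_neg.mp h

lemma summable_ite (q : ℂ) (hq : ‖q‖ < 1) (P : (ℕ × ℕ) × (ℕ × ℕ) → Prop) [DecidablePred P] :
    Summable (fun Q => if P Q then Hs q Q else 0) := by
  refine Summable.of_norm_bounded (summable_Hs q hq).norm ?_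
  intro Q
  split_ifs
  · exact le_rfl
  · simp

/-- the index type: `((k, i, d), c)` -/
abbrev I := (ℕ × ℕ × ℕ) × ℕ

lemma partA (q : ℂ) :
    (∑' x : I, G q x.1.2.1 (2 * x.2 + 1) (x.1.2.1 + 1 + x.1.2.2) x.1.1) =
      ∑' Q, if Q.1.1 < Q.2.1 then Hs q Q else 0 := by
  let φ : I → (ℕ × ℕ) × (ℕ × ℕ) := fun x => ((x.1.2.1, x.2), (x.1.2.1 + 1 + x.1.2.2, x.1.1))
  have hφ : Function.Injective φ := by
    rintro ⟨⟨k, i, d⟩, c⟩ ⟨⟨k', i', d'⟩, c'⟩ h
    simp only [φ, Prod.mk.injEq] at h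
    obtain ⟨⟨h1, h2⟩, h3, h4⟩ := h
    subst h1 h2 h4
    have : d = d' := by omega
    subst this
    rfl
  rw [← hφ.tsum_eq]
  · refine tsum_congr ?_
    rintro ⟨⟨k, i, d⟩, c⟩
    simp only [φ, Hs]
    rw [if_pos (by omega)]
  · intro Q hQ
    obtain ⟨⟨i, c⟩, ⟨j, k⟩⟩ := Q
    have hij : i < j := by
      by_contra hc
      apply hQ
      simp only
      rw [if_neg hc]
    exact ⟨((k, i, j - i - 1), c), by simp only [φ, Prod.mk.injEq, and_true, true_and]; omega⟩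

lemma partB (q : ℂ) :
    (∑' x : I, G q x.1.2.1 (2 * x.2) (x.1.2.1 + 1 + x.1.2.2) x.1.1) =
      ∑' Q, if Q.2.2 ≤ Q.1.2 then Hs q Q else 0 := by
  let φ : I → (ℕ × ℕ) × (ℕ × ℕ) := fun x => ((x.1.2.1, x.2 + x.1.1), (x.1.2.2, x.1.1))
  have hφ : Function.Injective φ := by
    rintro ⟨⟨k, i, d⟩, c⟩ ⟨⟨k', i', d'⟩, c'⟩ h
    simp only [φ, Prod.mk.injEq] at h
    obtain ⟨⟨h1, h2⟩, h3, h4⟩ := h
    subst h1 h3 h4
    have : c = c' := by omega
    subst this
    rfl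
  rw [← hφ.tsum_eq]
  · refine tsum_congr ?_
    rintro ⟨⟨k, i, d⟩, c⟩
    simp only [φ, Hs]
    rw [if_pos (by omega)]
    have e1 : ex i (2 * c) (i + 1 + d) k = ex i (2 * (c + k) + 1) d k := by
      unfold ex
      ring
    simp only [G, e1]
  · intro Q hQ
    obtain ⟨⟨i, c⟩, ⟨j, k⟩⟩ := Q
    have hij : k ≤ c := by
      by_contra hc
      apply hQ
      simp only
      rw [if_neg hc]
    exact ⟨((k, i, j), c - k), by simp only [φ, Prod.mk.injEq, and_true, true_and]; omega⟩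

lemma A_eq_B (q : ℂ) (hq : ‖q‖ < 1) :
    (∑' Q, if Q.1.1 < Q.2.1 then Hs q Q else 0) = ∑' Q, if Q.2.2 ≤ Q.1.2 then Hs q Q else 0 := by
  have h1 : (∑' Q, if Q.1.1 < Q.2.1 then Hs q Q else 0) =
      - ∑' Q, if ¬ (Q.2.2 ≤ Q.1.2) then Hs q Q else 0 := by
    conv_lhs => rw [← sw.tsum_eq]
    rw [← tsum_neg]
    refine tsum_congr ?_
    rintro ⟨⟨i, c⟩, ⟨j, k⟩⟩
    change (if c < k then Hs q ((c, i), (k, j)) else 0) =
      - (if ¬ (k ≤ c) then Hs q ((i, c), (j, k)) else 0)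
    by_cases h : c < k
    · rw [if_pos h, if_pos (by omega)]
      exact Hs_swap q i c j k
    · rw [if_neg h, if_neg (by omega)]
      simp
  have h2 : (∑' Q, if Q.2.2 ≤ Q.1.2 then Hs q Q else 0) +
      (∑' Q, if ¬ (Q.2.2 ≤ Q.1.2) then Hs q Q else 0) = 0 := by
    rw [← (summable_ite q hq (fun Q => Q.2.2 ≤ Q.1.2)).tsum_add
      (summable_ite q hq (fun Q => ¬ (Q.2.2 ≤ Q.1.2)))]
    refine Eq.trans (tsum_congr ?_) (total q)
    intro Q
    by_cases h : Q.2.2 ≤ Q.1.2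
    · simp [h]
    · simp [h]
  rw [h1]
  exact (eq_neg_of_add_eq_zero_left h2).symm

/-- the reordering of the indices -/
def re : I ≃ (ℕ × ℕ) × (ℕ × ℕ) where
  toFun x := ((x.1.1, x.1.2.1), (x.2, x.1.2.2))
  invFun P := ((P.1.1, P.1.2, P.2.2), P.2.1)
  left_inv _ := rfl
  right_inv _ := rfl

/-- the terms of `Y q + Y (-q)` -/
noncomputable def F (q : ℂ) (x : I) : ℂ :=
  (-1) ^ (x.2 + 1) * G q x.1.2.1 x.2 (x.1.2.1 + 1 + x.1.2.2) x.1.1

lemma F_eq (q : ℂ) (x : I) : F q x = mono (-q) (re x) + mono q (re x) := by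
  obtain ⟨⟨k, i, d⟩, l⟩ := x
  simp only [F, G, mono, re, Equiv.coe_fn_mk]
  rw [neg_pow q, pow_add (-1) (l + 1) k]
  ring

lemma summable_F (q : ℂ) (hq : ‖q‖ < 1) : Summable (F q) := by
  have h1 : Summable (fun P => mono (-q) P + mono q P) :=
    (summable_mono (-q) (by rwa [norm_neg])).add (summable_mono q hq)
  have h2 := (re.summable_iff).mpr h1
  refine h2.congr ?_
  intro x
  exact (F_eq q x).symm

lemma split_sum (f : I → ℂ) (hs : Summable f) :
    ∑' x, f x = (∑' x : I, f (x.1, 2 * x.2)) + ∑' x : I, f (x.1, 2 * x.2 + 1) := by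
  have hE : Summable (fun x : I => f (x.1, 2 * x.2)) := by
    have hinj : Function.Injective (fun x : I => ((x.1, 2 * x.2) : I)) := by
      rintro ⟨a, b⟩ ⟨a', b'⟩ h
      simp only [Prod.mk.injEq] at h
      obtain ⟨h1, h2⟩ := h
      have : b = b' := by omega
      rw [h1, this]
    exact hs.comp_injective hinj
  have hO : Summable (fun x : I => f (x.1, 2 * x.2 + 1)) := by
    have hinj : Function.Injective (fun x : I => ((x.1, 2 * x.2 + 1) : I)) := by
      rintro ⟨a, b⟩ ⟨a', b'⟩ h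
      simp only [Prod.mk.injEq] at h
      obtain ⟨h1, h2⟩ := h
      have : b = b' := by omega
      rw [h1, this]
    exact hs.comp_injective hinj
  have e1 : ∑' x, f x = ∑' a, ∑' l, f (a, l) := hs.tsum_prod
  have e2 : (∑' x : I, f (x.1, 2 * x.2)) = ∑' a, ∑' c, f (a, 2 * c) := hE.tsum_prod
  have e3 : (∑' x : I, f (x.1, 2 * x.2 + 1)) = ∑' a, ∑' c, f (a, 2 * c + 1) := hO.tsum_prod
  have s2 : Summable (fun a => ∑' c, f (a, 2 * c)) := hE.prod
  have s3 : Summable (fun a => ∑' c, f (a, 2 * c + 1)) := hO.prod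
  rw [e1, e2, e3, ← s2.tsum_add s3]
  refine tsum_congr ?_
  intro a
  have f2 : Summable (fun c => f (a, 2 * c)) := hE.prod_factor a
  have f3 : Summable (fun c => f (a, 2 * c + 1)) := hO.prod_factor a
  exact (tsum_even_add_odd (f := fun l => f (a, l)) f2 f3).symm

lemma sum_F (q : ℂ) (hq : ‖q‖ < 1) : ∑' x, F q x = 0 := by
  have hs := summable_F q hq
  have hsplit := split_sum (F q) hs
  have hEeq : (∑' x : I, F q (x.1, 2 * x.2)) =
      - ∑' x : I, G q x.1.2.1 (2 * x.2) (x.1.2.1 + 1 + x.1.2.2) x.1.1 := by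
    rw [← tsum_neg]
    refine tsum_congr ?_
    intro x
    simp only [F]
    rw [pow_succ, pow_mul]
    simp
  have hOeq : (∑' x : I, F q (x.1, 2 * x.2 + 1)) =
      ∑' x : I, G q x.1.2.1 (2 * x.2 + 1) (x.1.2.1 + 1 + x.1.2.2) x.1.1 := by
    refine tsum_congr ?_
    intro x
    simp only [F]
    rw [pow_succ, pow_succ, pow_mul]
    simp
  rw [hsplit, hEeq, hOeq, partA, partB, A_eq_B q hq]
  ring

/-- For every complex q with ∣q∣<1, let Y(q) be the sum over m,n≥1 of (-q)^(2mn+m)/((1+q^n)(1-q^(2m-1))). Then Y(-q) = -Y(q), i.e. Y is an odd function. -/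
theorem result :
    ∀ q : ℂ, ‖q‖ < 1 →
      (∑' p : ℕ × ℕ, (-(-q)) ^ (2 * (p.1 + 1) * (p.2 + 1) + (p.1 + 1)) /
          ((1 + (-q) ^ (p.2 + 1)) * (1 - (-q) ^ (2 * p.1 + 1))))
        = -(∑' p : ℕ × ℕ, (-q) ^ (2 * (p.1 + 1) * (p.2 + 1) + (p.1 + 1)) /
          ((1 + q ^ (p.2 + 1)) * (1 - q ^ (2 * p.1 + 1)))) := by
  intro q hq
  have hq' : ‖-q‖ < 1 := by rwa [norm_neg]
  rw [Y_eq (-q) hq', Y_eq q hq]
  apply eq_neg_of_add_eq_zero_left
  rw [← (summable_mono (-q) hq').tsum_add (summable_mono q hq), ← re.tsum_eq]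
  rw [← sum_F q hq]
  refine tsum_congr ?_
  intro x
  exact (F_eq q x).symm

end Pool.Agent.S16733
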