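import Pool.Statements.S18875
-- import your own Pool.Agent.* helpers here
import Pool.Agent.J4.H31.SM.Comb
import Pool.Agent.J4.H31.SM.Root
import Pool.Agent.J4.H31.SM.Nec

set_option autoImplicit false
open scoped NumberField
open Pool Pool.MP_ed3ef1_nt

namespace Pool.Agent.S18875

/-- For every number field K and tuple a in O_K^n: some nonzero K-conjugates α_i (repeats allowed) satisfy Σ a_i α_i = 0 iff the strong archimedean and nonarchimedean absolute value criteria hold, or Σ a_i ω_i = 0 for some roots of unity ω_i. -/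
theorem result :
  ∀ (K : Type) [Field K] [NumberField K] (n : ℕ) (a : Fin n → 𝓞 K),
    (∃ α : Fin n → AlgebraicClosure K,
        (∀ i, α i ≠ 0) ∧ (∀ i j, minpoly K (α i) = minpoly K (α j)) ∧
        ∑ i, algebraMap K (AlgebraicClosure K) (a i : K) * α i = 0) ↔
    (((∀ v : NumberField.InfinitePlace K, ∀ i : Fin n,
          v (a i : K) < ∑ j ∈ Finset.univ.erase i, v (a j : K)) ∧
      (∀ v : IsDedekindDomain.HeightOneSpectrum (𝓞 K), ∀ i : Fin n,
          ∃ j : Fin n, j ≠ i ∧ v.valuation K (a i : K) ≤ v.valuation K (a j : K))) ∨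
     ∃ ω : Fin n → AlgebraicClosure K,
        (∀ i, ∃ m : ℕ, 0 < m ∧ ω i ^ m = 1) ∧
        ∑ i, algebraMap K (AlgebraicClosure K) (a i : K) * ω i = 0) := by
  intro K _ _ n a
  constructor
  · rintro ⟨α, hα, hmin, hsum⟩
    by_cases hne : ∃ i, (a i : K) ≠ 0
    swap
    · push Not at hne
      exact Or.inr ⟨fun _ => 1, fun _ => ⟨1, one_pos, one_pow _⟩, by simp [hne]⟩
    by_cases hb : ∃ ω : Fin n → AlgebraicClosure K,
        (∀ i, ∃ m : ℕ, 0 < m ∧ ω i ^ m = 1) ∧
        ∑ i, algebraMap K (AlgebraicClosure K) (a i : K) * ω i = 0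
    · exact Or.inr hb
    refine Or.inl ⟨fun v i => ?_, fun v i => ?_⟩
    · by_contra hcon
      rw [not_lt] at hcon
      apply hb
      let _ : Algebra K ℂ := v.embedding.toAlgebra
      let Φ : AlgebraicClosure K →ₐ[K] ℂ := IsAlgClosed.lift
      have hΦ : ∀ x : K, ‖Φ (algebraMap K (AlgebraicClosure K) x)‖ = v x := by
        intro x
        rw [Φ.commutes]
        exact v.norm_embedding_eq x
      exact Pool.Agent.J4.H31.SM.nec_arch (Φ : AlgebraicClosure K →+* ℂ) (fun i => (a i : K)) α hα hmin
        hsum hne i (by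
          have h1 : ∀ x : K, ‖(Φ : AlgebraicClosure K →+* ℂ) (algebraMap K (AlgebraicClosure K) x)‖ = v x := hΦ
          simp only [h1]
          exact hcon)
    · refine Pool.Agent.J4.H31.SM.nec_fin (v.valuation K) (fun i => (a i : K)) α hα hmin hsum i ?_
      by_contra hcon
      rw [Finset.not_nonempty_iff_eq_empty] at hcon
      rw [← Finset.add_sum_erase Finset.univ _ (Finset.mem_univ i), hcon, Finset.sum_empty, add_zero,
        mul_eq_zero] at hsum
      have h1 : (a i : K) = 0 := by
        rcases hsum with h | h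
        · exact (map_eq_zero _).1 h
        · exact absurd h (hα i)
      obtain ⟨j, hj⟩ := hne
      have h2 : j ∉ Finset.univ.erase i := by rw [hcon]; exact Finset.notMem_empty j
      have h3 : j = i := by
        by_contra h
        exact h2 (Finset.mem_erase.2 ⟨h, Finset.mem_univ j⟩)
      rw [h3] at hj
      exact hj h1
  · rintro (⟨h1, h2⟩ | ⟨ω, hω, hsum⟩)
    · exact Pool.Agent.J4.H31.SM.smyth_of_strong a h1 h2
    · exact Pool.Agent.J4.H31.SM.smyth_of_roots a ω hω hsum

end Pool.Agent.S18875
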