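import Pool.Statements.S19141
import Pool.Agent.J4.H90.UGW.Lower
import Pool.Agent.J4.H90.UGW.Spec

set_option autoImplicit false
open MeasureTheory ProbabilityTheory
open Pool Pool.MP_0c40c8_pr

namespace Pool.Agent.S19141

open Pool.Agent.J4.H90.UGW Measure

/-- bounded degrees almost surely -/
theorem bdd_ae (p q : Measure ℕ) [IsProbabilityMeasure p] [IsProbabilityMeasure q] {D : ℕ}
    (hp : ∀ k, D < k → p {k} = 0) (hq : ∀ k, D < k → q {k} = 0) :
    ∀ᵐ x ∂(Rm p q), Bdd D x := by
  unfold Bdd
  rw [ae_all_iff]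
  intro w
  have hmap := infinitePi_map_eval (rl p q) w
  have hmw : Measurable (fun x : Tr => x w) := measurable_pi_apply w
  have h0 : rl p q w (Set.Ioi D) = 0 := by
    have hun : Set.Ioi D = ⋃ k ∈ Set.Ioi D, ({k} : Set ℕ) := by
      ext k
      simp
    rw [hun, measure_biUnion_null_iff (Set.to_countable _)]
    intro k hk
    cases w with
    | nil => exact hp k hk
    | cons a w => exact hq k hk
  rw [ae_iff]
  have h1 : {x : Tr | ¬ x w ≤ D} = (fun x : Tr => x w) ⁻¹' (Set.Ioi D) := by
    ext x
    simp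
  unfold Rm
  rw [h1, ← map_apply hmw MeasurableSet.of_discrete, hmap, h0]

/-- For a unimodular Galton–Watson tree whose degree law has finite support and no mass at 0 or 1, the compactly supported measure whose k-th moment is the expected number of length-k closed walks at the root has finitely many atoms. -/
theorem result :
  ∀ (P : PMF ℕ), P.support.Finite → P 0 = 0 → P 1 = 0 →
  ∀ (Ω : Type) [MeasureSpace Ω] [IsProbabilityMeasure (volume : Measure Ω)]
    (N : List ℕ → Ω → ℕ),
    (∀ w, Measurable (N w)) → iIndepFun N (volume : Measure Ω) →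
    (∀ k : ℕ, (volume : Measure Ω) {ω | N [] ω = k} = P k) →
    (∀ w : List ℕ, w ≠ [] → ∀ k : ℕ,
      (volume : Measure Ω) {ω | N w ω = k}
        = ((k : ENNReal) + 1) * P (k + 1) / ∑' j : ℕ, (j : ENNReal) * P j) →
    ∀ ν : Measure ℝ, IsProbabilityMeasure ν →
      (∃ R : ℝ, ν (Set.Icc (-R) R)ᶜ = 0) →
      (∀ k : ℕ, ∫ x, x ^ k ∂ν =
        ∫ ω, ((Set.ncard {f : Fin (k + 1) → List ℕ |
            f 0 = [] ∧ f (Fin.last k) = [] ∧
            (∀ i, ∀ j < (f i).length, (f i).getD j 0 < N ((f i).take j) ω) ∧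
            ∀ i : Fin k, (∃ a : ℕ, f i.succ = f i.castSucc ++ [a]) ∨
                         (∃ a : ℕ, f i.castSucc = f i.succ ++ [a])} : ℕ) : ℝ)
          ∂(volume : Measure Ω)) →
      {x : ℝ | ν {x} ≠ 0}.Finite := by
  intro P hfin hP0 hP1 Ω _ _ N hN hind hroot hoff ν hν hR hmom
  -- bound on the support
  obtain ⟨D, hD⟩ : ∃ D : ℕ, ∀ k, D < k → P k = 0 := by
    obtain ⟨D, hD⟩ := hfin.bddAbove
    refine ⟨D, fun k hk => ?_⟩
    by_contra hne
    exact absurd (hD ((PMF.mem_support_iff P k).mpr hne)) (not_le.mpr hk)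
  set m : ENNReal := ∑' j : ℕ, (j : ENNReal) * P j with hm
  have hmtop : m ≠ ⊤ := by
    have hle : m ≤ ∑' j : ℕ, (D : ENNReal) * P j := by
      apply ENNReal.tsum_le_tsum
      intro j
      by_cases hj : D < j
      · rw [hD j hj, mul_zero, mul_zero]
      · gcongr
        exact not_lt.mp hj
    rw [ENNReal.tsum_mul_left, PMF.tsum_coe, mul_one] at hle
    exact (hle.trans_lt (ENNReal.natCast_lt_top D)).ne
  have hm0 : m ≠ 0 := by
    intro h0
    rw [hm, ENNReal.tsum_eq_zero] at h0
    have hall : ∀ j, P j = 0 := by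
      intro j
      rcases Nat.eq_zero_or_pos j with rfl | hj
      · exact hP0
      · rcases mul_eq_zero.mp (h0 j) with h | h
        · exact absurd h (by simpa using hj.ne')
        · exact h
    have h1 := PMF.tsum_coe P
    simp [hall] at h1
  -- laws
  set p : Measure ℕ := (volume : Measure Ω).map (N []) with hp
  set q : Measure ℕ := (volume : Measure Ω).map (N [0]) with hq
  have ip : IsProbabilityMeasure p := isProbabilityMeasure_map (hN []).aemeasurable
  have iq : IsProbabilityMeasure q := isProbabilityMeasure_map (hN [0]).aemeasurable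
  have hpk : ∀ k, p {k} = P k := by
    intro k
    rw [hp, map_apply (hN []) (measurableSet_singleton k)]
    exact hroot k
  have hqk : ∀ k, q {k} = ((k : ENNReal) + 1) * P (k + 1) / m := by
    intro k
    rw [hq, map_apply (hN [0]) (measurableSet_singleton k)]
    exact hoff [0] (by simp) k
  have hlaw : (volume : Measure Ω).map (fun ω w => N w ω) = Rm p q := by
    rw [hind.map_fun_eq_infinitePi_map hN]
    have h1 : (fun w => (volume : Measure Ω).map (N w)) = rl p q := by
      funext w
      cases w with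
      | nil => rfl
      | cons a w =>
        change (volume : Measure Ω).map (N (a :: w)) = q
        apply Measure.ext_of_singleton
        intro k
        rw [hqk, map_apply (hN _) (measurableSet_singleton k)]
        exact hoff (a :: w) (by simp) k
    unfold Rm
    rw [← h1]
  have hpq : ∀ k : ℕ, ((k : ENNReal) + 1) * p {k + 1} = m * q {k} := by
    intro k
    rw [hpk, hqk, ENNReal.mul_div_cancel hm0 hmtop]
  have hp0 : p {0} = 0 := by rw [hpk, hP0]
  have hp1 : p {1} = 0 := by rw [hpk, hP1]
  have hq0 : q {0} = 0 := by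
    rw [hqk]
    simp [hP1]
  have hbR : ∀ᵐ x ∂(Rm p q), Bdd D x :=
    bdd_ae p q (fun k hk => by rw [hpk, hD k hk])
      (fun k hk => by rw [hqk, hD (k + 1) (by omega)]; simp)
  have hbQ : ∀ᵐ x ∂(Qm q), Bdd D x :=
    bdd_ae q q (fun k hk => by rw [hqk, hD (k + 1) (by omega)]; simp)
      (fun k hk => by rw [hqk, hD (k + 1) (by omega)]; simp)
  obtain ⟨M, hM⟩ := no_pos q p hpq hbR hbQ hm0 hp0 hp1 hq0
  -- moments
  have hmom' : ∀ k : ℕ, ∫ y, y ^ k ∂ν = ∫ x, (W k [] x : ℝ) ∂(Rm p q) := by
    intro k
    rw [hmom k, ← hlaw, integral_map (measurable_pi_lambda _ hN).aemeasurable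
      (measurable_WR k).aestronglyMeasurable]
    apply integral_congr_ae
    filter_upwards with ω
    have hset : {f : Fin (k + 1) → List ℕ |
            f 0 = [] ∧ f (Fin.last k) = [] ∧
            (∀ i, ∀ j < (f i).length, (f i).getD j 0 < N ((f i).take j) ω) ∧
            ∀ i : Fin k, (∃ a : ℕ, f i.succ = f i.castSucc ++ [a]) ∨
                         (∃ a : ℕ, f i.castSucc = f i.succ ++ [a])} =
        (WF k [] (fun w => N w ω) : Set (Fin (k + 1) → List ℕ)) := by
      ext f
      rw [Finset.mem_coe, mem_WF k [] (fun w => N w ω) trivial f]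
      simp only [WS, Set.mem_ofPred_eq, valid_iff]
    rw [hset, Set.ncard_coe_finset, card_WF k [] (fun w => N w ω) trivial]
  refine (finite_small D M).subset ?_
  intro lam hlam
  by_contra hno
  apply hlam
  apply spectral (Rm p q) hbR ν hR hmom' lam
  apply hM lam
  intro x hx hpos _
  by_contra hsz
  exact hno ⟨x, hx, hpos, hsz⟩

end Pool.Agent.S19141
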