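import Pool.Statements.S19444

set_option autoImplicit false
open Filter Topology
open Pool Pool.MP_85987b_pr

namespace Pool.Agent.S19444

open Finset.HasAntidiagonal

lemma sum_fin_two (f : ℕ → ℝ) (k : ℕ) :
    (∑ x : Fin 2 → Fin (k + 2), if (∑ i, (x i : ℕ)) = k + 1 then ∏ i, f (x i) else 0)
      = ∑ ij ∈ antidiagonal (k + 1), f ij.1 * f ij.2 := by
  classical
  have h1 : (∑ x : Fin 2 → Fin (k + 2), if (∑ i, (x i : ℕ)) = k + 1 then ∏ i, f (x i) else 0)
      = ∑ y : Fin (k + 2) × Fin (k + 2),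
          if (y.1 : ℕ) + (y.2 : ℕ) = k + 1 then f y.1 * f y.2 else 0 := by
    refine Fintype.sum_equiv (finTwoArrowEquiv _) _ _ ?_
    intro x
    simp [Fin.sum_univ_two, Fin.prod_univ_two, finTwoArrowEquiv]
  rw [h1, ← Finset.sum_filter]
  refine Finset.sum_bij (fun y _ => ((y.1 : ℕ), (y.2 : ℕ))) ?_ ?_ ?_ ?_
  · intro y hy
    rw [Finset.mem_filter] at hy
    rw [mem_antidiagonal]
    exact hy.2
  · intro y _ z _ h
    simp only [Prod.mk.injEq] at h
    exact Prod.ext (Fin.ext h.1) (Fin.ext h.2)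
  · intro b hb
    rw [mem_antidiagonal] at hb
    refine ⟨(⟨b.1, by omega⟩, ⟨b.2, by omega⟩), ?_, ?_⟩
    · rw [Finset.mem_filter]
      exact ⟨Finset.mem_univ _, hb⟩
    · rfl
  · intro y _
    rfl

/-- the Cauchy square of a sequence -/
noncomputable def cs (a : ℕ → ℝ) (n : ℕ) : ℝ := ∑ ij ∈ antidiagonal n, a ij.1 * a ij.2

lemma cs_nonneg {a : ℕ → ℝ} (h : ∀ k, 0 ≤ a k) (n : ℕ) : 0 ≤ cs a n :=
  Finset.sum_nonneg fun _ _ => mul_nonneg (h _) (h _)

lemma cs_zero (a : ℕ → ℝ) : cs a 0 = a 0 ^ 2 := by simp [cs, sq]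

lemma summable_cs {a : ℕ → ℝ} (h : ∀ k, 0 ≤ a k) (hs : Summable a) : Summable (cs a) := by
  have h1 : Summable fun k => ‖a k‖ := by
    simpa [Real.norm_of_nonneg (h _)] using hs
  exact (summable_norm_sum_mul_antidiagonal_of_summable_norm h1 h1).of_norm

lemma tsum_cs {a : ℕ → ℝ} (h : ∀ k, 0 ≤ a k) (hs : Summable a) :
    ∑' n, cs a n = (∑' k, a k) ^ 2 := by
  have h1 : Summable fun k => ‖a k‖ := by
    simpa [Real.norm_of_nonneg (h _)] using hs
  rw [sq, tsum_mul_tsum_eq_tsum_sum_antidiagonal_of_summable_norm h1 h1]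
  rfl

lemma cs_mul_eq (a : ℕ → ℝ) (n : ℕ) :
    (n : ℝ) * cs a n = 2 * ∑ ij ∈ antidiagonal n, ((ij.1 : ℝ) * a ij.1) * a ij.2 := by
  have h1 : (n : ℝ) * cs a n = ∑ ij ∈ antidiagonal n, ((ij.1 : ℝ) * a ij.1) * a ij.2
      + ∑ ij ∈ antidiagonal n, ((ij.2 : ℝ) * a ij.2) * a ij.1 := by
    rw [cs, Finset.mul_sum, ← Finset.sum_add_distrib]
    refine Finset.sum_congr rfl fun ij hij => ?_
    rw [mem_antidiagonal] at hij
    rw [← hij]
    push_cast
    ring
  have h2 : ∑ ij ∈ antidiagonal n, ((ij.2 : ℝ) * a ij.2) * a ij.1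
      = ∑ ij ∈ antidiagonal n, ((ij.1 : ℝ) * a ij.1) * a ij.2 := by
    exact Finset.Nat.sum_antidiagonal_swap (n := n)
      (f := fun ij : ℕ × ℕ => ((ij.1 : ℝ) * a ij.1) * a ij.2)
  rw [h1, h2]
  ring

lemma hasSum_mul_cs {a : ℕ → ℝ} (h : ∀ k, 0 ≤ a k) (hs : Summable a)
    (hs1 : Summable fun k : ℕ => (k : ℝ) * a k) :
    HasSum (fun n : ℕ => (n : ℝ) * cs a n) (2 * ((∑' k : ℕ, (k : ℝ) * a k) * ∑' k, a k)) := by
  have h1 : Summable fun k => ‖a k‖ := by
    simpa [Real.norm_of_nonneg (h _)] using hs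
  have h2 : Summable fun k : ℕ => ‖(k : ℝ) * a k‖ := by
    have : ∀ k : ℕ, ‖(k : ℝ) * a k‖ = (k : ℝ) * a k := fun k =>
      Real.norm_of_nonneg (mul_nonneg (Nat.cast_nonneg _) (h _))
    simpa only [this] using hs1
  have h3 := tsum_mul_tsum_eq_tsum_sum_antidiagonal_of_summable_norm h2 h1
  have h4 := (summable_norm_sum_mul_antidiagonal_of_summable_norm h2 h1).of_norm
  have h5 := h4.hasSum.mul_left 2
  rw [← h3] at h5
  have h6 : (fun n : ℕ => (n : ℝ) * cs a n) =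
      fun n : ℕ => 2 * ∑ kl ∈ antidiagonal n, ((kl.1 : ℝ) * a kl.1) * a kl.2 :=
    funext fun n => cs_mul_eq a n
  rw [h6]
  exact h5

/-- partial sums of the Cauchy square -/
lemma sum_range_cs_le {a : ℕ → ℝ} (h : ∀ k, 0 ≤ a k) (m : ℕ) :
    ∑ n ∈ Finset.range m, cs a n ≤ (∑ k ∈ Finset.range m, a k) ^ 2 := by
  classical
  have h1 : ∑ n ∈ Finset.range m, cs a n
      = ∑ ij ∈ (Finset.range m).biUnion (fun n => antidiagonal n), a ij.1 * a ij.2 := by
    rw [Finset.sum_biUnion]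
    · rfl
    · intro x _ y _ hxy
      rw [Function.onFun, Finset.disjoint_left]
      intro ij h1 h2
      rw [mem_antidiagonal] at h1 h2
      exact hxy (h1.symm.trans h2)
  rw [h1, sq, Finset.sum_mul_sum, ← Finset.sum_product']
  refine Finset.sum_le_sum_of_subset_of_nonneg ?_ ?_
  · intro ij hij
    rw [Finset.mem_biUnion] at hij
    obtain ⟨n, hn, h2⟩ := hij
    rw [mem_antidiagonal] at h2
    rw [Finset.mem_range] at hn
    rw [Finset.mem_product, Finset.mem_range, Finset.mem_range]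
    omega
  · intro ij _ _
    exact mul_nonneg (h _) (h _)

/-- One step: from `a` to `b`. -/
structure Step (a b : ℕ → ℝ) : Prop where
  zero : b 0 = 1 / 2 * cs a 1 + a 0 ^ 2
  succ : ∀ k, 1 ≤ k → b k = 1 / 2 * cs a (k + 1)

section step

variable {a b : ℕ → ℝ} (h : ∀ k, 0 ≤ a k) (hab : Step a b)

include hab in
lemma step_eq (k : ℕ) : b k = 1 / 2 * cs a (k + 1) + if k = 0 then a 0 ^ 2 else 0 := by
  rcases Nat.eq_zero_or_pos k with rfl | hk
  · rw [hab.zero]; simp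
  · rw [hab.succ k hk, if_neg (by omega)]; ring

include h hab in
lemma step_nonneg (k : ℕ) : 0 ≤ b k := by
  rw [step_eq hab]
  have := cs_nonneg h (k + 1)
  have : (0 : ℝ) ≤ if k = 0 then a 0 ^ 2 else 0 := by
    split_ifs
    · positivity
    · exact le_rfl
  positivity

include h hab in
lemma step_hasSum (hs : Summable a) : HasSum b (((∑' k, a k) ^ 2 + a 0 ^ 2) / 2) := by
  have h1 : HasSum (fun k => cs a (k + 1)) ((∑' k, a k) ^ 2 - a 0 ^ 2) := by
    have h2 := (summable_cs h hs).hasSum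
    rw [tsum_cs h hs] at h2
    have h5 := (hasSum_nat_add_iff' 1).2 h2
    simpa [cs_zero] using h5
  have h2 : HasSum (fun k : ℕ => if k = 0 then a 0 ^ 2 else 0) (a 0 ^ 2) := by
    have := hasSum_ite_eq (0 : ℕ) (a 0 ^ 2)
    exact this
  have h3 := (h1.mul_left (1 / 2)).add h2
  have h4 : (fun k => 1 / 2 * cs a (k + 1) + if k = 0 then a 0 ^ 2 else 0) = b :=
    funext fun k => (step_eq hab k).symm
  rw [h4] at h3
  have h5 : ((∑' k, a k) ^ 2 + a 0 ^ 2) / 2
      = 1 / 2 * ((∑' k, a k) ^ 2 - a 0 ^ 2) + a 0 ^ 2 := by ring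
  rw [h5]
  exact h3

include h hab in
lemma step_hasSum_mul (hs : Summable a) (hs1 : Summable fun k : ℕ => (k : ℝ) * a k) :
    HasSum (fun k : ℕ => (k : ℝ) * b k)
      ((∑' k : ℕ, (k : ℝ) * a k) * (∑' k, a k) - ((∑' k, a k) ^ 2 - a 0 ^ 2) / 2) := by
  have h1 : HasSum (fun k => cs a (k + 1)) ((∑' k, a k) ^ 2 - a 0 ^ 2) := by
    have h2 := (summable_cs h hs).hasSum
    rw [tsum_cs h hs] at h2
    have h5 := (hasSum_nat_add_iff' 1).2 h2
    simpa [cs_zero] using h5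
  have h2 : HasSum (fun k : ℕ => ((k + 1 : ℕ) : ℝ) * cs a (k + 1))
      (2 * ((∑' k : ℕ, (k : ℝ) * a k) * ∑' k, a k)) := by
    have h3 := hasSum_mul_cs h hs hs1
    rw [← hasSum_nat_add_iff' 1] at h3
    simpa using h3
  have h3 := (h2.sub h1).mul_left (1 / 2)
  have h4 : (fun k : ℕ => 1 / 2 * (((k + 1 : ℕ) : ℝ) * cs a (k + 1) - cs a (k + 1)))
      = fun k : ℕ => (k : ℝ) * b k := by
    funext k
    rw [step_eq hab]
    rcases Nat.eq_zero_or_pos k with rfl | hk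
    · simp
    · rw [if_neg (by omega)]
      push_cast
      ring
  rw [h4] at h3
  have h5 : (∑' k : ℕ, (k : ℝ) * a k) * (∑' k, a k) - ((∑' k, a k) ^ 2 - a 0 ^ 2) / 2
      = 1 / 2 * (2 * ((∑' k : ℕ, (k : ℝ) * a k) * ∑' k, a k) - ((∑' k, a k) ^ 2 - a 0 ^ 2)) := by
    ring
  rw [h5]
  exact h3

include h hab in
lemma step_range (k : ℕ) (hk : 1 ≤ k) :
    ∑ j ∈ Finset.range k, b j ≤ ((∑ j ∈ Finset.range (k + 1), a j) ^ 2 + a 0 ^ 2) / 2 := by
  have h1 : ∑ j ∈ Finset.range k, b j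
      = 1 / 2 * ∑ j ∈ Finset.range k, cs a (j + 1) + a 0 ^ 2 := by
    have h2 : ∀ j ∈ Finset.range k, b j = 1 / 2 * cs a (j + 1) + if j = 0 then a 0 ^ 2 else 0 :=
      fun j _ => step_eq hab j
    rw [Finset.sum_congr rfl h2, Finset.sum_add_distrib, ← Finset.mul_sum]
    congr 1
    rw [Finset.sum_ite_eq' (Finset.range k) 0 (fun _ => a 0 ^ 2)]
    rw [if_pos (Finset.mem_range.2 (by omega))]
  have h2 : ∑ j ∈ Finset.range (k + 1), cs a j
      = ∑ j ∈ Finset.range k, cs a (j + 1) + a 0 ^ 2 := by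
    rw [Finset.sum_range_succ', cs_zero]
  have h3 := sum_range_cs_le h (k + 1)
  rw [h1]
  linarith

end step

/-- The weights `a n k = 2 ^ k P (X_n = k)` of a critical model with `m = 2`. -/
structure Chain (a : ℕ → ℕ → ℝ) : Prop where
  nonneg0 : ∀ k, 0 ≤ a 0 k
  step : ∀ n, Step (a n) (a (n + 1))
  sum0 : Summable (a 0)
  mom0 : Summable fun k : ℕ => (k : ℝ) * a 0 k
  crit0 : ∑' k : ℕ, (k : ℝ) * a 0 k = ∑' k, a 0 k

/-- `E 2 ^ X_n` -/
noncomputable def g (a : ℕ → ℕ → ℝ) (n : ℕ) : ℝ := ∑' k, a n k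

/-- the tail of `E 2 ^ X_n` -/
noncomputable def T (a : ℕ → ℕ → ℝ) (n k : ℕ) : ℝ := g a n - ∑ j ∈ Finset.range k, a n j

namespace Chain

variable {a : ℕ → ℕ → ℝ} (ha : Chain a)

include ha

lemma nonneg (n k : ℕ) : 0 ≤ a n k := by
  induction n generalizing k with
  | zero => exact ha.nonneg0 k
  | succ n ih => exact step_nonneg ih (ha.step n) k

lemma all (n : ℕ) : Summable (a n) ∧ (Summable fun k : ℕ => (k : ℝ) * a n k) ∧
    ∑' k : ℕ, (k : ℝ) * a n k = g a n := by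
  induction n with
  | zero => exact ⟨ha.sum0, ha.mom0, ha.crit0⟩
  | succ n ih =>
    obtain ⟨h1, h2, h3⟩ := ih
    have h4 := step_hasSum (ha.nonneg n) (ha.step n) h1
    have h5 := step_hasSum_mul (ha.nonneg n) (ha.step n) h1 h2
    refine ⟨h4.summable, h5.summable, ?_⟩
    rw [h5.tsum_eq, g, h4.tsum_eq, h3, g]
    ring

lemma g_succ (n : ℕ) : g a (n + 1) = (g a n ^ 2 + a n 0 ^ 2) / 2 :=
  (step_hasSum (ha.nonneg n) (ha.step n) (ha.all n).1).tsum_eq

lemma T_eq (n k : ℕ) : T a n k = ∑' j, a n (j + k) := by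
  have := (ha.all n).1.sum_add_tsum_nat_add k
  rw [T, g, ← this]
  ring

lemma T_nonneg (n k : ℕ) : 0 ≤ T a n k := by
  rw [ha.T_eq]
  exact tsum_nonneg fun _ => ha.nonneg _ _

lemma mul_T_le (n k : ℕ) : (k : ℝ) * T a n k ≤ g a n := by
  obtain ⟨h1, h2, h3⟩ := ha.all n
  rw [ha.T_eq, ← tsum_mul_left, ← h3]
  have h4 : Summable fun j => (k : ℝ) * a n (j + k) := ((summable_nat_add_iff k).2 h1).mul_left _
  have h5 : Summable fun j : ℕ => ((j + k : ℕ) : ℝ) * a n (j + k) :=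
    (summable_nat_add_iff (f := fun k : ℕ => (k : ℝ) * a n k) k).2 h2
  calc ∑' j, (k : ℝ) * a n (j + k) ≤ ∑' j : ℕ, ((j + k : ℕ) : ℝ) * a n (j + k) := by
        refine h4.tsum_le_tsum (fun j => ?_) h5
        refine mul_le_mul_of_nonneg_right ?_ (ha.nonneg _ _)
        push_cast
        have : (0 : ℝ) ≤ j := Nat.cast_nonneg j
        linarith
    _ ≤ ∑' j : ℕ, (j : ℝ) * a n j := by
        have h6 := h2.sum_add_tsum_nat_add k
        have h7 : 0 ≤ ∑ i ∈ Finset.range k, (i : ℝ) * a n i :=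
          Finset.sum_nonneg fun i _ => mul_nonneg (Nat.cast_nonneg _) (ha.nonneg _ _)
        rw [← h6]
        linarith

lemma T_succ (n k : ℕ) (hk : 1 ≤ k) :
    T a n (k + 1) * (g a n - T a n (k + 1) / 2) ≤ T a (n + 1) k := by
  have h1 := step_range (ha.nonneg n) (ha.step n) k hk
  have h2 : ∑ j ∈ Finset.range (k + 1), a n j = g a n - T a n (k + 1) := by
    rw [T]; ring
  rw [h2] at h1
  have h3 : T a (n + 1) k = g a (n + 1) - ∑ j ∈ Finset.range k, a (n + 1) j := rfl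
  rw [h3, ha.g_succ]
  nlinarith

lemma g_nonneg (n : ℕ) : 0 ≤ g a n := tsum_nonneg fun _ => ha.nonneg _ _

lemma T_lower (K : ℕ) (hK : 1 ≤ K) (n : ℕ) : ∀ k, K ≤ k →
    (∏ i ∈ Finset.range n, g a i) * T a 0 (k + n) * (1 - 1 / (2 * K)) ^ n ≤ T a n k := by
  have hK' : (1 : ℝ) ≤ K := by exact_mod_cast hK
  have hr : 0 ≤ 1 - 1 / (2 * (K : ℝ)) := by
    have : 1 / (2 * (K : ℝ)) ≤ 1 := by
      rw [div_le_one (by positivity)]
      linarith
    linarith
  induction n with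
  | zero =>
    intro k _
    simp
  | succ n ih =>
    intro k hk
    have h1 := ih (k + 1) (by omega)
    have h2 := ha.T_succ n k (by omega)
    have h3 := ha.mul_T_le n (k + 1)
    have h4 := ha.T_nonneg n (k + 1)
    have h5 := ha.g_nonneg n
    have h6 : T a n (k + 1) ≤ g a n / K := by
      rw [le_div_iff₀ (by linarith)]
      have : T a n (k + 1) * K ≤ ((k + 1 : ℕ) : ℝ) * T a n (k + 1) := by
        rw [mul_comm]
        refine mul_le_mul_of_nonneg_right ?_ h4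
        exact_mod_cast (by omega : K ≤ k + 1)
      linarith
    have h7 : g a n * (1 - 1 / (2 * (K : ℝ))) ≤ g a n - T a n (k + 1) / 2 := by
      have : g a n * (1 - 1 / (2 * (K : ℝ))) = g a n - (g a n / K) / 2 := by
        field_simp
      rw [this]
      linarith
    rw [Finset.prod_range_succ, pow_succ]
    have h8 : k + 1 + n = k + (n + 1) := by ring
    rw [h8] at h1
    calc (∏ i ∈ Finset.range n, g a i) * g a n * T a 0 (k + (n + 1)) *
          ((1 - 1 / (2 * (K : ℝ))) ^ n * (1 - 1 / (2 * (K : ℝ))))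
        = ((∏ i ∈ Finset.range n, g a i) * T a 0 (k + (n + 1)) * (1 - 1 / (2 * (K : ℝ))) ^ n) *
          (g a n * (1 - 1 / (2 * (K : ℝ)))) := by ring
      _ ≤ T a n (k + 1) * (g a n * (1 - 1 / (2 * (K : ℝ)))) := by
          refine mul_le_mul_of_nonneg_right h1 (mul_nonneg h5 hr)
      _ ≤ T a n (k + 1) * (g a n - T a n (k + 1) / 2) :=
          mul_le_mul_of_nonneg_left h7 h4
      _ ≤ T a (n + 1) k := h2

lemma prod_le (n : ℕ) (hn : 1 ≤ n) :
    (∏ i ∈ Finset.range n, g a i) * T a 0 (2 * n) * n ≤ 2 * g a n := by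
  have hn' : (1 : ℝ) ≤ n := by exact_mod_cast hn
  have h1 := ha.T_lower n hn n n le_rfl
  have h2 := ha.mul_T_le n n
  have h3 : (1 / 2 : ℝ) ≤ (1 - 1 / (2 * (n : ℝ))) ^ n := by
    have h4 : (-2 : ℝ) ≤ -(1 / (2 * (n : ℝ))) := by
      have : 1 / (2 * (n : ℝ)) ≤ 1 := by
        rw [div_le_one (by positivity)]
        linarith
      linarith
    have h5 := one_add_mul_le_pow h4 n
    have h6 : (1 : ℝ) + n * -(1 / (2 * (n : ℝ))) = 1 / 2 := by
      field_simp
      ring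
    rw [h6] at h5
    rw [sub_eq_add_neg]
    exact h5
  have h4 : 0 ≤ (∏ i ∈ Finset.range n, g a i) * T a 0 (n + n) :=
    mul_nonneg (Finset.prod_nonneg fun i _ => ha.g_nonneg i) (ha.T_nonneg _ _)
  have h5 : (∏ i ∈ Finset.range n, g a i) * T a 0 (n + n) * (1 / 2) ≤ T a n n :=
    (mul_le_mul_of_nonneg_left h3 h4).trans h1
  have h6 : (2 * n : ℕ) = n + n := by ring
  rw [h6]
  have h7 : (∏ i ∈ Finset.range n, g a i) * T a 0 (n + n) * n
      = 2 * (n * ((∏ i ∈ Finset.range n, g a i) * T a 0 (n + n) * (1 / 2))) := by ring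
  rw [h7]
  have h8 : (n : ℝ) * ((∏ i ∈ Finset.range n, g a i) * T a 0 (n + n) * (1 / 2)) ≤ n * T a n n :=
    mul_le_mul_of_nonneg_left h5 (by positivity)
  linarith

end Chain

/-- The law of `X_n` for `m = 2`. -/
structure Model (p : ℕ → ℕ → ℝ) : Prop where
  nonneg0 : ∀ k, 0 ≤ p 0 k
  total0 : HasSum (p 0) 1
  rec' : ∀ n k, p (n + 1) k = cs (p n) (k + 1) + if k = 0 then p n 0 ^ 2 else 0
  sum0 : Summable fun k : ℕ => p 0 k * (2 : ℝ) ^ k
  mom0 : Summable fun k : ℕ => (k : ℝ) * p 0 k * (2 : ℝ) ^ k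
  crit0 : ∑' k : ℕ, (k : ℝ) * p 0 k * (2 : ℝ) ^ k = ∑' k : ℕ, p 0 k * (2 : ℝ) ^ k

namespace Model

variable {p : ℕ → ℕ → ℝ} (hp : Model p)

include hp

lemma nonneg (n k : ℕ) : 0 ≤ p n k := by
  induction n generalizing k with
  | zero => exact hp.nonneg0 k
  | succ n ih =>
    rw [hp.rec']
    have := cs_nonneg ih (k + 1)
    have : (0 : ℝ) ≤ if k = 0 then p n 0 ^ 2 else 0 := by
      split_ifs
      · positivity
      · exact le_rfl
    positivity

lemma total (n : ℕ) : HasSum (p n) 1 := by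
  induction n with
  | zero => exact hp.total0
  | succ n ih =>
    have h2 := (summable_cs (hp.nonneg n) ih.summable).hasSum
    rw [tsum_cs (hp.nonneg n) ih.summable, ih.tsum_eq] at h2
    have h5 := (hasSum_nat_add_iff' 1).2 h2
    have h6 := h5.add (hasSum_ite_eq (0 : ℕ) (p n 0 ^ 2))
    have h7 : (1 : ℝ) ^ 2 - ∑ i ∈ Finset.range 1, cs (p n) i + p n 0 ^ 2 = 1 := by
      simp [cs_zero]
    rw [h7] at h6
    have h8 : (fun k => cs (p n) (k + 1) + if k = 0 then p n 0 ^ 2 else 0) = p (n + 1) :=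
      funext fun k => (hp.rec' n k).symm
    rw [← h8]
    exact h6

lemma chain : Chain fun n k => p n k * (2 : ℝ) ^ k := by
  have hcs : ∀ n N, cs (fun k => p n k * (2 : ℝ) ^ k) N = 2 ^ N * cs (p n) N := by
    intro n N
    rw [cs, cs, Finset.mul_sum]
    refine Finset.sum_congr rfl fun ij hij => ?_
    rw [mem_antidiagonal] at hij
    rw [← hij, pow_add]
    ring
  refine ⟨fun k => mul_nonneg (hp.nonneg0 k) (by positivity), fun n => ⟨?_, ?_⟩, hp.sum0, ?_, ?_⟩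
  · rw [hcs, hp.rec']
    simp
  · intro k hk
    rw [hcs, hp.rec', if_neg (by omega), pow_succ]
    ring
  · have := hp.mom0
    simpa only [mul_assoc] using this
  · have := hp.crit0
    simpa only [mul_assoc] using this

/-- `E 2 ^ X_n` -/
lemma one_le_g (n : ℕ) : 1 ≤ g (fun n k => p n k * (2 : ℝ) ^ k) n := by
  rw [← (hp.total n).tsum_eq, g]
  refine (hp.total n).summable.tsum_le_tsum (fun k => ?_) (hp.chain.all n).1
  have h1 : (1 : ℝ) ≤ 2 ^ k := one_le_pow₀ (by norm_num)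
  have h2 := hp.nonneg n k
  nlinarith

lemma g_le_two (n : ℕ) : g (fun n k => p n k * (2 : ℝ) ^ k) n ≤ 2 := by
  obtain ⟨h1, h2, h3⟩ := hp.chain.all n
  have h4 : ∀ k : ℕ, p n k * (2 : ℝ) ^ k ≤
      ((k : ℝ) * (p n k * (2 : ℝ) ^ k) - p n k * (2 : ℝ) ^ k) + 2 * p n k := by
    intro k
    have h5 := hp.nonneg n k
    rcases k with _ | _ | k
    · simp; linarith
    · simp; linarith
    · have h6 : (0 : ℝ) ≤ p n (k + 2) * 2 ^ (k + 2) := by positivity
      have h7 : (0 : ℝ) ≤ (k : ℝ) * (p n (k + 2) * 2 ^ (k + 2)) := by positivity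
      have h8 : (((k + 1 + 1 : ℕ)) : ℝ) = (k : ℝ) + 2 := by push_cast; ring
      rw [h8]
      have h9 : k + 1 + 1 = k + 2 := rfl
      rw [h9] at h5 ⊢
      linarith
  have h5 := ((h2.hasSum.sub h1.hasSum).add ((hp.total n).mul_left 2))
  rw [h3] at h5
  have h6 := hasSum_le h4 h1.hasSum h5
  have h7 : ∑' k : ℕ, p n k * (2 : ℝ) ^ k = g (fun n k => p n k * (2 : ℝ) ^ k) n := rfl
  rw [h7] at h6
  linarith

lemma zero_le_one' (n : ℕ) : p n 0 ≤ 1 := by
  have := le_hasSum (hp.total n) 0 (fun k _ => hp.nonneg n k)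
  exact this

/-- the probability of a positive value -/
lemma q_lower (n : ℕ) : 1 - ∑' k : ℕ, p n k * (1 / 2 : ℝ) ^ k ≤ 1 - p n 0 := by
  have h1 : Summable fun k : ℕ => p n k * (1 / 2 : ℝ) ^ k := by
    refine Summable.of_nonneg_of_le (fun k => mul_nonneg (hp.nonneg n k) (by positivity))
      (fun k => ?_) (hp.total n).summable
    have h1 : (1 / 2 : ℝ) ^ k ≤ 1 := pow_le_one₀ (by norm_num) (by norm_num)
    have h2 := hp.nonneg n k
    nlinarith
  have h2 := le_hasSum h1.hasSum 0 (fun k _ => mul_nonneg (hp.nonneg n k) (by positivity))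
  simp only [pow_zero, mul_one] at h2
  linarith

lemma eps_lower (hq : ∃ N : ℕ, ∀ n : ℕ, N ≤ n → 2 / (n : ℝ) ^ 2 ≤ 1 - p n 0) :
    ∃ N : ℕ, 1 ≤ N ∧ ∀ n : ℕ, N ≤ n →
      1 / (8 * (n : ℝ)) ≤ g (fun n k => p n k * (2 : ℝ) ^ k) n - 1 := by
  obtain ⟨N, hN⟩ := hq
  refine ⟨N + 1, by omega, fun n hn => ?_⟩
  set e : ℕ → ℝ := fun n => g (fun n k => p n k * (2 : ℝ) ^ k) n - 1 with he
  by_contra hcon
  push Not at hcon
  have hn1 : (1 : ℝ) ≤ n := by exact_mod_cast (by omega : 1 ≤ n)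
  have he0 : ∀ k, 0 ≤ e k := fun k => by
    have := hp.one_le_g k
    simp only [he]; linarith
  have hrec : ∀ k, e (k + 1) = e k + e k ^ 2 / 2 - ((1 - p k 0) - (1 - p k 0) ^ 2 / 2) := by
    intro k
    have h1 := hp.chain.g_succ k
    simp only [pow_zero, mul_one] at h1
    simp only [he]
    rw [h1]
    ring
  -- the decrease
  have hdec : ∀ j, j ≤ n → e (n + j) ≤ e n - j * (31 / 128 / (n : ℝ) ^ 2) := by
    intro j
    induction j with
    | zero => intro _; simp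
    | succ j ih =>
      intro hj
      have h1 := ih (by omega)
      have h2 : e (n + j) ≤ 1 / (8 * n) := by
        have : (0 : ℝ) ≤ j * (31 / 128 / (n : ℝ) ^ 2) := by positivity
        linarith
      have h3 : e (n + j) ^ 2 ≤ (1 / (8 * n)) ^ 2 :=
        pow_le_pow_left₀ (he0 _) h2 2
      have h4 := hN (n + j) (by omega)
      have h5 : 1 / (2 * (n : ℝ) ^ 2) ≤ 1 - p (n + j) 0 := by
        refine le_trans ?_ h4
        have hpos : (0 : ℝ) < ((n + j : ℕ) : ℝ) := by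
          exact_mod_cast (by omega : 0 < n + j)
        rw [div_le_div_iff₀ (by positivity) (by positivity)]
        have h6 : ((n + j : ℕ) : ℝ) ≤ 2 * n := by
          exact_mod_cast (by omega : n + j ≤ 2 * n)
        have h7 : ((n + j : ℕ) : ℝ) ^ 2 ≤ (2 * n) ^ 2 :=
          pow_le_pow_left₀ (Nat.cast_nonneg _) h6 2
        nlinarith
      have h6 : 0 ≤ p (n + j) 0 := hp.nonneg _ _
      have h7 : (1 - p (n + j) 0) / 2 ≤ (1 - p (n + j) 0) - (1 - p (n + j) 0) ^ 2 / 2 := by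
        have h8 := hp.zero_le_one' (n + j)
        nlinarith
      have h8 : e (n + (j + 1)) ≤ e (n + j) + (1 / (8 * n)) ^ 2 / 2 - 1 / (2 * (n : ℝ) ^ 2) / 2 := by
        rw [← add_assoc, hrec]
        linarith
      have h9 : (1 / (8 * (n : ℝ))) ^ 2 / 2 - 1 / (2 * (n : ℝ) ^ 2) / 2
          = - (31 / 128 / (n : ℝ) ^ 2) := by
        field_simp
        norm_num
      push_cast
      linarith
  have h1 := hdec n le_rfl
  have h2 := he0 (n + n)
  have h3 : (n : ℝ) * (31 / 128 / (n : ℝ) ^ 2) = 31 / 128 / n := by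
    field_simp
  rw [h3] at h1
  have h4 : e n < 1 / (8 * n) := hcon
  have h5 : 1 / (8 * (n : ℝ)) = 16 / 128 / n := by
    field_simp
    norm_num
  have h6 : (16 : ℝ) / 128 / n - 31 / 128 / n < 0 := by
    rw [← sub_div]
    apply div_neg_of_neg_of_pos
    · norm_num
    · linarith
  linarith

lemma prod_lower (hq : ∃ N : ℕ, ∀ n : ℕ, N ≤ n → 2 / (n : ℝ) ^ 2 ≤ 1 - p n 0) :
    ∃ N : ℕ, 1 ≤ N ∧ ∀ n : ℕ, N ≤ n →
      ((n : ℝ) / N) ^ (1 / 8 : ℝ) ≤
        ∏ i ∈ Finset.range n, g (fun n k => p n k * (2 : ℝ) ^ k) i := by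
  obtain ⟨N, hN1, hN⟩ := hp.eps_lower hq
  have hN' : (1 : ℝ) ≤ N := by exact_mod_cast hN1
  refine ⟨N, hN1, fun n hn => ?_⟩
  induction n, hn using Nat.le_induction with
  | base =>
    rw [div_self (by linarith), Real.one_rpow]
    have : ∀ i ∈ Finset.range N, (1 : ℝ) ≤ g (fun n k => p n k * (2 : ℝ) ^ k) i := fun i _ =>
      hp.one_le_g i
    calc (1 : ℝ) = ∏ i ∈ Finset.range N, (1 : ℝ) := by simp
      _ ≤ _ := Finset.prod_le_prod (fun _ _ => zero_le_one) this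
  | succ n hn ih =>
    have hn1 : (1 : ℝ) ≤ n := by exact_mod_cast (by omega : 1 ≤ n)
    rw [Finset.prod_range_succ]
    have h1 := hN n hn
    have h2 : (((n + 1 : ℕ) : ℝ) / N) = ((n : ℝ) / N) * (1 + 1 / n) := by
      push_cast
      field_simp
    rw [h2, Real.mul_rpow (by positivity) (by positivity)]
    have h3 : (1 + 1 / (n : ℝ)) ^ (1 / 8 : ℝ) ≤ 1 + (1 / 8 : ℝ) * (1 / n) := by
      refine rpow_one_add_le_one_add_mul_self ?_ (by norm_num) (by norm_num)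
      have : (0 : ℝ) ≤ 1 / n := by positivity
      linarith
    have h4 : (1 + 1 / (n : ℝ)) ^ (1 / 8 : ℝ) ≤ g (fun n k => p n k * (2 : ℝ) ^ k) n := by
      have h5 : (1 / 8 : ℝ) * (1 / n) = 1 / (8 * n) := by
        field_simp
      rw [h5] at h3
      linarith
    exact mul_le_mul ih h4 (by positivity) (le_trans (by positivity) ih)

/-- the contradiction -/
lemma contra (hq : ∃ N : ℕ, ∀ n : ℕ, N ≤ n → 2 / (n : ℝ) ^ 2 ≤ 1 - p n 0) {c : ℝ} (hc : 0 < c)
    (htail : ∀ n : ℕ, 1 ≤ n → c * (n : ℝ) ^ (-(17 / 16) : ℝ) ≤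
      T (fun n k => p n k * (2 : ℝ) ^ k) 0 (2 * n)) : False := by
  obtain ⟨N, hN1, hN⟩ := hp.prod_lower hq
  have hN' : (1 : ℝ) ≤ N := by exact_mod_cast hN1
  -- an upper bound for `n ^ (1/16)`
  have key : ∀ n : ℕ, N ≤ n → (n : ℝ) ^ (1 / 16 : ℝ) ≤ 4 / (c * (1 / (N : ℝ)) ^ (1 / 8 : ℝ)) := by
    intro n hn
    have hn1 : (1 : ℝ) ≤ n := by exact_mod_cast (by omega : 1 ≤ n)
    have h1 := hN n hn
    have h2 := hp.chain.prod_le n (by omega)
    have h3 := htail n (by omega)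
    have h4 := hp.g_le_two n
    rw [le_div_iff₀ (by positivity)]
    have h5 : ((n : ℝ) / N) ^ (1 / 8 : ℝ) * (c * (n : ℝ) ^ (-(17 / 16) : ℝ)) * n ≤ 4 := by
      calc ((n : ℝ) / N) ^ (1 / 8 : ℝ) * (c * (n : ℝ) ^ (-(17 / 16) : ℝ)) * n
          ≤ (∏ i ∈ Finset.range n, g (fun n k => p n k * (2 : ℝ) ^ k) i) *
            T (fun n k => p n k * (2 : ℝ) ^ k) 0 (2 * n) * n := by
            refine mul_le_mul_of_nonneg_right ?_ (by positivity)
            refine mul_le_mul h1 h3 (by positivity) (le_trans (by positivity) h1)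
        _ ≤ 2 * g (fun n k => p n k * (2 : ℝ) ^ k) n := h2
        _ ≤ 4 := by linarith
    have h6 : (n : ℝ) ^ (1 / 16 : ℝ) * (c * (1 / (N : ℝ)) ^ (1 / 8 : ℝ))
        = ((n : ℝ) / N) ^ (1 / 8 : ℝ) * (c * (n : ℝ) ^ (-(17 / 16) : ℝ)) * n := by
      have h7 : ((n : ℝ) / N) = n * (1 / N) := by ring
      rw [h7, Real.mul_rpow (by positivity) (by positivity)]
      have h8 : (n : ℝ) ^ (1 / 16 : ℝ) = (n : ℝ) ^ (1 / 8 : ℝ) * (n : ℝ) ^ (-(17 / 16) : ℝ) * n := by
        have hpos : (0 : ℝ) < n := by linarith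
        rw [← Real.rpow_add hpos]
        nth_rewrite 3 [← Real.rpow_one (n : ℝ)]
        rw [← Real.rpow_add hpos]
        norm_num
      rw [h8]
      ring
    rw [h6]
    exact h5
  have h1 : Tendsto (fun n : ℕ => (n : ℝ) ^ (1 / 16 : ℝ)) atTop atTop :=
    (tendsto_rpow_atTop (by norm_num)).comp tendsto_natCast_atTop_atTop
  obtain ⟨n, hn1, hn2⟩ := ((h1.eventually_gt_atTop
    (4 / (c * (1 / (N : ℝ)) ^ (1 / 8 : ℝ)))).and (eventually_ge_atTop N)).exists
  exact absurd (key n hn2) (not_le.2 hn1)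

end Model

/-- the shape of the tail of the initial law -/
noncomputable def al (k : ℕ) : ℝ := ((k : ℝ) ^ (33 / 16 : ℝ))⁻¹

lemma al_nonneg (k : ℕ) : 0 ≤ al k := by unfold al; positivity

lemma al_zero : al 0 = 0 := by
  unfold al
  rw [Nat.cast_zero, Real.zero_rpow (by norm_num), inv_zero]

lemma al_one : al 1 = 1 := by unfold al; simp

lemma mul_al (k : ℕ) : (k : ℝ) * al k = ((k : ℝ) ^ (17 / 16 : ℝ))⁻¹ := by
  unfold al
  rcases Nat.eq_zero_or_pos k with rfl | hk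
  · rw [Nat.cast_zero, zero_mul, Real.zero_rpow (by norm_num), inv_zero]
  · have hk' : (0 : ℝ) < k := by exact_mod_cast hk
    have h1 : (33 / 16 : ℝ) = 17 / 16 + 1 := by norm_num
    rw [h1, Real.rpow_add_one hk'.ne', mul_inv]
    field_simp

lemma summable_mul_al : Summable fun k : ℕ => (k : ℝ) * al k := by
  simp only [mul_al]
  exact Real.summable_nat_rpow_inv.2 (by norm_num)

lemma summable_al : Summable al := by
  refine Summable.of_nonneg_of_le al_nonneg (fun k => ?_) summable_mul_al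
  rcases Nat.eq_zero_or_pos k with rfl | hk
  · simp [al_zero]
  · have hk' : (1 : ℝ) ≤ k := by exact_mod_cast hk
    have := al_nonneg k
    nlinarith

lemma summable_al_two : Summable fun k : ℕ => al k / 2 ^ k := by
  refine Summable.of_nonneg_of_le (fun k => div_nonneg (al_nonneg k) (by positivity)) (fun k => ?_)
    summable_al
  exact div_le_self (al_nonneg k) (one_le_pow₀ (by norm_num))

/-- `∑ (k - 1) al k` -/
noncomputable def M : ℝ := (∑' k : ℕ, (k : ℝ) * al k) - ∑' k, al k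

lemma M_pos : 0 < M := by
  have h1 : HasSum (fun k : ℕ => (k : ℝ) * al k - al k) M :=
    summable_mul_al.hasSum.sub summable_al.hasSum
  have h2 : ∀ k : ℕ, 0 ≤ (k : ℝ) * al k - al k := by
    intro k
    rcases Nat.eq_zero_or_pos k with rfl | hk
    · simp [al_zero]
    · have hk' : (1 : ℝ) ≤ k := by exact_mod_cast hk
      have := al_nonneg k
      nlinarith
  have h3 := le_hasSum h1 2 (fun k _ => h2 k)
  have h4 : 0 < al 2 := by unfold al; positivity
  push_cast at h3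
  linarith

/-- the normalising constant -/
noncomputable def Z : ℝ := M + ∑' k : ℕ, al k / 2 ^ k

lemma Z_pos : 0 < Z := by
  have h1 : 0 ≤ ∑' k : ℕ, al k / 2 ^ k :=
    tsum_nonneg fun k => div_nonneg (al_nonneg k) (by positivity)
  have := M_pos
  unfold Z
  linarith

/-- the initial law -/
noncomputable def p0 (k : ℕ) : ℝ := (al k / 2 ^ k + if k = 0 then M else 0) / Z

/-- the laws -/
noncomputable def pp : ℕ → ℕ → ℝ
  | 0 => p0
  | n + 1 => fun k => (∑ x : Fin 2 → Fin (k + 2),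
              if (∑ i, (x i : ℕ)) = k + 1 then ∏ i, pp n (x i) else 0)
          + (if k = 0 then pp n 0 ^ 2 else 0)

lemma p0_nonneg (k : ℕ) : 0 ≤ p0 k := by
  unfold p0
  have h1 := al_nonneg k
  have h2 := M_pos
  have h3 := Z_pos
  have h4 : 0 ≤ if k = 0 then M else 0 := by
    split_ifs
    · exact h2.le
    · exact le_rfl
  positivity

lemma p0_hasSum : HasSum p0 1 := by
  have h1 := summable_al_two.hasSum.add (hasSum_ite_eq (0 : ℕ) M)
  have h2 := h1.div_const Z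
  have h3 : (∑' k : ℕ, al k / 2 ^ k + M) / Z = 1 := by
    rw [add_comm]
    exact div_self Z_pos.ne'
  rw [h3] at h2
  exact h2

lemma p0_two (k : ℕ) : p0 k * (2 : ℝ) ^ k = (al k + if k = 0 then M else 0) / Z := by
  unfold p0
  rcases Nat.eq_zero_or_pos k with rfl | hk
  · simp
  · rw [if_neg (by omega), add_zero, add_zero]
    field_simp

lemma hasSum_p0_two : HasSum (fun k : ℕ => p0 k * (2 : ℝ) ^ k)
    ((∑' k : ℕ, (k : ℝ) * al k) / Z) := by
  simp only [p0_two]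
  have h1 := (summable_al.hasSum.add (hasSum_ite_eq (0 : ℕ) M)).div_const Z
  have h2 : ∑' k, al k + M = ∑' k : ℕ, (k : ℝ) * al k := by
    unfold M; ring
  rw [h2] at h1
  exact h1

lemma hasSum_mul_p0_two : HasSum (fun k : ℕ => (k : ℝ) * p0 k * (2 : ℝ) ^ k)
    ((∑' k : ℕ, (k : ℝ) * al k) / Z) := by
  have h1 := summable_mul_al.hasSum.div_const Z
  have h2 : (fun k : ℕ => (k : ℝ) * p0 k * (2 : ℝ) ^ k) = fun k : ℕ => (k : ℝ) * al k / Z := by
    funext k
    rw [mul_assoc, p0_two]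
    rcases Nat.eq_zero_or_pos k with rfl | hk
    · simp
    · rw [if_neg (by omega)]
      ring
  rw [h2]
  exact h1

lemma model : Model pp := by
  refine ⟨p0_nonneg, p0_hasSum, ?_, hasSum_p0_two.summable, hasSum_mul_p0_two.summable, ?_⟩
  · intro n k
    have h1 := sum_fin_two (pp n) k
    show (∑ x : Fin 2 → Fin (k + 2),
              if (∑ i, (x i : ℕ)) = k + 1 then ∏ i, pp n (x i) else 0)
          + (if k = 0 then pp n 0 ^ 2 else 0) = _
    rw [h1]
    rfl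
  · have h1 := hasSum_mul_p0_two.tsum_eq
    have h2 := hasSum_p0_two.tsum_eq
    have h3 : pp 0 = p0 := rfl
    rw [h3, h1, h2]

lemma tail_lower (n : ℕ) (hn : 1 ≤ n) :
    (2 * (4 : ℝ) ^ (-(33 / 16) : ℝ) / Z) * (n : ℝ) ^ (-(17 / 16) : ℝ) ≤
      T (fun n k => pp n k * (2 : ℝ) ^ k) 0 (2 * n) := by
  have hn' : (0 : ℝ) < n := by exact_mod_cast hn
  have hZ := Z_pos
  rw [model.chain.T_eq]
  have hsum : Summable fun j => pp 0 (j + 2 * n) * (2 : ℝ) ^ (j + 2 * n) :=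
    (summable_nat_add_iff (f := fun k => pp 0 k * (2 : ℝ) ^ k) (2 * n)).2 (model.chain.all 0).1
  have h1 : ∑ j ∈ Finset.range (2 * n), pp 0 (j + 2 * n) * (2 : ℝ) ^ (j + 2 * n) ≤
      ∑' j, pp 0 (j + 2 * n) * (2 : ℝ) ^ (j + 2 * n) :=
    hsum.sum_le_tsum _ (fun j _ => model.chain.nonneg 0 (j + 2 * n))
  refine le_trans ?_ h1
  have h2 : ∀ j ∈ Finset.range (2 * n),
      ((4 * n : ℝ) ^ (33 / 16 : ℝ))⁻¹ / Z ≤ pp 0 (j + 2 * n) * (2 : ℝ) ^ (j + 2 * n) := by
    intro j hj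
    rw [Finset.mem_range] at hj
    have h3 : pp 0 (j + 2 * n) * (2 : ℝ) ^ (j + 2 * n) = p0 (j + 2 * n) * 2 ^ (j + 2 * n) := rfl
    rw [h3, p0_two, if_neg (by omega), add_zero]
    refine div_le_div_of_nonneg_right ?_ hZ.le
    unfold al
    have h4 : (0 : ℝ) < ((j + 2 * n : ℕ) : ℝ) := by exact_mod_cast (by omega : 0 < j + 2 * n)
    refine inv_anti₀ (by positivity) ?_
    refine Real.rpow_le_rpow h4.le ?_ (by norm_num)
    exact_mod_cast (by omega : j + 2 * n ≤ 4 * n)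
  have h3 := Finset.card_nsmul_le_sum _ _ _ h2
  rw [Finset.card_range, nsmul_eq_mul] at h3
  refine le_trans (le_of_eq ?_) h3
  have h4 : (n : ℝ) ^ (-(17 / 16) : ℝ) = n * (n : ℝ) ^ (-(33 / 16) : ℝ) := by
    nth_rewrite 2 [← Real.rpow_one (n : ℝ)]
    rw [← Real.rpow_add hn']
    norm_num
  rw [h4, ← Real.rpow_neg (by positivity), Real.mul_rpow (by norm_num) hn'.le]
  push_cast
  ring

/-- The negation of the preceding statement: For integer m≥2 and any law of X_0 on ℕ with P(X_0=0)>0 and (m−1)E(X_0 m^X_0)=E(m^X_0)<∞, where X_{n+1} is (sum of m iid copies of X_n minus 1)^+: for all s in (0,m), s≠1, (E s^X_n − 1) divided by 4m/(m−1)²·(s−1)/(m−s)/n² tends to 1. -/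
theorem result :
    ¬ (∀ (m : ℕ), 2 ≤ m → ∀ p : ℕ → ℕ → ℝ,
      (∀ k, 0 ≤ p 0 k) → HasSum (p 0) 1 →
      (∀ n k, p (n + 1) k =
          (∑ x : Fin m → Fin (k + 2),
              if (∑ i, (x i : ℕ)) = k + 1 then ∏ i, p n (x i) else 0)
          + (if k = 0 then p n 0 ^ m else 0)) →
      Summable (fun k : ℕ => p 0 k * (m : ℝ) ^ k) →
      Summable (fun k : ℕ => (k : ℝ) * p 0 k * (m : ℝ) ^ k) →
      ((m : ℝ) - 1) * (∑' k : ℕ, (k : ℝ) * p 0 k * (m : ℝ) ^ k)
          = ∑' k : ℕ, p 0 k * (m : ℝ) ^ k →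
      0 < p 0 0 →
      ∀ s : ℝ, 0 < s → s < (m : ℝ) → s ≠ 1 →
        Tendsto
          (fun n : ℕ =>
            ((∑' k : ℕ, p n k * s ^ k) - 1) /
              (4 * (m : ℝ) / (((m : ℝ) - 1) ^ 2) * ((s - 1) / ((m : ℝ) - s)) / ((n : ℝ) ^ 2)))
          atTop (𝓝 1)) := by
  intro H
  have h1 := H 2 le_rfl pp p0_nonneg p0_hasSum (fun n k => rfl) hasSum_p0_two.summable
    hasSum_mul_p0_two.summable (by
      have h1 := hasSum_mul_p0_two.tsum_eq
      have h2 := hasSum_p0_two.tsum_eq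
      have h3 : pp 0 = p0 := rfl
      rw [h3]
      push_cast
      rw [h1, h2]
      ring) (by
      have h1 := M_pos
      have h2 := Z_pos
      have h3 : pp 0 0 = M / Z := by
        show p0 0 = _
        unfold p0
        simp [al_zero]
      rw [h3]
      positivity) (1 / 2) (by norm_num) (by norm_num) (by norm_num)
  have h2 := h1.eventually (lt_mem_nhds (show (3 / 4 : ℝ) < 1 by norm_num))
  obtain ⟨N, hN⟩ := eventually_atTop.1 h2
  have hZ := Z_pos
  refine model.contra ⟨N + 1, fun n hn => ?_⟩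
    (c := 2 * (4 : ℝ) ^ (-(33 / 16) : ℝ) / Z) (by positivity) tail_lower
  refine le_trans ?_ (model.q_lower n)
  have h3 := hN n (by omega)
  have hn' : (0 : ℝ) < n := by exact_mod_cast (by omega : 0 < n)
  have h4 : (4 * ((2 : ℕ) : ℝ) / ((((2 : ℕ) : ℝ) - 1) ^ 2) * ((1 / 2 - 1) / (((2 : ℕ) : ℝ) - 1 / 2)) /
      ((n : ℝ) ^ 2)) = -(8 / 3 / (n : ℝ) ^ 2) := by
    push_cast
    ring
  rw [h4, lt_div_iff_of_neg (by
    have : (0 : ℝ) < 8 / 3 / (n : ℝ) ^ 2 := by positivity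
    linarith)] at h3
  have h5 : (3 / 4 : ℝ) * -(8 / 3 / (n : ℝ) ^ 2) = -(2 / (n : ℝ) ^ 2) := by ring
  rw [h5] at h3
  linarith

end Pool.Agent.S19444
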